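import Pool.Agent.Lib.MP_841d01_co.Jac

namespace Trib

private theorem dual_prime {U q : ℕ} (hq : q ∈ QQ U) : q.Prime ∧ U < q ∧ q ≤ 4 * U := by
  unfold QQ at hq
  rw [Finset.mem_filter, Finset.mem_Ioc] at hq
  exact ⟨hq.2, hq.1.1, hq.1.2⟩

private theorem dual_W {U : ℕ} (d : ℤ) (hd4 : d % 4 = 1) (hdU : |d| ≤ (U : ℤ) ^ 2)
    (hN : 6 ≤ (QQ U).card)
    (hbad : 4 * ((QQ U).filter fun q => jacobiSym d q = 1).card < (QQ U).card) :
    3 * ∑ q ∈ QQ U, jacobiSym d q ≤ -((QQ U).card : ℤ) := by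
  classical
  have hd0 : d ≠ 0 := by
    rintro rfl
    simp at hd4
  have hz : ((QQ U).filter fun q => jacobiSym d q = 0).card ≤ 1 := by
    rw [Finset.card_le_one]
    intro a ha b hb
    by_contra hab
    rw [Finset.mem_filter] at ha hb
    have div : ∀ q : ℕ, q.Prime → jacobiSym d q = 0 → q ∣ d.natAbs := by
      intro q hq h0
      have : NeZero q := ⟨hq.ne_zero⟩
      rw [jacobiSym.eq_zero_iff_not_coprime] at h0
      have h1 : Int.gcd d q ∣ q := by
        have := Int.gcd_dvd_right (a := d) (b := (q : ℤ))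
        exact_mod_cast this
      rcases (Nat.dvd_prime hq).1 h1 with h2 | h2
      · exact absurd h2 h0
      · have h3 : Int.gcd d q ∣ d.natAbs := by
          rw [Int.gcd_eq_natAbs]
          exact Nat.gcd_dvd_left _ _
        rwa [h2] at h3
    have pa := dual_prime ha.1
    have pb := dual_prime hb.1
    have hcop : Nat.Coprime a b := (Nat.coprime_primes pa.1 pb.1).2 hab
    have hdvd : a * b ∣ d.natAbs :=
      hcop.mul_dvd_of_dvd_of_dvd (div a pa.1 ha.2) (div b pb.1 hb.2)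
    have hle : a * b ≤ d.natAbs := Nat.le_of_dvd (Int.natAbs_pos.2 hd0) hdvd
    have hdU' : d.natAbs ≤ U ^ 2 := by
      have : (d.natAbs : ℤ) ≤ (U : ℤ) ^ 2 := by
        rw [Int.natCast_natAbs]
        exact hdU
      exact_mod_cast this
    nlinarith [pa.2.1, pb.2.1]
  have hpt : ∀ q ∈ QQ U, jacobiSym d q ≤
      2 * (if jacobiSym d q = 1 then 1 else 0) + (if jacobiSym d q = 0 then 1 else 0) - 1 := by
    intro q _
    rcases jacobiSym.trichotomy d q with h | h | h <;> rw [h] <;> norm_num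
  have h1 := Finset.sum_le_sum hpt
  rw [Finset.sum_sub_distrib, Finset.sum_add_distrib, ← Finset.mul_sum, Finset.sum_boole,
    Finset.sum_boole] at h1
  simp only [Finset.sum_const, nsmul_eq_mul, mul_one] at h1
  zify at hbad hz hN
  linarith

private theorem dual_fiber (b : ℕ) (Q : Finset ℕ) (hQ : ∀ q ∈ Q, q.Prime) :
    ((Fintype.piFinset (fun _ : Fin 5 => Q)).filter fun v => ∏ i, v i = b).card ≤ 120 := by
  classical
  rcases ((Fintype.piFinset (fun _ : Fin 5 => Q)).filter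
    fun v => ∏ i, v i = b).eq_empty_or_nonempty with h | ⟨v0, h0⟩
  · rw [h]
    simp
  · have key : ∀ v ∈ (Fintype.piFinset (fun _ : Fin 5 => Q)).filter fun v => ∏ i, v i = b,
        (List.ofFn v).Perm b.primeFactorsList := by
      intro v hv
      rw [Finset.mem_filter, Fintype.mem_piFinset] at hv
      apply Nat.primeFactorsList_unique
      · rw [List.prod_ofFn]
        exact hv.2
      · intro p hp
        rw [List.mem_ofFn] at hp
        obtain ⟨i, rfl⟩ := hp
        exact hQ _ (hv.1 i)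
    have hlen : b.primeFactorsList.length = 5 := by
      rw [← (key v0 h0).length_eq, List.length_ofFn]
    have hmap : ((Fintype.piFinset (fun _ : Fin 5 => Q)).filter fun v => ∏ i, v i = b).card ≤
        (b.primeFactorsList.permutations.toFinset).card := by
      apply Finset.card_le_card_of_injOn (fun v => List.ofFn v)
      · intro v hv
        rw [Finset.mem_coe, List.mem_toFinset, List.mem_permutations]
        exact key v hv
      · intro v _ w _ h
        exact List.ofFn_injective h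
    calc _ ≤ _ := hmap
      _ ≤ b.primeFactorsList.permutations.length := List.toFinset_card_le _
      _ = 120 := by
        rw [List.length_permutations, hlen]
        rfl

/-- T6 -/
theorem dual {ι : Type} (S : Finset ι) (D : ι → ℤ) (U : ℕ) (hU : 2 ≤ U)
    (hD4 : ∀ x ∈ S, D x % 4 = 1) (hDU : ∀ x ∈ S, |D x| ≤ (U : ℤ) ^ 2)
    (hN : 6 ≤ (QQ U).card)
    (hbad : ∀ x ∈ S, 4 * ((QQ U).filter fun q => jacobiSym (D x) q = 1).card < (QQ U).card) :
    (S.card : ℝ) ^ 2 * (((QQ U).card : ℝ) / 3) ^ 10 ≤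
      120 * ((QQ U).card : ℝ) ^ 5 *
        ((((S ×ˢ S).filter fun x => IsSquare (D x.1 * D x.2)).card : ℝ) * (1024 * (U : ℝ) ^ 5) +
          (S.card : ℝ) ^ 2 * (4 * (U : ℝ) ^ 4)) := by
  classical
  set Q := QQ U with hQ
  set V := Fintype.piFinset (fun _ : Fin 5 => Q) with hV
  set Z : ℕ := 1024 * U ^ 5 with hZ
  set B := (Finset.range (Z + 1)).filter Odd with hB
  let Sb : ℕ → ℝ := fun b => ∑ x ∈ S, (jacobiSym (D x) b : ℝ)
  have hVmem : ∀ v ∈ V, ∀ i, v i ∈ Q := fun v hv i => (Fintype.mem_piFinset.1 hv) i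
  have hprod : ∀ x, ∀ v ∈ V, ∏ i, (jacobiSym (D x) (v i) : ℝ) =
      (jacobiSym (D x) (∏ i, v i) : ℝ) := by
    intro x v hv
    have h1 : jacobiSym (D x) (List.ofFn v).prod =
        ((List.ofFn v).map fun n => jacobiSym (D x) n).prod := by
      apply jacobiSym.list_prod_right
      intro n hn
      rw [List.mem_ofFn] at hn
      obtain ⟨i, rfl⟩ := hn
      exact (dual_prime (hVmem v hv i)).1.ne_zero
    rw [List.prod_ofFn, List.map_ofFn, List.prod_ofFn] at h1
    rw [h1]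
    push_cast
    rfl
  have hpow : ∀ x, (∑ q ∈ Q, (jacobiSym (D x) q : ℝ)) ^ 5 =
      ∑ v ∈ V, (jacobiSym (D x) (∏ i, v i) : ℝ) := by
    intro x
    rw [Finset.sum_pow']
    exact Finset.sum_congr rfl fun v hv => hprod x v hv
  -- the fifth moment
  have h1 : (S.card : ℝ) * ((Q.card : ℝ) / 3) ^ 5 ≤ ∑ v ∈ V, |Sb (∏ i, v i)| := by
    have hle : ∀ x ∈ S, ((Q.card : ℝ) / 3) ^ 5 ≤
        -∑ v ∈ V, (jacobiSym (D x) (∏ i, v i) : ℝ) := by
      intro x hx
      have h2 := dual_W (D x) (hD4 x hx) (hDU x hx) hN (hbad x hx)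
      have h3 : (3 : ℝ) * ∑ q ∈ Q, (jacobiSym (D x) q : ℝ) ≤ -(Q.card : ℝ) := by exact_mod_cast h2
      have h4 : (Q.card : ℝ) / 3 ≤ -∑ q ∈ Q, (jacobiSym (D x) q : ℝ) := by linarith
      have h5 := pow_le_pow_left₀ (by positivity) h4 5
      rw [Odd.neg_pow (by decide), hpow x] at h5
      exact h5
    calc (S.card : ℝ) * ((Q.card : ℝ) / 3) ^ 5 = ∑ x ∈ S, ((Q.card : ℝ) / 3) ^ 5 := by
          rw [Finset.sum_const, nsmul_eq_mul]
      _ ≤ ∑ x ∈ S, -∑ v ∈ V, (jacobiSym (D x) (∏ i, v i) : ℝ) := Finset.sum_le_sum hle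
      _ = -∑ v ∈ V, Sb (∏ i, v i) := by
          rw [Finset.sum_neg_distrib, Finset.sum_comm]
      _ ≤ |∑ v ∈ V, Sb (∏ i, v i)| := neg_le_abs _
      _ ≤ ∑ v ∈ V, |Sb (∏ i, v i)| := Finset.abs_sum_le_sum_abs _ _
  -- Cauchy-Schwarz
  have hVcard : (V.card : ℝ) = (Q.card : ℝ) ^ 5 := by
    rw [hV, Fintype.card_piFinset, Finset.prod_const, Finset.card_univ, Fintype.card_fin]
    push_cast
    rfl
  have h2 : ((S.card : ℝ) * ((Q.card : ℝ) / 3) ^ 5) ^ 2 ≤
      (Q.card : ℝ) ^ 5 * ∑ v ∈ V, Sb (∏ i, v i) ^ 2 := by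
    calc _ ≤ (∑ v ∈ V, |Sb (∏ i, v i)|) ^ 2 := pow_le_pow_left₀ (by positivity) h1 2
      _ ≤ V.card * ∑ v ∈ V, |Sb (∏ i, v i)| ^ 2 := sq_sum_le_card_mul_sum_sq
      _ = _ := by
          rw [hVcard]
          congr 1
          exact Finset.sum_congr rfl fun v _ => sq_abs _
  -- products of five primes
  have hmaps : ∀ v ∈ V, ∏ i, v i ∈ B := by
    intro v hv
    rw [hB, Finset.mem_filter, Finset.mem_range]
    constructor
    · have : ∏ i, v i ≤ ∏ _i : Fin 5, 4 * U :=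
        Finset.prod_le_prod' fun i _ => (dual_prime (hVmem v hv i)).2.2
      rw [Finset.prod_const, Finset.card_univ, Fintype.card_fin, mul_pow] at this
      rw [hZ]
      norm_num at this
      omega
    · rw [Nat.odd_iff]
      have hodd : ∀ i, Odd (v i) := fun i =>
        (dual_prime (hVmem v hv i)).1.odd_of_ne_two (by
          have := (dual_prime (hVmem v hv i)).2.1
          omega)
      rw [← Nat.odd_iff]
      exact Finset.prod_induction _ Odd (fun _ _ => Odd.mul) odd_one fun i _ => hodd i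
  have h3 : ∑ v ∈ V, Sb (∏ i, v i) ^ 2 ≤ 120 * ∑ b ∈ B, Sb b ^ 2 := by
    rw [← Finset.sum_fiberwise_of_maps_to hmaps, Finset.mul_sum]
    apply Finset.sum_le_sum
    intro b _
    have e1 : ∑ v ∈ V with ∏ i, v i = b, Sb (∏ i, v i) ^ 2 =
        ((V.filter fun v => ∏ i, v i = b).card : ℝ) * Sb b ^ 2 := by
      rw [← nsmul_eq_mul, ← Finset.sum_const]
      apply Finset.sum_congr rfl
      intro v hv
      rw [(Finset.mem_filter.1 hv).2]
    rw [e1]
    apply mul_le_mul_of_nonneg_right _ (sq_nonneg _)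
    exact_mod_cast dual_fiber b Q fun q hq => (dual_prime hq).1
  -- the second moment
  have hBcard : B.card ≤ Z := by
    have : B ⊆ Finset.Icc 1 Z := by
      intro b hb
      rw [hB, Finset.mem_filter, Finset.mem_range] at hb
      rw [Finset.mem_Icc]
      have := hb.2.pos
      omega
    calc B.card ≤ (Finset.Icc 1 Z).card := Finset.card_le_card this
      _ = Z := by simp
  have h4 : ∑ b ∈ B, Sb b ^ 2 = ∑ x ∈ S ×ˢ S, ∑ b ∈ B, (jacobiSym (D x.1 * D x.2) b : ℝ) := by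
    rw [Finset.sum_comm]
    apply Finset.sum_congr rfl
    intro b _
    rw [sq, Finset.sum_mul_sum, ← Finset.sum_product']
    apply Finset.sum_congr rfl
    intro x _
    rw [jacobiSym.mul_left]
    push_cast
    rfl
  have h5 : ∀ x ∈ S ×ˢ S, ∑ b ∈ B, (jacobiSym (D x.1 * D x.2) b : ℝ) ≤
      (if IsSquare (D x.1 * D x.2) then 1 else 0) * (1024 * (U : ℝ) ^ 5) + 4 * (U : ℝ) ^ 4 := by
    intro x hx
    rw [Finset.mem_product] at hx
    split_ifs with hsq
    · have h6 : ∑ b ∈ B, (jacobiSym (D x.1 * D x.2) b : ℝ) ≤ ∑ b ∈ B, (1 : ℝ) := by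
        apply Finset.sum_le_sum
        intro b _
        rcases jacobiSym.trichotomy (D x.1 * D x.2) b with h | h | h <;> rw [h] <;> norm_num
      rw [Finset.sum_const, nsmul_eq_mul, mul_one] at h6
      have h7 : (B.card : ℝ) ≤ 1024 * (U : ℝ) ^ 5 := by
        have : (B.card : ℝ) ≤ (Z : ℝ) := by exact_mod_cast hBcard
        rw [hZ] at this
        push_cast at this
        exact this
      have h8 : (0 : ℝ) ≤ 4 * (U : ℝ) ^ 4 := by positivity
      linarith
    · have h4' : (D x.1 * D x.2) % 4 = 1 := by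
        rw [Int.mul_emod, hD4 _ hx.1, hD4 _ hx.2]
        rfl
      have h6 := jacobi_sum h4' hsq Z
      have h7 : |D x.1 * D x.2| ≤ (U : ℤ) ^ 4 := by
        rw [abs_mul]
        calc |D x.1| * |D x.2| ≤ (U : ℤ) ^ 2 * (U : ℤ) ^ 2 :=
              mul_le_mul (hDU _ hx.1) (hDU _ hx.2) (abs_nonneg _) (by positivity)
          _ = (U : ℤ) ^ 4 := by ring
      have h8 : ∑ b ∈ B, jacobiSym (D x.1 * D x.2) b ≤ 4 * (U : ℤ) ^ 4 := by
        have := (abs_le.1 h6).2
        linarith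
      have h9 : ∑ b ∈ B, (jacobiSym (D x.1 * D x.2) b : ℝ) ≤ 4 * (U : ℝ) ^ 4 := by
        exact_mod_cast h8
      linarith
  have h6 : ∑ b ∈ B, Sb b ^ 2 ≤
      (((S ×ˢ S).filter fun x => IsSquare (D x.1 * D x.2)).card : ℝ) * (1024 * (U : ℝ) ^ 5) +
          (S.card : ℝ) ^ 2 * (4 * (U : ℝ) ^ 4) := by
    rw [h4]
    calc _ ≤ ∑ x ∈ S ×ˢ S, ((if IsSquare (D x.1 * D x.2) then 1 else 0) *
          (1024 * (U : ℝ) ^ 5) + 4 * (U : ℝ) ^ 4) := Finset.sum_le_sum h5
      _ = _ := by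
          rw [Finset.sum_add_distrib, ← Finset.sum_mul, Finset.sum_boole, Finset.sum_const,
            Finset.card_product, nsmul_eq_mul]
          push_cast
          ring
  calc (S.card : ℝ) ^ 2 * ((Q.card : ℝ) / 3) ^ 10
      = ((S.card : ℝ) * ((Q.card : ℝ) / 3) ^ 5) ^ 2 := by ring
    _ ≤ (Q.card : ℝ) ^ 5 * ∑ v ∈ V, Sb (∏ i, v i) ^ 2 := h2
    _ ≤ (Q.card : ℝ) ^ 5 * (120 * ∑ b ∈ B, Sb b ^ 2) :=
        mul_le_mul_of_nonneg_left h3 (by positivity)
    _ ≤ (Q.card : ℝ) ^ 5 * (120 *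
        ((((S ×ˢ S).filter fun x => IsSquare (D x.1 * D x.2)).card : ℝ) * (1024 * (U : ℝ) ^ 5) +
          (S.card : ℝ) ^ 2 * (4 * (U : ℝ) ^ 4))) :=
        mul_le_mul_of_nonneg_left (mul_le_mul_of_nonneg_left h6 (by norm_num)) (by positivity)
    _ = _ := by ring

end Trib
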