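import Pool.Agent.Lib.MP_841d01_co.Defs2

namespace Trib

private theorem t7_ker {D' : ℤ} (hD' : D' ≠ 0) : ∃ D0 : ℤ, D0 ≠ 0 ∧
    ∀ D : ℤ, IsSquare (D * D') → ∃ e : ℕ, D = D0 * (e : ℤ) ^ 2 := by
  obtain ⟨a, b, hab, ha⟩ := Nat.sq_mul_squarefree D'.natAbs
  have hb : b ≠ 0 := by
    rintro rfl
    apply hD'
    rw [← Int.natAbs_eq_zero, ← hab]
    simp
  have ha0 : a ≠ 0 := ha.ne_zero
  have hs0 : D'.sign ≠ 0 := by
    rw [Ne, Int.sign_eq_zero_iff_zero]
    exact hD'
  have hss : D'.sign * D'.sign = 1 := by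
    rcases lt_or_gt_of_ne hD' with h | h
    · rw [Int.sign_eq_neg_one_of_neg h]; norm_num
    · rw [Int.sign_eq_one_of_pos h]; norm_num
  have haz : (a : ℤ) ≠ 0 := by exact_mod_cast ha0
  have hbz : (b : ℤ) ≠ 0 := by exact_mod_cast hb
  refine ⟨D'.sign * a, mul_ne_zero hs0 haz, fun D hD => ?_⟩
  obtain ⟨x, hx⟩ := hD
  have hD'e : D' = D'.sign * ((b : ℤ) ^ 2 * a) := by
    conv_lhs => rw [← Int.sign_mul_natAbs D']
    rw [← hab]
    push_cast
    ring
  have hbx : (b : ℤ) ∣ x := by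
    have h1 : (b : ℤ) ^ 2 ∣ x ^ 2 := by
      refine ⟨D * D'.sign * a, ?_⟩
      rw [sq x, ← hx]
      conv_lhs => rw [hD'e]
      ring
    exact (Int.pow_dvd_pow_iff two_ne_zero).1 h1
  obtain ⟨y, rfl⟩ := hbx
  have h2 : D * (D'.sign * a) = y ^ 2 := by
    have h3 : (b : ℤ) ^ 2 * (D * (D'.sign * a)) = (b : ℤ) ^ 2 * y ^ 2 := by
      have h4 : D * (D'.sign * ((b : ℤ) ^ 2 * a)) = b * y * (b * y) := by
        rw [← hD'e]
        exact hx
      calc (b : ℤ) ^ 2 * (D * (D'.sign * a)) = D * (D'.sign * ((b : ℤ) ^ 2 * a)) := by ring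
        _ = b * y * (b * y) := h4
        _ = _ := by ring
    exact mul_left_cancel₀ (pow_ne_zero 2 hbz) h3
  have hay : (a : ℤ) ∣ y := by
    have h5 : (a : ℤ) ∣ y ^ 2 := ⟨D * D'.sign, by rw [← h2]; ring⟩
    have hsq : Squarefree (a : ℤ) := Int.squarefree_natCast.2 ha
    exact (hsq.dvd_pow_iff_dvd two_ne_zero).1 h5
  obtain ⟨z, rfl⟩ := hay
  refine ⟨z.natAbs, ?_⟩
  rw [Int.natAbs_sq]
  have h6 : (a : ℤ) * (D * D'.sign) = (a : ℤ) * (a * z ^ 2) := by
    calc (a : ℤ) * (D * D'.sign) = D * (D'.sign * a) := by ring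
      _ = (a * z) ^ 2 := h2
      _ = _ := by ring
  have h7 := mul_left_cancel₀ haz h6
  calc D = D * (D'.sign * D'.sign) := by rw [hss, mul_one]
    _ = (D * D'.sign) * D'.sign := by ring
    _ = _ := by rw [h7]; ring

private theorem t7_pair {B : Finset ℕ} {U : ℕ} {D' : ℤ} (hD' : D' ≠ 0) {p p2 : ℕ}
    (hp : 16 * p ≤ U) (hp2 : 16 * p2 ≤ U) (hne : p ≠ p2) :
    (B.filter fun s => IsSquare (dd p s * D') ∧ IsSquare (dd p2 s * D')).card ≤ Nat.sqrt U := by
  obtain ⟨D0, hD0, hker⟩ := t7_ker hD'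
  have hE : ∀ s ∈ (B.filter fun s => IsSquare (dd p s * D') ∧ IsSquare (dd p2 s * D')),
      ∃ ef : ℕ × ℕ, dd p s = D0 * (ef.1 : ℤ) ^ 2 ∧ dd p2 s = D0 * (ef.2 : ℤ) ^ 2 := by
    intro s hs
    obtain ⟨-, h1, h2⟩ := Finset.mem_filter.1 hs
    obtain ⟨e, he⟩ := hker _ h1
    obtain ⟨f, hf⟩ := hker _ h2
    exact ⟨(e, f), he, hf⟩
  choose! ef h1 h2 using hE
  have hdiff : ∀ s ∈ (B.filter fun s => IsSquare (dd p s * D') ∧ IsSquare (dd p2 s * D')),
      D0 * ((((ef s).1 : ℤ) - (ef s).2) * (((ef s).1 : ℤ) + (ef s).2)) =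
        4 * ((p2 : ℤ) - p) := by
    intro s hs
    have a1 := h1 s hs
    have a2 := h2 s hs
    have : dd p s - dd p2 s = 4 * ((p2 : ℤ) - p) := by
      unfold dd
      ring
    rw [← this, a1, a2]
    ring
  have hM : (4 * ((p2 : ℤ) - p)) ≠ 0 := by
    intro h
    apply hne
    omega
  have hle : (B.filter fun s => IsSquare (dd p s * D') ∧ IsSquare (dd p2 s * D')).card ≤
      (Finset.Icc 1 (Nat.sqrt U)).card := by
    refine Finset.card_le_card_of_injOn (fun s => (((ef s).1 : ℤ) - (ef s).2).natAbs) ?_ ?_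
    · intro s hs
      have hs' := Finset.mem_coe.1 hs
      have hd := hdiff s hs'
      rw [Finset.coe_Icc, Set.mem_Icc]
      have hne0 : (((ef s).1 : ℤ) - (ef s).2) ≠ 0 := by
        intro h
        rw [h, zero_mul, mul_zero] at hd
        exact hM hd.symm
      refine ⟨Nat.one_le_iff_ne_zero.2 (Int.natAbs_ne_zero.2 hne0), ?_⟩
      rw [Nat.le_sqrt]
      have h3 : (D0 * ((((ef s).1 : ℤ) - (ef s).2) * (((ef s).1 : ℤ) + (ef s).2))).natAbs =
        (4 * ((p2 : ℤ) - p)).natAbs := by rw [hd]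
      rw [Int.natAbs_mul, Int.natAbs_mul] at h3
      have h4 : (((ef s).1 : ℤ) - (ef s).2).natAbs ≤ (((ef s).1 : ℤ) + (ef s).2).natAbs := by
        omega
      have h5 : 1 ≤ D0.natAbs := Nat.one_le_iff_ne_zero.2 (Int.natAbs_ne_zero.2 hD0)
      have h6 : (4 * ((p2 : ℤ) - p)).natAbs ≤ U := by omega
      dsimp only
      calc (((ef s).1 : ℤ) - (ef s).2).natAbs * (((ef s).1 : ℤ) - (ef s).2).natAbs
          ≤ (((ef s).1 : ℤ) - (ef s).2).natAbs * (((ef s).1 : ℤ) + (ef s).2).natAbs :=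
            Nat.mul_le_mul_left _ h4
        _ = 1 * ((((ef s).1 : ℤ) - (ef s).2).natAbs * (((ef s).1 : ℤ) + (ef s).2).natAbs) := by
            rw [one_mul]
        _ ≤ D0.natAbs * ((((ef s).1 : ℤ) - (ef s).2).natAbs *
            (((ef s).1 : ℤ) + (ef s).2).natAbs) := Nat.mul_le_mul_right _ h5
        _ ≤ U := by rw [h3]; exact h6
    · intro s hs s' hs' hss
      have hs1 := Finset.mem_coe.1 hs
      have hs1' := Finset.mem_coe.1 hs'
      have hd := hdiff s hs1
      have hd' := hdiff s' hs1'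
      dsimp only at hss
      have hmul : (((ef s).1 : ℤ) - (ef s).2) * (((ef s).1 : ℤ) + (ef s).2) =
          (((ef s').1 : ℤ) - (ef s').2) * (((ef s').1 : ℤ) + (ef s').2) :=
        mul_left_cancel₀ hD0 (hd.trans hd'.symm)
      have hne0 : (((ef s).1 : ℤ) - (ef s).2) ≠ 0 := by
        intro h
        rw [h, zero_mul, mul_zero] at hd
        exact hM hd.symm
      have hsum : (((ef s).1 : ℤ) + (ef s).2) ≠ 0 := by
        intro h
        rw [h, mul_zero, mul_zero] at hd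
        exact hM hd.symm
      have habs : (((ef s).1 : ℤ) - (ef s).2).natAbs * (((ef s).1 : ℤ) + (ef s).2).natAbs =
          (((ef s).1 : ℤ) - (ef s).2).natAbs * (((ef s').1 : ℤ) + (ef s').2).natAbs := by
        rw [← Int.natAbs_mul, hmul, Int.natAbs_mul, ← hss]
      have hsum' : (((ef s).1 : ℤ) + (ef s).2).natAbs = (((ef s').1 : ℤ) + (ef s').2).natAbs :=
        Nat.eq_of_mul_eq_mul_left (Nat.pos_of_ne_zero (Int.natAbs_ne_zero.2 hne0)) habs
      have hsum2 : (((ef s).1 : ℤ) + (ef s).2) = (((ef s').1 : ℤ) + (ef s').2) := by omega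
      have hdif2 : (((ef s).1 : ℤ) - (ef s).2) = (((ef s').1 : ℤ) - (ef s').2) := by
        rw [← hsum2] at hmul
        exact mul_right_cancel₀ hsum hmul
      have he : ((ef s).1 : ℤ) = (ef s').1 := by omega
      have hdd : dd p s = dd p s' := by
        rw [h1 s hs1, h1 s' hs1', he]
      unfold dd at hdd
      omega
  rw [Nat.card_Icc, Nat.add_sub_cancel] at hle
  exact hle

/-- T7 -/
theorem kst {A B : Finset ℕ} {U : ℕ} (hA : ∀ p ∈ A, 16 * p ≤ U) {D' : ℤ} (hD' : D' ≠ 0) :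
    ((A ×ˢ B).filter fun x => IsSquare (dd x.1 x.2 * D')).card ^ 2 ≤
      B.card * (((A ×ˢ B).filter fun x => IsSquare (dd x.1 x.2 * D')).card +
        A.card ^ 2 * Nat.sqrt U) := by
  have hcard : ((A ×ˢ B).filter fun x => IsSquare (dd x.1 x.2 * D')).card =
      ∑ s ∈ B, ∑ p ∈ A, (if IsSquare (dd p s * D') then 1 else 0) := by
    rw [Finset.card_filter, Finset.sum_product_right]
  have h1 : (∑ s ∈ B, ∑ p ∈ A, (if IsSquare (dd p s * D') then 1 else 0)) ^ 2 ≤
      B.card * ∑ s ∈ B, (∑ p ∈ A, (if IsSquare (dd p s * D') then 1 else 0)) ^ 2 :=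
    sq_sum_le_card_mul_sum_sq
  have h2 : ∑ s ∈ B, (∑ p ∈ A, (if IsSquare (dd p s * D') then 1 else 0)) ^ 2 =
      ∑ p ∈ A, ∑ p2 ∈ A,
        (B.filter fun s => IsSquare (dd p s * D') ∧ IsSquare (dd p2 s * D')).card := by
    simp_rw [sq, Finset.sum_mul_sum]
    rw [Finset.sum_comm]
    refine Finset.sum_congr rfl fun p _ => ?_
    rw [Finset.sum_comm]
    refine Finset.sum_congr rfl fun p2 _ => ?_
    rw [Finset.card_filter]
    refine Finset.sum_congr rfl fun s _ => ?_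
    by_cases a : IsSquare (dd p s * D') <;> by_cases b : IsSquare (dd p2 s * D') <;> simp [a, b]
  have h3 : ∀ p ∈ A, ∀ p2 ∈ A,
      (B.filter fun s => IsSquare (dd p s * D') ∧ IsSquare (dd p2 s * D')).card ≤
        (if p = p2 then (B.filter fun s => IsSquare (dd p s * D')).card else 0) +
          Nat.sqrt U := by
    intro p hp p2 hp2
    by_cases h : p = p2
    · subst h
      rw [if_pos rfl]
      refine le_trans (Finset.card_le_card ?_) (Nat.le_add_right _ _)
      intro s hs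
      obtain ⟨a1, a2, -⟩ := Finset.mem_filter.1 hs
      exact Finset.mem_filter.2 ⟨a1, a2⟩
    · rw [if_neg h, zero_add]
      exact t7_pair hD' (hA p hp) (hA p2 hp2) h
  have h4 : ∑ p ∈ A, ∑ p2 ∈ A,
      (B.filter fun s => IsSquare (dd p s * D') ∧ IsSquare (dd p2 s * D')).card ≤
      ∑ s ∈ B, ∑ p ∈ A, (if IsSquare (dd p s * D') then 1 else 0) +
        A.card ^ 2 * Nat.sqrt U := by
    calc ∑ p ∈ A, ∑ p2 ∈ A,
        (B.filter fun s => IsSquare (dd p s * D') ∧ IsSquare (dd p2 s * D')).card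
        ≤ ∑ p ∈ A, ∑ p2 ∈ A,
          ((if p = p2 then (B.filter fun s => IsSquare (dd p s * D')).card else 0) +
            Nat.sqrt U) :=
          Finset.sum_le_sum fun p hp => Finset.sum_le_sum fun p2 hp2 => h3 p hp p2 hp2
      _ = ∑ p ∈ A, ((B.filter fun s => IsSquare (dd p s * D')).card + A.card * Nat.sqrt U) := by
          refine Finset.sum_congr rfl fun p hp => ?_
          rw [Finset.sum_add_distrib, Finset.sum_ite_eq, if_pos hp, Finset.sum_const,
            smul_eq_mul]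
      _ = _ := by
          rw [Finset.sum_add_distrib, Finset.sum_const, smul_eq_mul, Finset.sum_comm, ← mul_assoc,
            sq]
          congr 1
          refine Finset.sum_congr rfl fun p _ => ?_
          rw [Finset.card_filter]
  rw [hcard]
  refine h1.trans (Nat.mul_le_mul_left _ ?_)
  rw [h2]
  exact h4

end Trib
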