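import Pool.Agent.Lib.MP_841d01_co.Cheb
import Pool.Agent.Lib.MP_841d01_co.Dual
import Pool.Agent.Lib.MP_841d01_co.Kst

namespace Trib

open Filter Asymptotics Topology

private theorem bad_log (k : ℝ) (n : ℕ) {δ : ℝ} (hδ : 0 < δ) :
    ∃ U₀ : ℕ, ∀ U : ℕ, U₀ ≤ U → k * Real.log U ^ n ≤ (U : ℝ) ^ δ := by
  have hk : 0 < 1 / (|k| + 1) := by positivity
  have h := (isLittleO_log_rpow_rpow_atTop (n : ℝ) hδ).bound hk
  have h2 := tendsto_natCast_atTop_atTop (R := ℝ) |>.eventually h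
  obtain ⟨U₀, hU⟩ := eventually_atTop.1 h2
  refine ⟨U₀, fun U hU1 => ?_⟩
  have h3 := hU U hU1
  rw [Real.rpow_natCast, Real.norm_eq_abs, Real.norm_eq_abs,
    abs_of_nonneg (Real.rpow_nonneg (Nat.cast_nonneg U) δ)] at h3
  have hpos : 0 < |k| + 1 := by positivity
  have h4 : (|k| + 1) * |Real.log U ^ n| ≤ (U : ℝ) ^ δ := by
    calc (|k| + 1) * |Real.log U ^ n| ≤ (|k| + 1) * (1 / (|k| + 1) * (U : ℝ) ^ δ) :=
          mul_le_mul_of_nonneg_left h3 hpos.le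
      _ = (U : ℝ) ^ δ := by field_simp
  calc k * Real.log U ^ n ≤ |k * Real.log U ^ n| := le_abs_self _
    _ = |k| * |Real.log U ^ n| := abs_mul _ _
    _ ≤ (|k| + 1) * |Real.log U ^ n| :=
        mul_le_mul_of_nonneg_right (by linarith) (abs_nonneg _)
    _ ≤ _ := h4

private theorem bad_ne {p s : ℕ} : dd p s ≠ 0 := by
  have := dd_emod p s
  intro h
  rw [h] at this
  norm_num at this

private theorem bad_abs {U p s : ℕ} (hU : 2 ≤ U) (hp : 16 * p ≤ U) (hs : 16 * s ≤ U ^ 2) :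
    |dd p s| ≤ (U : ℤ) ^ 2 := by
  have h1 : (16 : ℤ) * p ≤ U := by exact_mod_cast hp
  have h2 : (16 : ℤ) * s ≤ (U : ℤ) ^ 2 := by exact_mod_cast hs
  have h3 : (2 : ℤ) ≤ U := by exact_mod_cast hU
  have h4 : (0 : ℤ) ≤ p := Int.natCast_nonneg p
  have h5 : (0 : ℤ) ≤ s := Int.natCast_nonneg s
  unfold dd
  rw [abs_le]
  constructor <;> nlinarith

/-- the bound for the number of pairs with a square product -/
private theorem bad_deg {a b e q : ℝ} (ha : 0 ≤ a) (hb : 0 ≤ b) (hq : 0 ≤ q)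
    (h : e ^ 2 ≤ b * (e + a ^ 2 * q)) : e ≤ b + a * Real.sqrt (b * q) := by
  by_contra hcon
  push Not at hcon
  set w := Real.sqrt (b * q) with hw
  have hw0 : 0 ≤ w := Real.sqrt_nonneg _
  have hw2 : w * w = b * q := Real.mul_self_sqrt (by positivity)
  have h1 : 0 ≤ a * w := by positivity
  have h2 : a * w < e - b := by linarith
  have h3 : a * w < e := by linarith
  have h4 : (a * w) * (a * w) < (e - b) * e := by
    rcases h1.eq_or_lt with h0 | h0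
    · rw [← h0] at h2 h3 ⊢
      rw [mul_zero]
      exact mul_pos h2 h3
    · exact mul_lt_mul'' h2 h3 h1 h1
  nlinarith

/-- T8 -/
theorem bad_le : ∃ U₀ : ℕ, ∀ U : ℕ, U₀ ≤ U → ∀ A B : Finset ℕ, (∀ p ∈ A, 16 * p ≤ U) →
    (∀ s ∈ B, 16 * s ≤ U ^ 2) → (U : ℝ) ^ (1 / 5 : ℝ) ≤ (A.card : ℝ) →
    (U : ℝ) ^ (11 / 20 : ℝ) ≤ (B.card : ℝ) → 2 * (badP U A B).card ≤ A.card * B.card := by
  obtain ⟨c, hc, U₁, hU₁, hcard⟩ := card_QQ
  set K : ℝ := 245760 * 3 ^ 10 / c ^ 5 with hK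
  have hK0 : 0 < K := by positivity
  obtain ⟨V₁, hV₁⟩ := bad_log (4 * K) 5 (δ := 1 / 5) (by norm_num)
  obtain ⟨V₂, hV₂⟩ := bad_log (16 * K ^ 2) 10 (δ := 1 / 20) (by norm_num)
  obtain ⟨V₃, hV₃⟩ := bad_log (960 * 3 ^ 10 / c ^ 5) 5 (δ := 1) (by norm_num)
  obtain ⟨V₄, hV₄⟩ := bad_log (6 / c) 1 (δ := 1) (by norm_num)
  refine ⟨max (max U₁ V₁) (max V₂ (max V₃ V₄)), fun U hU A B hA hB hAc hBc => ?_⟩
  have u1 : U₁ ≤ U := (le_max_left _ _).trans ((le_max_left _ _).trans hU)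
  have v1 := hV₁ U ((le_max_right _ _).trans ((le_max_left _ _).trans hU))
  have hU2 : max V₂ (max V₃ V₄) ≤ U := (le_max_right _ _).trans hU
  have v2 := hV₂ U ((le_max_left _ _).trans hU2)
  have v3 := hV₃ U ((le_max_left _ _).trans ((le_max_right _ _).trans hU2))
  have v4 := hV₄ U ((le_max_right _ _).trans ((le_max_right _ _).trans hU2))
  rw [Real.rpow_one] at v3 v4
  have hNc := hcard U u1
  have hUge2 : 2 ≤ U := hU₁.trans u1
  have hUr : (2 : ℝ) ≤ U := by exact_mod_cast hUge2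
  have hU0 : (0 : ℝ) < U := by linarith
  set L : ℝ := Real.log U with hL
  have hL0 : 0 < L := Real.log_pos (by linarith)
  set N : ℝ := ((QQ U).card : ℝ) with hN
  have hN1 : c * U ≤ N * L := by rwa [div_le_iff₀ hL0] at hNc
  have hN6 : (6 : ℝ) ≤ N := by
    have h1 : 6 * L ≤ c * U := by
      rw [pow_one, div_mul_eq_mul_div, div_le_iff₀ hc] at v4
      linarith
    have h2 : 6 * L ≤ N * L := h1.trans hN1
    exact le_of_mul_le_mul_right h2 hL0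
  have hN6' : 6 ≤ (QQ U).card := by
    have h1 : ((6 : ℕ) : ℝ) ≤ ((QQ U).card : ℝ) := by
      rw [← hN]; exact_mod_cast hN6
    exact Nat.cast_le.1 h1
  have hN0 : 0 < N := by linarith
  -- the set of the bad pairs
  set S := badP U A B with hS
  have hSA : ∀ x ∈ S, x.1 ∈ A ∧ x.2 ∈ B ∧
      4 * ((QQ U).filter fun q => jacobiSym (dd x.1 x.2) q = 1).card < (QQ U).card := by
    intro x hx
    rw [hS, badP, Finset.mem_filter, Finset.mem_product] at hx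
    exact ⟨hx.1.1, hx.1.2, hx.2⟩
  have hdual := dual S (fun x => dd x.1 x.2) U hUge2 (fun x _ => dd_emod x.1 x.2)
    (fun x hx => bad_abs hUge2 (hA _ (hSA x hx).1) (hB _ (hSA x hx).2.1)) hN6'
    (fun x hx => (hSA x hx).2.2)
  set a : ℝ := (A.card : ℝ) with ha
  set b : ℝ := (B.card : ℝ) with hb
  set s : ℝ := (S.card : ℝ) with hs
  have ha0 : 0 ≤ a := Nat.cast_nonneg _
  have hb0 : 0 ≤ b := Nat.cast_nonneg _
  have hs0 : 0 ≤ s := Nat.cast_nonneg _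
  set E : ℝ := b + a * Real.sqrt (b * Real.sqrt U) with hE
  have hE0 : 0 ≤ E := by positivity
  have hR : (((S ×ˢ S).filter fun x : (ℕ × ℕ) × (ℕ × ℕ) =>
      IsSquare (dd x.1.1 x.1.2 * dd x.2.1 x.2.2)).card : ℝ) ≤ s * E := by
    have h1 : ((S ×ˢ S).filter fun x : (ℕ × ℕ) × (ℕ × ℕ) =>
        IsSquare (dd x.1.1 x.1.2 * dd x.2.1 x.2.2)).card =
        ∑ y ∈ S, (S.filter fun x => IsSquare (dd x.1 x.2 * dd y.1 y.2)).card := by
      rw [Finset.card_filter, Finset.sum_product_right]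
      refine Finset.sum_congr rfl fun y _ => ?_
      rw [Finset.card_filter]
    rw [h1]
    push_cast
    have h2 : ∀ y ∈ S, (((S.filter fun x => IsSquare (dd x.1 x.2 * dd y.1 y.2)).card : ℕ) : ℝ)
        ≤ E := by
      intro y _
      have h3 : (S.filter fun x => IsSquare (dd x.1 x.2 * dd y.1 y.2)).card ≤
          ((A ×ˢ B).filter fun x => IsSquare (dd x.1 x.2 * dd y.1 y.2)).card := by
        refine Finset.card_le_card (Finset.filter_subset_filter _ ?_)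
        intro x hx
        exact Finset.mem_product.2 ⟨(hSA x hx).1, (hSA x hx).2.1⟩
      have h4 := kst (A := A) (B := B) (U := U) hA (D' := dd y.1 y.2) bad_ne
      have h3' : (((S.filter fun x => IsSquare (dd x.1 x.2 * dd y.1 y.2)).card : ℕ) : ℝ) ≤
          ((((A ×ˢ B).filter fun x => IsSquare (dd x.1 x.2 * dd y.1 y.2)).card : ℕ) : ℝ) := by
        exact_mod_cast h3
      refine h3'.trans ?_
      have h4' : ((((A ×ˢ B).filter fun x => IsSquare (dd x.1 x.2 * dd y.1 y.2)).card : ℕ) : ℝ) ^ 2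
          ≤ b * (((((A ×ˢ B).filter fun x => IsSquare (dd x.1 x.2 * dd y.1 y.2)).card : ℕ) : ℝ) +
            a ^ 2 * ((Nat.sqrt U : ℕ) : ℝ)) := by
        rw [hb, ha]
        exact_mod_cast h4
      refine bad_deg ha0 hb0 (Real.sqrt_nonneg _) (h4'.trans ?_)
      have h5 : ((Nat.sqrt U : ℕ) : ℝ) ≤ Real.sqrt U := Real.nat_sqrt_le_real_sqrt
      gcongr
    calc ∑ y ∈ S, (((S.filter fun x => IsSquare (dd x.1 x.2 * dd y.1 y.2)).card : ℕ) : ℝ)
        ≤ ∑ _y ∈ S, E := Finset.sum_le_sum h2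
      _ = s * E := by rw [Finset.sum_const, nsmul_eq_mul]
  -- the main inequality
  have m1 : c ^ 5 * (U : ℝ) ^ 5 ≤ N ^ 5 * L ^ 5 := by
    rw [← mul_pow, ← mul_pow]
    exact pow_le_pow_left₀ (by positivity) hN1 5
  have m2 : 960 * 3 ^ 10 * (U : ℝ) ^ 4 ≤ N ^ 5 := by
    have h1 : 960 * 3 ^ 10 * L ^ 5 ≤ c ^ 5 * U := by
      rw [div_mul_eq_mul_div, div_le_iff₀ (by positivity)] at v3
      linarith
    have h2 : 960 * 3 ^ 10 * (U : ℝ) ^ 4 * L ^ 5 ≤ N ^ 5 * L ^ 5 := by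
      refine le_trans ?_ m1
      have := mul_le_mul_of_nonneg_left h1 (show (0:ℝ) ≤ (U : ℝ) ^ 4 by positivity)
      calc 960 * 3 ^ 10 * (U : ℝ) ^ 4 * L ^ 5 = (U : ℝ) ^ 4 * (960 * 3 ^ 10 * L ^ 5) := by ring
        _ ≤ (U : ℝ) ^ 4 * (c ^ 5 * U) := this
        _ = c ^ 5 * (U : ℝ) ^ 5 := by ring
    exact le_of_mul_le_mul_right h2 (by positivity)
  have m3 : s ≤ K * L ^ 5 * E := by
    rcases hs0.eq_or_lt with h0 | h0
    · rw [← h0]; positivity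
    have h1 : s ^ 2 * (N / 3) ^ 10 ≤ 120 * N ^ 5 * (s * E * (1024 * (U : ℝ) ^ 5) +
        s ^ 2 * (4 * (U : ℝ) ^ 4)) := by
      refine hdual.trans ?_
      gcongr
    have h2 : 120 * N ^ 5 * (s ^ 2 * (4 * (U : ℝ) ^ 4)) ≤ s ^ 2 * (N / 3) ^ 10 / 2 := by
      have e1 : s ^ 2 * (N / 3) ^ 10 / 2 = s ^ 2 * N ^ 5 * N ^ 5 / (2 * 3 ^ 10) := by ring
      rw [e1, le_div_iff₀ (by positivity)]
      calc 120 * N ^ 5 * (s ^ 2 * (4 * (U : ℝ) ^ 4)) * (2 * 3 ^ 10) =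
            s ^ 2 * N ^ 5 * (960 * 3 ^ 10 * (U : ℝ) ^ 4) := by ring
        _ ≤ s ^ 2 * N ^ 5 * N ^ 5 := mul_le_mul_of_nonneg_left m2 (by positivity)
    have h3 : s ^ 2 * (N / 3) ^ 10 / 2 ≤ 120 * N ^ 5 * (s * E * (1024 * (U : ℝ) ^ 5)) := by
      have e2 : 120 * N ^ 5 * (s * E * (1024 * (U : ℝ) ^ 5) + s ^ 2 * (4 * (U : ℝ) ^ 4)) =
        120 * N ^ 5 * (s * E * (1024 * (U : ℝ) ^ 5)) +
          120 * N ^ 5 * (s ^ 2 * (4 * (U : ℝ) ^ 4)) := by ring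
      rw [e2] at h1
      linarith
    have h4 : s * N ^ 5 ≤ 245760 * 3 ^ 10 * E * (U : ℝ) ^ 5 := by
      have e3 : s ^ 2 * (N / 3) ^ 10 / 2 = (s * N ^ 5) * (s * N ^ 5 / (2 * 3 ^ 10)) := by ring
      have e4 : 120 * N ^ 5 * (s * E * (1024 * (U : ℝ) ^ 5)) =
        (245760 * 3 ^ 10 * E * (U : ℝ) ^ 5) * (s * N ^ 5 / (2 * 3 ^ 10)) := by ring
      rw [e3, e4] at h3
      exact le_of_mul_le_mul_right h3 (by positivity)
    have h5 : s * N ^ 5 * c ^ 5 ≤ 245760 * 3 ^ 10 * E * (N ^ 5 * L ^ 5) := by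
      calc s * N ^ 5 * c ^ 5 ≤ 245760 * 3 ^ 10 * E * (U : ℝ) ^ 5 * c ^ 5 :=
            mul_le_mul_of_nonneg_right h4 (by positivity)
        _ = 245760 * 3 ^ 10 * E * (c ^ 5 * (U : ℝ) ^ 5) := by ring
        _ ≤ _ := mul_le_mul_of_nonneg_left m1 (by positivity)
    have h6 : s ≤ 245760 * 3 ^ 10 * E * L ^ 5 / c ^ 5 := by
      rw [le_div_iff₀ (by positivity)]
      have h7 : (s * c ^ 5) * N ^ 5 ≤ (245760 * 3 ^ 10 * E * L ^ 5) * N ^ 5 := by
        calc (s * c ^ 5) * N ^ 5 = s * N ^ 5 * c ^ 5 := by ring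
          _ ≤ _ := h5
          _ = _ := by ring
      exact le_of_mul_le_mul_right h7 (by positivity)
    refine h6.trans (le_of_eq ?_)
    rw [hK]; ring
  -- conclusion
  have n1 : K * L ^ 5 * b ≤ a * b / 4 := by
    have h1 : 4 * K * L ^ 5 ≤ a := v1.trans hAc
    have := mul_le_mul_of_nonneg_right h1 hb0
    linarith
  have n2 : 4 * K * L ^ 5 * Real.sqrt (b * Real.sqrt U) ≤ b := by
    have h1 : 0 ≤ 4 * K * L ^ 5 * Real.sqrt (b * Real.sqrt U) := by positivity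
    refine le_of_sq_le_sq ?_ hb0
    have e1 : (4 * K * L ^ 5 * Real.sqrt (b * Real.sqrt U)) ^ 2 =
        16 * K ^ 2 * L ^ 10 * (b * Real.sqrt U) := by
      rw [mul_pow, Real.sq_sqrt (by positivity)]; ring
    rw [e1]
    have h2 : 16 * K ^ 2 * L ^ 10 * Real.sqrt U ≤ b := by
      refine le_trans ?_ hBc
      calc 16 * K ^ 2 * L ^ 10 * Real.sqrt U ≤ (U : ℝ) ^ (1 / 20 : ℝ) * Real.sqrt U :=
            mul_le_mul_of_nonneg_right v2 (Real.sqrt_nonneg _)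
        _ = (U : ℝ) ^ (11 / 20 : ℝ) := by
            rw [Real.sqrt_eq_rpow, ← Real.rpow_add hU0]; norm_num
    calc 16 * K ^ 2 * L ^ 10 * (b * Real.sqrt U) = (16 * K ^ 2 * L ^ 10 * Real.sqrt U) * b := by ring
      _ ≤ b * b := mul_le_mul_of_nonneg_right h2 hb0
      _ = b ^ 2 := by ring
  have n3 : K * L ^ 5 * (a * Real.sqrt (b * Real.sqrt U)) ≤ a * b / 4 := by
    have := mul_le_mul_of_nonneg_left n2 ha0
    linarith
  have n4 : 2 * s ≤ a * b := by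
    have e : K * L ^ 5 * E = K * L ^ 5 * b + K * L ^ 5 * (a * Real.sqrt (b * Real.sqrt U)) := by
      rw [hE]; ring
    rw [e] at m3
    linarith
  rw [hs, ha, hb] at n4
  exact_mod_cast n4

end Trib
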