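import Pool.Agent.Lib.MP_841d01_co.Defs2

namespace Trib

private theorem cheb_theta_sub (U : ℕ) :
    Chebyshev.theta ((4 * U : ℕ) : ℝ) - Chebyshev.theta (U : ℝ) = ∑ q ∈ QQ U, Real.log q := by
  classical
  unfold Chebyshev.theta
  rw [Nat.floor_natCast, Nat.floor_natCast]
  have h1 : (Finset.Ioc 0 (4 * U)).filter Nat.Prime =
      (Finset.Ioc 0 U).filter Nat.Prime ∪ QQ U := by
    ext p
    unfold QQ
    simp only [Finset.mem_union, Finset.mem_filter, Finset.mem_Ioc]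
    constructor
    · rintro ⟨⟨h1, h2⟩, h3⟩
      rcases le_or_gt p U with h | h
      · exact Or.inl ⟨⟨h1, h⟩, h3⟩
      · exact Or.inr ⟨⟨h, h2⟩, h3⟩
    · rintro (⟨⟨h1, h2⟩, h3⟩ | ⟨⟨h1, h2⟩, h3⟩)
      · exact ⟨⟨h1, by omega⟩, h3⟩
      · exact ⟨⟨by omega, h2⟩, h3⟩
  have h2 : Disjoint ((Finset.Ioc 0 U).filter Nat.Prime) (QQ U) := by
    rw [Finset.disjoint_left]
    intro p hp hp'
    unfold QQ at hp'
    simp only [Finset.mem_filter, Finset.mem_Ioc] at hp hp'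
    omega
  rw [h1, Finset.sum_union h2, add_sub_cancel_left]

/-- T4 -/
theorem card_QQ : ∃ c : ℝ, 0 < c ∧ ∃ U₀ : ℕ, 2 ≤ U₀ ∧ ∀ U : ℕ, U₀ ≤ U →
    c * U / Real.log U ≤ ((QQ U).card : ℝ) := by
  have hl := (isLittleO_log_rpow_atTop (show (0 : ℝ) < 1 / 2 by norm_num)).bound
    (show (0 : ℝ) < 1 / 100 by norm_num)
  obtain ⟨x₀, hx₀⟩ := Filter.eventually_atTop.mp hl
  refine ⟨1 / 2, by norm_num, max 4 ⌈x₀⌉₊, le_trans (by norm_num) (le_max_left _ _), ?_⟩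
  intro U hU
  have hU4 : 4 ≤ U := le_trans (le_max_left _ _) hU
  have hUx : x₀ ≤ (U : ℝ) := le_trans (Nat.le_ceil x₀) (by exact_mod_cast le_trans (le_max_right _ _) hU)
  have hUr : (4 : ℝ) ≤ U := by exact_mod_cast hU4
  have hlogb : ∀ y : ℝ, (U : ℝ) ≤ y → Real.log y ≤ 1 / 100 * √y := by
    intro y hy
    have h1 := hx₀ y (hUx.trans hy)
    have hy1 : 1 ≤ y := by linarith
    rw [Real.norm_of_nonneg (Real.log_nonneg hy1), Real.norm_of_nonneg (by positivity),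
      ← Real.sqrt_eq_rpow] at h1
    exact h1
  have h1 := Chebyshev.theta_ge (4 * U)
  have h2 := Chebyshev.theta_le_log4_mul_x (x := (U : ℝ)) (by positivity)
  have h3 := cheb_theta_sub U
  have hlog4 : Real.log 4 = 2 * Real.log 2 := by
    rw [show (4 : ℝ) = 2 ^ 2 by norm_num, Real.log_pow]
    norm_num
  rw [hlog4] at h2
  have hlog2 : 0.6931 < Real.log 2 := by
    have := Real.log_two_gt_d9
    linarith
  have h4 : Real.log (((4 * U : ℕ) : ℝ) + 1) ≤ 1 / 100 * (4 * U + 1) := by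
    have e : (((4 * U : ℕ) : ℝ) + 1) = 4 * (U : ℝ) + 1 := by push_cast; ring
    rw [e]
    refine (hlogb _ (by linarith)).trans ?_
    have : √(4 * (U : ℝ) + 1) ≤ 4 * (U : ℝ) + 1 := by
      rw [Real.sqrt_le_left (by linarith)]
      nlinarith
    linarith
  have h5 : 2 * √((4 * U : ℕ) : ℝ) * Real.log ((4 * U : ℕ) : ℝ) ≤ 8 / 100 * U := by
    have e : (((4 * U : ℕ) : ℝ)) = 4 * (U : ℝ) := by push_cast; ring
    rw [e]
    have h6 := hlogb (4 * (U : ℝ)) (by linarith)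
    have h7 : 0 ≤ √(4 * (U : ℝ)) := Real.sqrt_nonneg _
    have h8 : √(4 * (U : ℝ)) * √(4 * (U : ℝ)) = 4 * (U : ℝ) := Real.mul_self_sqrt (by linarith)
    calc 2 * √(4 * (U : ℝ)) * Real.log (4 * (U : ℝ))
        ≤ 2 * √(4 * (U : ℝ)) * (1 / 100 * √(4 * (U : ℝ))) := by gcongr
      _ = 2 / 100 * (√(4 * (U : ℝ)) * √(4 * (U : ℝ))) := by ring
      _ = 8 / 100 * U := by rw [h8]; ring
  have h6 : (U : ℝ) ≤ ∑ q ∈ QQ U, Real.log q := by
    rw [← h3]
    have e : (((4 * U : ℕ) : ℝ)) * Real.log 2 = 4 * (U : ℝ) * Real.log 2 := by push_cast; ring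
    rw [e] at h1
    have h9 : 2 * (U : ℝ) * 0.6931 ≤ 2 * (U : ℝ) * Real.log 2 := by
      gcongr
    linarith
  have hlU : 0 < Real.log U := Real.log_pos (by linarith)
  have h7 : ∑ q ∈ QQ U, Real.log q ≤ (QQ U).card * (2 * Real.log U) := by
    rw [← nsmul_eq_mul]
    refine Finset.sum_le_card_nsmul _ _ _ fun q hq => ?_
    unfold QQ at hq
    rw [Finset.mem_filter, Finset.mem_Ioc] at hq
    have hq0 : (0 : ℝ) < q := by exact_mod_cast hq.2.pos
    have hq1 : (q : ℝ) ≤ 4 * U := by exact_mod_cast hq.1.2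
    calc Real.log q ≤ Real.log ((U : ℝ) ^ 2) := Real.log_le_log hq0 (by nlinarith)
      _ = 2 * Real.log U := by rw [Real.log_pow]; norm_num
  rw [div_le_iff₀ hlU]
  linarith

end Trib
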