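import Pool.Agent.Lib.MP_841d01_co.Count
import Pool.Agent.Lib.MP_841d01_co.Cheb

namespace Trib

open Filter

private theorem ev_log (K s : ℝ) (hK : 0 < K) (hs : 0 < s) :
    ∃ X₀ : ℕ, ∀ x : ℕ, X₀ ≤ x → K * Real.log x ^ 2 ≤ (x : ℝ) ^ s := by
  have h := isLittleO_log_rpow_rpow_atTop 2 hs
  have h1 := h.def (c := 1 / K) (by positivity)
  have h2 := tendsto_natCast_atTop_atTop (R := ℝ) |>.eventually h1
  obtain ⟨X₀, hX⟩ := eventually_atTop.1 h2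
  refine ⟨X₀, fun x hx => ?_⟩
  have h3 := hX x hx
  rw [Real.norm_eq_abs, Real.norm_eq_abs] at h3
  have h4 : |Real.log (x : ℝ) ^ (2 : ℝ)| = Real.log x ^ 2 := by
    rw [show (2 : ℝ) = ((2 : ℕ) : ℝ) by norm_num, Real.rpow_natCast]
    exact abs_of_nonneg (sq_nonneg _)
  have h5 : |(x : ℝ) ^ s| = (x : ℝ) ^ s := abs_of_nonneg (Real.rpow_nonneg (Nat.cast_nonneg x) s)
  rw [h4, h5] at h3
  calc K * Real.log x ^ 2 ≤ K * (1 / K * (x : ℝ) ^ s) := mul_le_mul_of_nonneg_left h3 hK.le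
    _ = (x : ℝ) ^ s := by field_simp

private theorem cnt_mono (b : Bool) {x y : ℕ} (h : x ≤ y) : cnt b x ≤ cnt b y := by
  classical
  unfold cnt
  refine Finset.card_le_card fun n hn => ?_
  have h1 := Finset.mem_filter.1 hn
  exact Finset.mem_filter.2 ⟨Finset.Icc_subset_Icc_right h h1.1, h1.2⟩

/-- diagonal triples -/
private theorem diag {U : ℕ} (hU : 20000 ≤ U) :
    (1 + cnt false (U / 16)) * (QQ U).card ≤
      3 * (Nat.log 2 U + 1) * cnt false (140000000 * U ^ 4) := by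
  classical
  set A : Finset ℕ := insert 0 ((Finset.Icc 1 (U / 16)).filter fun n => Win false n) with hA
  have hAc : A.card = 1 + cnt false (U / 16) := by
    rw [hA, Finset.card_insert_of_notMem (by simp)]
    unfold cnt
    rw [add_comm]
  have hAm : ∀ p ∈ A, Win false p ∧ 16 * p ≤ U := by
    intro p hp
    rw [hA, Finset.mem_insert, Finset.mem_filter, Finset.mem_Icc] at hp
    rcases hp with rfl | ⟨⟨_, h2⟩, h3⟩
    · exact ⟨Win.zero, by omega⟩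
    · exact ⟨h3, by omega⟩
  have h := count_le hU ((A ×ˢ QQ U).image fun t => (t.1, t.1, t.2)) (by
    intro t ht
    obtain ⟨a, ha, rfl⟩ := Finset.mem_image.1 ht
    rw [Finset.mem_product] at ha
    obtain ⟨h1, h2⟩ := hAm a.1 ha.1
    refine ⟨h1, h1, ha.2, h2, ?_, ?_⟩
    · have : U ≤ U ^ 2 := by nlinarith
      exact h2.trans this
    · have : dd a.1 a.1 = 1 := by
        unfold dd
        ring
      show jacobiSym (dd a.1 a.1) a.2 = 1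
      rw [this, jacobiSym.one_left])
  rw [Finset.card_image_of_injective, Finset.card_product, hAc] at h
  · exact h
  · rintro ⟨a, b⟩ ⟨a', b'⟩ hab
    simp only [Prod.mk.injEq] at hab ⊢
    exact ⟨hab.1, hab.2.2⟩

private theorem step : ∃ c : ℝ, 0 < c ∧ ∃ U₁ : ℕ, ∀ U : ℕ, U₁ ≤ U →
    c * U / Real.log U ^ 2 * (1 + cnt false (U / 16)) ≤ cnt false (140000000 * U ^ 4) := by
  obtain ⟨c, hc, U₀, hU₀, h⟩ := card_QQ
  refine ⟨c / 9, by positivity, max U₀ 20000, fun U hU => ?_⟩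
  have hU1 : U₀ ≤ U := (le_max_left _ _).trans hU
  have hU2 : 20000 ≤ U := (le_max_right _ _).trans hU
  have h1 := h U hU1
  have h2 := diag hU2
  have h2' : (1 + (cnt false (U / 16) : ℝ)) * ((QQ U).card : ℝ) ≤
      3 * ((Nat.log 2 U : ℝ) + 1) * (cnt false (140000000 * U ^ 4) : ℝ) := by
    exact_mod_cast h2
  have hUr : (20000 : ℝ) ≤ U := by exact_mod_cast hU2
  have hlog1 : 1 ≤ Real.log U := by
    rw [Real.le_log_iff_exp_le (by linarith)]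
    have := Real.exp_one_lt_d9
    linarith
  have hlog2 : (Nat.log 2 U : ℝ) ≤ Real.log U / Real.log 2 := by
    have := Real.natLog_le_logb U 2
    unfold Real.logb at this
    exact_mod_cast this
  have hl2 : 0.6931471803 < Real.log 2 := Real.log_two_gt_d9
  have hlog3 : (Nat.log 2 U : ℝ) + 1 ≤ 3 * Real.log U := by
    have h3 : Real.log U / Real.log 2 ≤ 2 * Real.log U := by
      rw [div_le_iff₀ (by linarith)]
      nlinarith
    linarith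
  set N : ℝ := (cnt false (140000000 * U ^ 4) : ℝ) with hN
  have hN0 : 0 ≤ N := Nat.cast_nonneg _
  set B : ℝ := 1 + (cnt false (U / 16) : ℝ) with hB
  have hB0 : 0 ≤ B := by
    have : (0 : ℝ) ≤ (cnt false (U / 16) : ℝ) := Nat.cast_nonneg _
    linarith
  have hlp : 0 < Real.log U := by linarith
  have h4 : B * (c * U / Real.log U) ≤ 9 * Real.log U * N := by
    calc B * (c * U / Real.log U) ≤ B * ((QQ U).card : ℝ) := mul_le_mul_of_nonneg_left h1 hB0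
      _ ≤ 3 * ((Nat.log 2 U : ℝ) + 1) * N := h2'
      _ ≤ 9 * Real.log U * N := by
          apply mul_le_mul_of_nonneg_right _ hN0
          linarith
  have h5 : c / 9 * U / Real.log U ^ 2 * B = B * (c * U / Real.log U) / (9 * Real.log U) := by
    field_simp
  rw [h5, div_le_iff₀ (by positivity)]
  linarith

private theorem root : ∃ X₀ : ℕ, ∀ x : ℕ, X₀ ≤ x → ∃ U : ℕ, 140000000 * U ^ 4 ≤ x ∧
    (x : ℝ) ^ (1 / 4 : ℝ) / 220 ≤ U ∧ U ≤ x ∧ 1 ≤ x := by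
  refine ⟨220 ^ 4, fun x hx => ?_⟩
  have hx' : ((220 : ℝ) ^ (4 : ℕ)) ≤ (x : ℝ) := by exact_mod_cast hx
  have hx0 : (0 : ℝ) ≤ x := Nat.cast_nonneg x
  set y : ℝ := (x : ℝ) ^ (1 / 4 : ℝ) with hy
  have hy0 : 0 ≤ y := Real.rpow_nonneg hx0 _
  have hy4 : y ^ 4 = x := by
    rw [hy, ← Real.rpow_natCast, ← Real.rpow_mul hx0]
    norm_num
  have hy220 : 220 ≤ y := by
    by_contra hlt
    push Not at hlt
    have : y ^ 4 < 220 ^ 4 := pow_lt_pow_left₀ hlt hy0 (by norm_num)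
    rw [hy4] at this
    linarith
  have hf1 : ((⌊y / 110⌋₊ : ℕ) : ℝ) ≤ y / 110 := Nat.floor_le (by positivity)
  have hf2 : y / 110 < (⌊y / 110⌋₊ : ℕ) + 1 := Nat.lt_floor_add_one _
  set U : ℕ := ⌊y / 110⌋₊ with hU
  have hU0 : (0 : ℝ) ≤ U := Nat.cast_nonneg U
  have h4 : (U : ℝ) ^ 4 ≤ (y / 110) ^ 4 := pow_le_pow_left₀ hU0 hf1 4
  have h5 : (y / 110) ^ 4 = x / 146410000 := by
    rw [div_pow, hy4]
    norm_num
  have h6 : (140000000 : ℝ) * (U : ℝ) ^ 4 ≤ x := by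
    rw [h5] at h4
    linarith
  have h7 : 140000000 * U ^ 4 ≤ x := by exact_mod_cast h6
  refine ⟨U, h7, ?_, ?_, ?_⟩
  · linarith
  · have : U ≤ U ^ 4 := Nat.le_self_pow (by norm_num) U
    omega
  · exact le_trans (by norm_num) hx

private theorem step' : ∃ c : ℝ, 0 < c ∧ ∀ V : ℕ, ∃ X₁ : ℕ, ∀ x : ℕ, X₁ ≤ x → ∃ U : ℕ,
    V ≤ U ∧ (x : ℝ) ^ (1 / 4 : ℝ) / 220 ≤ U ∧ 1 ≤ x ∧ 0 < Real.log x ∧
    c * (x : ℝ) ^ (1 / 4 : ℝ) / Real.log x ^ 2 * (1 + cnt false (U / 16)) ≤ cnt false x := by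
  obtain ⟨c, hc, U₁, h⟩ := step
  obtain ⟨X₀, h0⟩ := root
  refine ⟨c / 220, by positivity, fun V => ?_⟩
  obtain ⟨W, hWd⟩ : ∃ W : ℕ, W = U₁ + V + 3 := ⟨_, rfl⟩
  refine ⟨max X₀ ((220 * W) ^ 4), fun x hx => ?_⟩
  have hx1 : X₀ ≤ x := (le_max_left _ _).trans hx
  have hx2 : (220 * W) ^ 4 ≤ x := (le_max_right _ _).trans hx
  obtain ⟨U, hU1, hU2, hU3, hU4⟩ := h0 x hx1
  have hx0 : (0 : ℝ) ≤ x := Nat.cast_nonneg x
  have hW : W ≤ U := by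
    have h1 : (220 * (W : ℝ)) ≤ (x : ℝ) ^ (1 / 4 : ℝ) := by
      have h2 : (220 * (W : ℝ)) ^ 4 ≤ (x : ℝ) := by exact_mod_cast hx2
      have h3 : ((220 * (W : ℝ)) ^ 4) ^ (1 / 4 : ℝ) ≤
          (x : ℝ) ^ (1 / 4 : ℝ) := Real.rpow_le_rpow (by positivity) h2 (by norm_num)
      have h4 : ((220 * (W : ℝ)) ^ 4) ^ (1 / 4 : ℝ) = 220 * (W : ℝ) := by
        rw [← Real.rpow_natCast, ← Real.rpow_mul (by positivity)]
        norm_num
      rwa [h4] at h3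
    have h2 : (W : ℝ) ≤ U := by
      linarith
    exact_mod_cast h2
  have hWU : U₁ ≤ U := by omega
  have hWV : V ≤ U := by omega
  have hW3 : 3 ≤ U := by omega
  have hU3' : (U : ℝ) ≤ x := by exact_mod_cast hU3
  have hUr : (3 : ℝ) ≤ U := by exact_mod_cast hW3
  have hlU : 0 < Real.log U := Real.log_pos (by linarith)
  have hll : Real.log U ≤ Real.log x := Real.log_le_log (by linarith) hU3'
  refine ⟨U, hWV, hU2, hU4, lt_of_lt_of_le hlU hll, ?_⟩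
  have hB0 : (0 : ℝ) ≤ 1 + (cnt false (U / 16) : ℝ) := by positivity
  calc c / 220 * (x : ℝ) ^ (1 / 4 : ℝ) / Real.log x ^ 2 * (1 + (cnt false (U / 16) : ℝ))
      ≤ c * U / Real.log U ^ 2 * (1 + (cnt false (U / 16) : ℝ)) := by
        apply mul_le_mul_of_nonneg_right _ hB0
        apply div_le_div₀ (by positivity) _ (by positivity)
        · exact pow_le_pow_left₀ hlU.le hll 2
        · have : c / 220 * (x : ℝ) ^ (1 / 4 : ℝ) = c * ((x : ℝ) ^ (1 / 4 : ℝ) / 220) := by ring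
          rw [this]
          exact mul_le_mul_of_nonneg_left hU2 hc.le
    _ ≤ (cnt false (140000000 * U ^ 4) : ℝ) := h U hWU
    _ ≤ (cnt false x : ℝ) := by exact_mod_cast cnt_mono false hU1

/-- T9 -/
theorem base : ∃ X₀ : ℕ, ∀ x : ℕ, X₀ ≤ x → (x : ℝ) ^ (3 / 10 : ℝ) ≤ (cnt false x : ℝ) := by
  obtain ⟨c, hc, hs⟩ := step'
  -- step 1
  have s1 : ∃ X₁ : ℕ, ∀ x : ℕ, X₁ ≤ x → (x : ℝ) ^ (6 / 25 : ℝ) ≤ (cnt false x : ℝ) := by
    obtain ⟨X₁, h1⟩ := hs 0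
    obtain ⟨X₂, h2⟩ := ev_log (1 / c) (1 / 100) (by positivity) (by norm_num)
    refine ⟨max X₁ X₂, fun x hx => ?_⟩
    obtain ⟨U, _, _, hx1, hl, h3⟩ := h1 x ((le_max_left _ _).trans hx)
    have h4 := h2 x ((le_max_right _ _).trans hx)
    have hx0 : (0 : ℝ) < x := by exact_mod_cast hx1
    refine le_trans ?_ h3
    have h5 : (x : ℝ) ^ (1 / 4 : ℝ) = (x : ℝ) ^ (6 / 25 : ℝ) * (x : ℝ) ^ (1 / 100 : ℝ) := by
      rw [← Real.rpow_add hx0]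
      norm_num
    have h6 : (x : ℝ) ^ (6 / 25 : ℝ) ≤ c * (x : ℝ) ^ (1 / 4 : ℝ) / Real.log x ^ 2 := by
      rw [le_div_iff₀ (by positivity), h5]
      have h7 : Real.log x ^ 2 ≤ c * (x : ℝ) ^ (1 / 100 : ℝ) := by
        calc Real.log x ^ 2 = c * (1 / c * Real.log x ^ 2) := by field_simp
          _ ≤ c * (x : ℝ) ^ (1 / 100 : ℝ) := mul_le_mul_of_nonneg_left h4 hc.le
      have h8 : 0 ≤ (x : ℝ) ^ (6 / 25 : ℝ) := Real.rpow_nonneg hx0.le _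
      calc (x : ℝ) ^ (6 / 25 : ℝ) * Real.log x ^ 2
          ≤ (x : ℝ) ^ (6 / 25 : ℝ) * (c * (x : ℝ) ^ (1 / 100 : ℝ)) :=
            mul_le_mul_of_nonneg_left h7 h8
        _ = c * ((x : ℝ) ^ (6 / 25 : ℝ) * (x : ℝ) ^ (1 / 100 : ℝ)) := by ring
    have h9 : 0 ≤ c * (x : ℝ) ^ (1 / 4 : ℝ) / Real.log x ^ 2 := by positivity
    have h10 : (0 : ℝ) ≤ (cnt false (U / 16) : ℝ) := Nat.cast_nonneg _
    calc (x : ℝ) ^ (6 / 25 : ℝ) ≤ c * (x : ℝ) ^ (1 / 4 : ℝ) / Real.log x ^ 2 := h6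
      _ ≤ c * (x : ℝ) ^ (1 / 4 : ℝ) / Real.log x ^ 2 * (1 + cnt false (U / 16)) := by
          nlinarith
  obtain ⟨X₁, s1⟩ := s1
  obtain ⟨X₂, h2⟩ := ev_log (3740 / c) (1 / 100) (by positivity) (by norm_num)
  obtain ⟨X₃, h3⟩ := hs (max (17 * X₁ + 17) 300)
  refine ⟨max X₂ X₃, fun x hx => ?_⟩
  obtain ⟨U, hU1, hU2, hx1, hl, h4⟩ := h3 x ((le_max_right _ _).trans hx)
  have h5 := h2 x ((le_max_left _ _).trans hx)
  have hx0 : (0 : ℝ) < x := by exact_mod_cast hx1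
  have hU3 : 17 * X₁ + 17 ≤ U := (le_max_left _ _).trans hU1
  have hU4 : 300 ≤ U := (le_max_right _ _).trans hU1
  have h6 := s1 (U / 16) (by omega)
  have h7 : (U : ℝ) / 17 ≤ ((U / 16 : ℕ) : ℝ) := by
    have h8 : U ≤ 17 * (U / 16) := by omega
    have h9 : (U : ℝ) ≤ 17 * ((U / 16 : ℕ) : ℝ) := by exact_mod_cast h8
    linarith
  have h8 : (x : ℝ) ^ (1 / 4 : ℝ) / 3740 ≤ ((U / 16 : ℕ) : ℝ) := by
    have : (x : ℝ) ^ (1 / 4 : ℝ) / 3740 = (x : ℝ) ^ (1 / 4 : ℝ) / 220 / 17 := by ring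
    rw [this]
    linarith
  have hy0 : 0 ≤ (x : ℝ) ^ (1 / 4 : ℝ) := Real.rpow_nonneg hx0.le _
  have h9 : ((x : ℝ) ^ (1 / 4 : ℝ) / 3740) ^ (6 / 25 : ℝ) ≤ (cnt false (U / 16) : ℝ) :=
    (Real.rpow_le_rpow (by positivity) h8 (by norm_num)).trans h6
  have h10 : (x : ℝ) ^ (3 / 50 : ℝ) / 3740 ≤ ((x : ℝ) ^ (1 / 4 : ℝ) / 3740) ^ (6 / 25 : ℝ) := by
    rw [Real.div_rpow hy0 (by norm_num), ← Real.rpow_mul hx0.le,
      show (1 / 4 : ℝ) * (6 / 25) = 3 / 50 by norm_num]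
    apply div_le_div_of_nonneg_left (Real.rpow_nonneg hx0.le _) (by positivity)
    calc (3740 : ℝ) ^ (6 / 25 : ℝ) ≤ (3740 : ℝ) ^ (1 : ℝ) :=
          Real.rpow_le_rpow_of_exponent_le (by norm_num) (by norm_num)
      _ = 3740 := Real.rpow_one _
  refine le_trans ?_ h4
  have h11 : 0 ≤ c * (x : ℝ) ^ (1 / 4 : ℝ) / Real.log x ^ 2 := by positivity
  have h12 : (x : ℝ) ^ (3 / 50 : ℝ) / 3740 ≤ 1 + (cnt false (U / 16) : ℝ) := by linarith
  refine le_trans ?_ (mul_le_mul_of_nonneg_left h12 h11)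
  have h13 : c * (x : ℝ) ^ (1 / 4 : ℝ) / Real.log x ^ 2 * ((x : ℝ) ^ (3 / 50 : ℝ) / 3740) =
      (c / 3740) * ((x : ℝ) ^ (1 / 4 : ℝ) * (x : ℝ) ^ (3 / 50 : ℝ)) / Real.log x ^ 2 := by ring
  have h14 : (x : ℝ) ^ (1 / 4 : ℝ) * (x : ℝ) ^ (3 / 50 : ℝ) =
      (x : ℝ) ^ (3 / 10 : ℝ) * (x : ℝ) ^ (1 / 100 : ℝ) := by
    rw [← Real.rpow_add hx0, ← Real.rpow_add hx0]
    norm_num
  rw [h13, h14, le_div_iff₀ (by positivity)]
  have h15 : Real.log x ^ 2 ≤ c / 3740 * (x : ℝ) ^ (1 / 100 : ℝ) := by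
    calc Real.log x ^ 2 = c / 3740 * (3740 / c * Real.log x ^ 2) := by field_simp
      _ ≤ c / 3740 * (x : ℝ) ^ (1 / 100 : ℝ) := mul_le_mul_of_nonneg_left h5 (by positivity)
  have h16 : 0 ≤ (x : ℝ) ^ (3 / 10 : ℝ) := Real.rpow_nonneg hx0.le _
  calc (x : ℝ) ^ (3 / 10 : ℝ) * Real.log x ^ 2
      ≤ (x : ℝ) ^ (3 / 10 : ℝ) * (c / 3740 * (x : ℝ) ^ (1 / 100 : ℝ)) :=
        mul_le_mul_of_nonneg_left h15 h16
    _ = c / 3740 * ((x : ℝ) ^ (3 / 10 : ℝ) * (x : ℝ) ^ (1 / 100 : ℝ)) := by ring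

end Trib
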