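import Pool.Agent.Lib.MP_841d01_co.Defs2

namespace Trib

/-- the start of the Pell iteration -/
private theorem construct_start {U p s q : ℕ} (hU : 20000 ≤ U) (hq : q.Prime) (hq1 : U < q)
    (hp : 16 * p ≤ U) (hs : 16 * s ≤ U ^ 2) (hz : ∃ z : ℤ, (q : ℤ) ∣ z ^ 2 - dd p s) :
    ∃ (u K : ℕ), Odd K ∧ 2 * q ≤ K ∧ K < 4 * q ∧ (K : ℤ) ^ 2 - dd p s = 4 * q * u ∧
      3 * q ≤ 4 * u ∧ 4 * u ≤ 17 * q := by
  obtain ⟨z, hz⟩ := hz
  have hqo : Odd q := hq.odd_of_ne_two (by omega)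
  obtain ⟨b, hb⟩ := hqo
  have hq0 : (0 : ℤ) < q := by exact_mod_cast hq.pos
  have ht0 := Int.emod_nonneg z hq0.ne'
  have ht1 := Int.emod_lt_of_pos z hq0
  have ht2 := Int.mul_ediv_add_emod z q
  -- an odd representative
  obtain ⟨K, hKo, hK1, hK2, hKz⟩ : ∃ K : ℤ, Odd K ∧ 2 * (q : ℤ) ≤ K ∧ K < 4 * q ∧
      (q : ℤ) ∣ K - z := by
    rcases Int.even_or_odd (z % q) with he | ho
    · refine ⟨2 * q + (z % q + q), ?_, by linarith, by linarith, ?_⟩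
      · obtain ⟨c, hc⟩ := he
        refine ⟨q + c + b, ?_⟩
        rw [hc, hb]
        push_cast
        ring
      · refine ⟨3 - z / q, ?_⟩
        linear_combination ht2
    · refine ⟨2 * q + z % q, ?_, by linarith, by linarith, ?_⟩
      · obtain ⟨c, hc⟩ := ho
        refine ⟨q + c, ?_⟩
        rw [hc]
        ring
      · refine ⟨2 - z / q, ?_⟩
        linear_combination ht2
  obtain ⟨a, ha⟩ := hKo
  set Y : ℤ := a ^ 2 + a - s + p with hY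
  have hKY : K ^ 2 - dd p s = 4 * Y := by
    rw [hY, ha]
    unfold dd
    ring
  have hdvd : (q : ℤ) ∣ 4 * Y := by
    rw [← hKY]
    have h1 : K ^ 2 - dd p s = (K - z) * (K + z) + (z ^ 2 - dd p s) := by ring
    rw [h1]
    exact dvd_add (Dvd.dvd.mul_right hKz _) hz
  have hcop : IsCoprime (q : ℤ) 4 := by
    rw [Int.isCoprime_iff_gcd_eq_one]
    have h1 : Nat.Coprime q 4 := by
      have h2 : Nat.Coprime q 2 := (Nat.coprime_primes hq Nat.prime_two).2 (by omega)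
      exact Nat.Coprime.pow_right 2 h2
    exact h1
  have hdvd2 : (q : ℤ) ∣ Y := hcop.dvd_of_dvd_mul_left hdvd
  obtain ⟨u, hu⟩ := hdvd2
  have hU' : (20000 : ℤ) ≤ U := by exact_mod_cast hU
  have hq1' : (U : ℤ) + 1 ≤ q := by exact_mod_cast hq1
  have hp' : 16 * (p : ℤ) ≤ U := by exact_mod_cast hp
  have hs' : 16 * (s : ℤ) ≤ (U : ℤ) ^ 2 := by exact_mod_cast hs
  have hp0 : (0 : ℤ) ≤ p := Nat.cast_nonneg p
  have hs0 : (0 : ℤ) ≤ s := Nat.cast_nonneg s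
  have hUq2 : ((U : ℤ) + 1) ^ 2 ≤ (q : ℤ) ^ 2 := pow_le_pow_left₀ (by linarith) hq1' 2
  have hD1 : dd p s ≤ (q : ℤ) ^ 2 := by
    unfold dd
    nlinarith only [hUq2, hs', hp0, hU']
  have hD2 : -(q : ℤ) ^ 2 ≤ dd p s := by
    unfold dd
    nlinarith only [hUq2, hp', hs0, hU']
  have hKu : K ^ 2 - dd p s = 4 * q * u := by
    rw [hKY, hu]
    ring
  have hu1 : 3 * (q : ℤ) ≤ 4 * u := by
    by_contra hcon
    push Not at hcon
    have h1 : (2 * (q : ℤ)) ^ 2 ≤ K ^ 2 := pow_le_pow_left₀ (by positivity) hK1 2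
    nlinarith only [h1, hKu, hD1, hcon, hq0]
  have hu2 : 4 * u ≤ 17 * (q : ℤ) := by
    by_contra hcon
    push Not at hcon
    have h1 : K ^ 2 ≤ (4 * (q : ℤ)) ^ 2 := pow_le_pow_left₀ (by linarith) hK2.le 2
    nlinarith only [h1, hKu, hD2, hcon, hq0]
  have hK0 : 0 ≤ K := by linarith
  have hu0 : 0 ≤ u := by linarith
  lift K to ℕ using hK0
  lift u to ℕ using hu0
  refine ⟨u, K, ?_, by exact_mod_cast hK1, by exact_mod_cast hK2, hKu, by exact_mod_cast hu1,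
    by exact_mod_cast hu2⟩
  have h1 : Odd (K : ℤ) := ⟨a, ha⟩
  exact_mod_cast h1

/-- the invariant of the Pell iteration -/
private def CInv (c : ℤ) (v : ℕ × ℕ) : Prop :=
  Odd v.1 ∧ Odd v.2 ∧ (v.1 : ℤ) ^ 2 - 2 * (v.2 : ℤ) ^ 2 = c ∧ v.2 ≤ v.1 ∧ v.1 ≤ 5 * v.2

private theorem CInv.pell {c : ℤ} {v : ℕ × ℕ} (h : CInv c v) : CInv c (pell v) := by
  obtain ⟨h1, h2, h3, h4, h5⟩ := h
  obtain ⟨a, ha⟩ := h1
  obtain ⟨b, hb⟩ := h2
  unfold Trib.pell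
  refine ⟨⟨3 * a + 2 * v.2 + 1, ?_⟩, ⟨v.1 + 3 * b + 1, ?_⟩, ?_, ?_, ?_⟩
  · change 3 * v.1 + 4 * v.2 = _
    omega
  · change 2 * v.1 + 3 * v.2 = _
    omega
  · change (((3 * v.1 + 4 * v.2 : ℕ) : ℤ)) ^ 2 - 2 * (((2 * v.1 + 3 * v.2 : ℕ) : ℤ)) ^ 2 = c
    push_cast
    rw [← h3]
    ring
  · change 2 * v.1 + 3 * v.2 ≤ 3 * v.1 + 4 * v.2
    omega
  · change 3 * v.1 + 4 * v.2 ≤ 5 * (2 * v.1 + 3 * v.2)
    omega

private theorem CInv.iter {c : ℤ} {v : ℕ × ℕ} (h : CInv c v) (i : ℕ) :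
    CInv c (Trib.pell^[i] v) := by
  induction i with
  | zero => exact h
  | succ i ih =>
    rw [Function.iterate_succ_apply']
    exact ih.pell

private theorem pell_growth {v : ℕ × ℕ} (h : 1 ≤ v.2) (i : ℕ) : 3 ^ i ≤ (pell^[i] v).2 := by
  induction i with
  | zero => simpa using h
  | succ i ih =>
    rw [Function.iterate_succ_apply']
    change 3 ^ (i + 1) ≤ 2 * (pell^[i] v).1 + 3 * (pell^[i] v).2
    rw [pow_succ]
    omega

/-- T2 -/
theorem construct {U p s q : ℕ} (hU : 20000 ≤ U) (hq : q ∈ QQ U) (hp : 16 * p ≤ U)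
    (hs : 16 * s ≤ U ^ 2) (hz : ∃ z : ℤ, (q : ℤ) ∣ z ^ 2 - dd p s) :
    ∃ i n, Rep U i p s q n := by
  classical
  unfold QQ at hq
  rw [Finset.mem_filter, Finset.mem_Ioc] at hq
  obtain ⟨⟨hq1, hq2⟩, hqp⟩ := hq
  obtain ⟨u, K, hKo, hK1, hK2, hKu, hu1, hu2⟩ := construct_start hU hqp hq1 hp hs hz
  have hqo : Odd q := hqp.odd_of_ne_two (by omega)
  obtain ⟨b, hb⟩ := hqo
  -- `J = 2 j + 1 = 2 u - q`
  obtain ⟨j, hj⟩ : ∃ j : ℕ, 2 * j + 1 + q = 2 * u := ⟨u - b - 1, by omega⟩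
  set J : ℕ := 2 * j + 1 with hJ
  have hJ1 : q ≤ 2 * J := by omega
  have hJ2 : 2 * J ≤ 15 * q := by omega
  set D : ℤ := dd p s with hD
  have hUq : (U : ℤ) + 1 ≤ q := by exact_mod_cast hq1
  have hU' : (20000 : ℤ) ≤ U := by exact_mod_cast hU
  have hp' : 16 * (p : ℤ) ≤ U := by exact_mod_cast hp
  have hs' : 16 * (s : ℤ) ≤ (U : ℤ) ^ 2 := by exact_mod_cast hs
  have hp0 : (0 : ℤ) ≤ p := Nat.cast_nonneg p
  have hs0 : (0 : ℤ) ≤ s := Nat.cast_nonneg s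
  have hUq2 : ((U : ℤ) + 1) ^ 2 ≤ (q : ℤ) ^ 2 := pow_le_pow_left₀ (by linarith) hUq 2
  have hD1 : D ≤ (q : ℤ) ^ 2 := by
    rw [hD]
    unfold dd
    nlinarith only [hUq2, hs', hp0, hU']
  have hju : (J : ℤ) + q = 2 * u := by exact_mod_cast hj
  have hK1' : 2 * (q : ℤ) ≤ K := by exact_mod_cast hK1
  -- the invariant at the start
  have hinv0 : CInv ((J : ℤ) ^ 2 - 2 * D) (J + 2 * q, K) := by
    have h3 : (((J + 2 * q : ℕ) : ℤ)) ^ 2 - 2 * (K : ℤ) ^ 2 = (J : ℤ) ^ 2 - 2 * D := by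
      push_cast
      have h4 : (u : ℤ) = ((J : ℤ) + q) / 2 := by omega
      linear_combination (-2) * hKu + (4 * (q : ℤ)) * hju
    refine ⟨⟨j + q, by change J + 2 * q = _; omega⟩, hKo, h3, ?_, ?_⟩
    · change K ≤ J + 2 * q
      by_contra hcon
      push Not at hcon
      have h5 : ((J + 2 * q : ℕ) : ℤ) ^ 2 < (K : ℤ) ^ 2 := by
        have : ((J + 2 * q : ℕ) : ℤ) < K := by exact_mod_cast hcon
        have h0 : (0 : ℤ) ≤ ((J + 2 * q : ℕ) : ℤ) := Nat.cast_nonneg _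
        exact pow_lt_pow_left₀ this h0 (by norm_num)
      have h6 : 4 * (q : ℤ) ^ 2 ≤ (K : ℤ) ^ 2 := by
        have h7 : (2 * (q : ℤ)) ^ 2 ≤ (K : ℤ) ^ 2 := pow_le_pow_left₀ (by positivity) hK1' 2
        linarith [h7, (by ring : (2 * (q : ℤ)) ^ 2 = 4 * (q : ℤ) ^ 2)]
      have h8 := sq_nonneg (J : ℤ)
      linarith
    · change J + 2 * q ≤ 5 * K
      omega
  have hinv := hinv0.iter
  have hgrow := pell_growth (v := (J + 2 * q, K)) (by change 1 ≤ K; omega)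
  have hex : ∃ i, J ^ 2 ≤ (pell^[i] (J + 2 * q, K)).2 := by
    refine ⟨J ^ 2, le_trans ?_ (hgrow _)⟩
    exact (Nat.lt_pow_self (by norm_num)).le
  set i := Nat.find hex with hi
  have hi1 : J ^ 2 ≤ (pell^[i] (J + 2 * q, K)).2 := Nat.find_spec hex
  obtain ⟨hMo, hKo', hMK, hKM, hM5⟩ := hinv i
  set M' := (pell^[i] (J + 2 * q, K)).1 with hM'
  set K' := (pell^[i] (J + 2 * q, K)).2 with hK'
  -- upper bound
  have hKup : K' ≤ 732 * q ^ 2 := by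
    rcases Nat.eq_zero_or_pos i with h0 | h0
    · have h1 : K' = K := by
        rw [hK', h0]
        rfl
      rw [h1]
      have h2 : q ≤ q ^ 2 := Nat.le_self_pow (by norm_num) q
      omega
    · obtain ⟨i', hi'⟩ : ∃ i', i = i' + 1 := ⟨i - 1, by omega⟩
      have h1 : ¬ J ^ 2 ≤ (pell^[i'] (J + 2 * q, K)).2 := Nat.find_min hex (by omega)
      push Not at h1
      obtain ⟨-, -, -, -, h5⟩ := hinv i'
      have h2 : K' = 2 * (pell^[i'] (J + 2 * q, K)).1 + 3 * (pell^[i'] (J + 2 * q, K)).2 := by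
        rw [hK', hi', Function.iterate_succ_apply']
        rfl
      have h3 : K' ≤ 13 * J ^ 2 := by omega
      have h4 : 4 * J ^ 2 ≤ 225 * q ^ 2 := by
        calc 4 * J ^ 2 = (2 * J) ^ 2 := by ring
          _ ≤ (15 * q) ^ 2 := Nat.pow_le_pow_left hJ2 2
          _ = 225 * q ^ 2 := by ring
      omega
  have hKU : K' ≤ 11712 * U ^ 2 := by
    have h1 : q ^ 2 ≤ (4 * U) ^ 2 := Nat.pow_le_pow_left hq2 2
    have h2 : (4 * U) ^ 2 = 16 * U ^ 2 := by ring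
    omega
  have hi2 : i < 3 * (Nat.log 2 U + 1) := by
    have h1 : 3 ^ i ≤ U ^ 3 := by
      refine (hgrow i).trans ?_
      have : 11712 * U ^ 2 ≤ U ^ 3 := by
        have : U ^ 3 = U * U ^ 2 := by ring
        rw [this]
        exact Nat.mul_le_mul_right _ (by omega)
      omega
    have h2 : U < 2 ^ (Nat.log 2 U + 1) := Nat.lt_pow_succ_log_self (by norm_num) U
    have h3 : U ^ 3 < (2 ^ (Nat.log 2 U + 1)) ^ 3 := Nat.pow_lt_pow_left h2 (by norm_num)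
    rw [← pow_mul] at h3
    have h4 : 2 ^ i ≤ 3 ^ i := Nat.pow_le_pow_left (by norm_num) i
    have h5 : 2 ^ i < 2 ^ ((Nat.log 2 U + 1) * 3) := by omega
    have h6 := (Nat.pow_lt_pow_iff_right (a := 2) (by norm_num)).1 h5
    omega
  obtain ⟨m, hm⟩ := hMo
  obtain ⟨k, hk⟩ := hKo'
  have hmJ : J ^ 2 ≤ 2 * k + 1 := by omega
  have hkm : k ≤ m := by omega
  have hTj := two_mul_tri j
  have hTk := two_mul_tri k
  have hTm := two_mul_tri m
  -- `U ^ 2 ≤ 4 J ^ 2`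
  have hJU : U ^ 2 ≤ 4 * J ^ 2 := by
    have h1 : U ≤ 2 * J := by omega
    calc U ^ 2 ≤ (2 * J) ^ 2 := Nat.pow_le_pow_left h1 2
      _ = 4 * J ^ 2 := by ring
  have hJ8 : J ^ 2 = 8 * tri j + 1 := by
    have h1 : J ^ 2 = 4 * (j * (j + 1)) + 1 := by
      rw [hJ]
      ring
    rw [h1, ← hTj]
    ring
  have hpJ : 8 * p ≤ J := by omega
  have hJbig : 10000 ≤ J := by omega
  have hJJ : 10000 * J ≤ J ^ 2 := by
    rw [pow_two]
    exact Nat.mul_le_mul_right _ hJbig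
  have hjk : tri j + p ≤ k := by omega
  have hsm : s ≤ m := by omega
  have heq : 2 * tri k + (tri j + p) = tri m + s := by
    have h1 : (2 * (m : ℤ) + 1) ^ 2 - 2 * (2 * (k : ℤ) + 1) ^ 2 = (J : ℤ) ^ 2 - 2 * D := by
      have e1 : (M' : ℤ) = 2 * (m : ℤ) + 1 := by exact_mod_cast hm
      have e2 : (K' : ℤ) = 2 * (k : ℤ) + 1 := by exact_mod_cast hk
      rw [← e1, ← e2]
      exact hMK
    have h2 : (J : ℤ) = 2 * (j : ℤ) + 1 := by
      rw [hJ]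
      push_cast
      ring
    have h3 : D = 1 + 4 * ((s : ℤ) - (p : ℤ)) := rfl
    have e3 : 2 * (tri j : ℤ) = j * (j + 1) := by exact_mod_cast hTj
    have e4 : 2 * (tri k : ℤ) = k * (k + 1) := by exact_mod_cast hTk
    have e5 : 2 * (tri m : ℤ) = m * (m + 1) := by exact_mod_cast hTm
    rw [h2, h3] at h1
    have h4 : 8 * (2 * (tri k : ℤ) + (tri j + p)) = 8 * ((tri m : ℤ) + s) := by
      linear_combination (-1) * h1 + 8 * e4 + 4 * e3 - 4 * e5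
    have h5 : (2 * (tri k : ℤ) + (tri j + p)) = ((tri m : ℤ) + s) := by linarith
    exact_mod_cast h5
  refine ⟨i, tri k + (tri j + p), j, k, m, K, by omega, by omega, hjk, hsm, by omega, heq, rfl,
    ?_, ?_, hi2⟩
  · rw [← hJ]
    refine Prod.ext ?_ ?_
    · exact hm
    · exact hk
  · have h1 : tri k + (tri j + p) ≤ (k + 1) ^ 2 := by
      have h0 : (k + 1) ^ 2 = k * (k + 1) + (k + 1) := by ring
      omega
    have h2 : k + 1 ≤ 11712 * U ^ 2 := by omega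
    have h3 : (k + 1) ^ 2 ≤ (11712 * U ^ 2) ^ 2 := Nat.pow_le_pow_left h2 2
    have h4 : (11712 * U ^ 2) ^ 2 = 137170944 * U ^ 4 := by ring
    have h5 : 137170944 * U ^ 4 ≤ 140000000 * U ^ 4 := Nat.mul_le_mul_right _ (by norm_num)
    omega

end Trib
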