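import Pool.Agent.Lib.MP_841d01_co.Construct

namespace Trib

private theorem pell_inj : Function.Injective pell := by
  rintro ⟨a, b⟩ ⟨a', b'⟩ h
  have h1 : 3 * a + 4 * b = 3 * a' + 4 * b' := congrArg Prod.fst h
  have h2 : 2 * a + 3 * b = 2 * a' + 3 * b' := congrArg Prod.snd h
  rw [Prod.mk.injEq]
  omega

/-- T3a -/
theorem rep_inj {U i p s q p' s' q' n : ℕ} (h : Rep U i p s q n) (h' : Rep U i p' s' q' n) :
    p = p' ∧ s = s' ∧ q = q' := by
  obtain ⟨j, k, m, K, h1, h2, h3, h4, h5, h6, h7, h8, h9, h10⟩ := h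
  obtain ⟨j', k', m', K', h1', h2', h3', h4', h5', h6', h7', h8', h9', h10'⟩ := h'
  have hk : k = k' := by
    have e1 := idx_tri_add h3
    have e2 := idx_tri_add h3'
    rw [← h7] at e1
    rw [← h7'] at e2
    omega
  subst hk
  have hjp : tri j + p = tri j' + p' := by omega
  have hj : j = j' := by
    have e1 := idx_tri_add h1
    have e2 := idx_tri_add h1'
    rw [hjp] at e1
    omega
  subst hj
  have hp : p = p' := by omega
  subst hp
  have hms : tri m + s = tri m' + s' := by omega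
  have hm : m = m' := by
    have e1 := idx_tri_add h4
    have e2 := idx_tri_add h4'
    rw [hms] at e1
    omega
  subst hm
  have hs : s = s' := by omega
  subst hs
  have hK := (pell_inj.iterate i) (h8.trans h8'.symm)
  rw [Prod.mk.injEq] at hK
  exact ⟨rfl, rfl, by omega⟩

private theorem exists_z {q : ℕ} (hq : q.Prime) {a : ℤ} (h : jacobiSym a q = 1) :
    ∃ z : ℤ, (q : ℤ) ∣ z ^ 2 - a := by
  have : Fact q.Prime := ⟨hq⟩
  have : NeZero q := ⟨hq.ne_zero⟩
  rw [← jacobiSym.legendreSym.to_jacobiSym] at h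
  have ha : (a : ZMod q) ≠ 0 := by
    intro h0
    rw [(legendreSym.eq_zero_iff q a).2 h0] at h
    exact absurd h (by norm_num)
  obtain ⟨y, hy⟩ := (legendreSym.eq_one_iff q ha).1 h
  obtain ⟨z, rfl⟩ := ZMod.intCast_surjective y
  refine ⟨z, ?_⟩
  rw [← ZMod.intCast_zmod_eq_zero_iff_dvd]
  push_cast
  rw [hy]
  ring

/-- T3b -/
theorem count_le {U : ℕ} (hU : 20000 ≤ U) (T : Finset (ℕ × ℕ × ℕ))
    (hT : ∀ t ∈ T, Win false t.1 ∧ Win false t.2.1 ∧ t.2.2 ∈ QQ U ∧ 16 * t.1 ≤ U ∧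
      16 * t.2.1 ≤ U ^ 2 ∧ jacobiSym (dd t.1 t.2.1) t.2.2 = 1) :
    T.card ≤ 3 * (Nat.log 2 U + 1) * cnt false (140000000 * U ^ 4) := by
  classical
  have h1 : ∀ t ∈ T, ∃ x : ℕ × ℕ, Rep U x.1 t.1 t.2.1 t.2.2 x.2 := by
    intro t ht
    obtain ⟨a1, a2, a3, a4, a5, a6⟩ := hT t ht
    have hq : t.2.2.Prime := by
      unfold QQ at a3
      exact (Finset.mem_filter.1 a3).2
    obtain ⟨i, n, h⟩ := construct hU a3 a4 a5 (exists_z hq a6)
    exact ⟨(i, n), h⟩
  choose! f hf using h1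
  have h2 : T.card ≤ (Finset.range (3 * (Nat.log 2 U + 1)) ×ˢ
      ((Finset.Icc 1 (140000000 * U ^ 4)).filter fun n => Win false n)).card := by
    refine Finset.card_le_card_of_injOn f ?_ ?_
    · intro t ht
      obtain ⟨a1, a2, a3, a4, a5, a6⟩ := hT t ht
      obtain ⟨j, k, m, K, b1, b2, b3, b4, b5, b6, b7, b8, b9, b10⟩ := hf t ht
      have hw := win_construct a1 a2 b2 b1 b3 b5 b4 b6
      rw [← b7] at hw
      have hn : 1 ≤ (f t).2 := by
        have c1 := le_tri j
        have c2 := le_tri k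
        omega
      rw [Finset.mem_coe, Finset.mem_product]
      exact ⟨Finset.mem_range.2 b10,
        Finset.mem_filter.2 ⟨Finset.mem_Icc.2 ⟨hn, b9⟩, hw⟩⟩
    · intro t ht t' ht' he
      have c1 := hf t ht
      have c2 := hf t' ht'
      rw [he] at c1
      obtain ⟨d1, d2, d3⟩ := rep_inj c1 c2
      exact Prod.ext d1 (Prod.ext d2 d3)
  rw [Finset.card_product, Finset.card_range] at h2
  have h3 : cnt false (140000000 * U ^ 4) =
      ((Finset.Icc 1 (140000000 * U ^ 4)).filter fun n => Win false n).card := by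
    unfold cnt
    congr 1
  rw [h3]
  exact h2

end Trib
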