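import Mathlib

/-!
# MP_841d01_co : Norton's game Tribulations

Definitions: triangular numbers, the game, the counting functions, the Pell map.
-/

namespace Trib

/-- The triangular number `k (k + 1) / 2`. -/
def tri (k : ℕ) : ℕ := k * (k + 1) / 2

/-- The index of the largest triangular number which is at most `n`. -/
def idx (n : ℕ) : ℕ := Nat.findGreatest (fun k => tri k ≤ n) n

/-- The largest triangular number which is at most `n`. -/
def tau (n : ℕ) : ℕ := tri (idx n)

/-- Outcome classes of Tribulations: `Win false n` says that `n` is a `P`-position,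
`Win true n` says that `n` is an `N`-position. -/
inductive Win : Bool → ℕ → Prop
  | zero : Win false 0
  | down {n : ℕ} (h : 1 ≤ n) (hw : Win false (n - tau n)) : Win true n
  | up {n : ℕ} (h : 1 ≤ n) (hw : Win false (n + tau n)) : Win true n
  | both {n : ℕ} (h : 1 ≤ n) (h₁ : Win true (n - tau n)) (h₂ : Win true (n + tau n)) :
      Win false n

open Classical in
/-- The number of the positions in `{1, ..., x}` of the given outcome. -/
noncomputable def cnt (b : Bool) (x : ℕ) : ℕ := ((Finset.Icc 1 x).filter fun n => Win b n).card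

/-- Multiplication by the unit `3 + 2 √2`. -/
def pell (v : ℕ × ℕ) : ℕ × ℕ := (3 * v.1 + 4 * v.2, 2 * v.1 + 3 * v.2)

/-- The discriminant attached to `(p, s)`. -/
def dd (p s : ℕ) : ℤ := 1 + 4 * ((s : ℤ) - (p : ℤ))

open Classical in
/-- The primes in `(U, 4 U]`. -/
noncomputable def QQ (U : ℕ) : Finset ℕ := (Finset.Ioc U (4 * U)).filter Nat.Prime

theorem two_mul_tri (k : ℕ) : 2 * tri k = k * (k + 1) := by
  unfold tri
  exact Nat.mul_div_cancel' (Nat.even_mul_succ_self k).two_dvd

theorem tri_succ (k : ℕ) : tri (k + 1) = tri k + (k + 1) := by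
  have h1 := two_mul_tri k
  have h2 := two_mul_tri (k + 1)
  have : 2 * tri (k + 1) = 2 * (tri k + (k + 1)) := by
    rw [h2, Nat.mul_add 2, h1]
    ring
  omega

theorem tri_mono : Monotone tri := by
  apply monotone_nat_of_le_succ
  intro k
  rw [tri_succ]
  omega

theorem le_tri (k : ℕ) : k ≤ tri k := by
  induction k with
  | zero => exact Nat.zero_le _
  | succ k ih => rw [tri_succ]; omega

theorem idx_tri_add {k r : ℕ} (hr : r ≤ k) : idx (tri k + r) = k := by
  unfold idx
  have h0 := le_tri k
  apply le_antisymm
  · by_contra hlt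
    push Not at hlt
    have h1 : tri (Nat.findGreatest (fun k' => tri k' ≤ tri k + r) (tri k + r)) ≤ tri k + r :=
      Nat.findGreatest_spec (P := fun k' => tri k' ≤ tri k + r) (m := 0) (Nat.zero_le _)
        (by simp [tri])
    have h2 : tri (k + 1) ≤ tri (Nat.findGreatest (fun k' => tri k' ≤ tri k + r) (tri k + r)) :=
      tri_mono hlt
    rw [tri_succ] at h2
    omega
  · apply Nat.le_findGreatest
    · omega
    · omega

theorem tau_tri_add {k r : ℕ} (hr : r ≤ k) : tau (tri k + r) = tri k := by
  unfold tau
  rw [idx_tri_add hr]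

/-- A position `T_k + r` with `r` a `P`-position (or `0`) is an `N`-position. -/
theorem win_true_of_rem {k r : ℕ} (hk : 1 ≤ k) (hr : r ≤ k) (hw : Win false r) :
    Win true (tri k + r) := by
  apply Win.down
  · have := le_tri k
    omega
  · rw [tau_tri_add hr]
    simpa using hw

/-- The construction of `P`-positions. -/
theorem win_construct {p s j k m : ℕ} (hp : Win false p) (hs : Win false s) (hj : 1 ≤ j)
    (hpj : p ≤ j) (hk : tri j + p ≤ k) (hm : 1 ≤ m) (hsm : s ≤ m)
    (h : 2 * tri k + (tri j + p) = tri m + s) : Win false (tri k + (tri j + p)) := by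
  have hk1 : 1 ≤ k := by
    have := le_tri j
    omega
  apply Win.both
  · have := le_tri k
    omega
  · rw [tau_tri_add hk]
    simpa using win_true_of_rem hj hpj hp
  · rw [tau_tri_add hk]
    have e : tri k + (tri j + p) + tri k = tri m + s := by omega
    rw [e]
    exact win_true_of_rem hm hsm hs

theorem dd_emod (p s : ℕ) : dd p s % 4 = 1 := by
  unfold dd
  omega

end Trib
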