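import Pool.Agent.Lib.MP_841d01_co.Defs

/-!
# MP_841d01_co : further definitions
-/

namespace Trib

/-- The position `n` is constructed from the triple `(p, s, q)` with `i` Pell steps. -/
def Rep (U i p s q n : ℕ) : Prop :=
  ∃ j k m K : ℕ, p ≤ j ∧ 1 ≤ j ∧ tri j + p ≤ k ∧ s ≤ m ∧ 1 ≤ m ∧
    2 * tri k + (tri j + p) = tri m + s ∧ n = tri k + (tri j + p) ∧
    pell^[i] (2 * j + 1 + 2 * q, K) = (2 * m + 1, 2 * k + 1) ∧
    n ≤ 140000000 * U ^ 4 ∧ i < 3 * (Nat.log 2 U + 1)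

/-- The pairs of `A × B` with few primes `q ∈ (U, 4 U]` for which `dd p s` is a square. -/
noncomputable def badP (U : ℕ) (A B : Finset ℕ) : Finset (ℕ × ℕ) :=
  (A ×ˢ B).filter fun x =>
    4 * ((QQ U).filter fun q => jacobiSym (dd x.1 x.2) q = 1).card < (QQ U).card

end Trib
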