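import Pool.Agent.Lib.MP_841d01_co.Draws

/-!
# MP_841d01_co : linear bounds for the outcome counts
-/

namespace Trib

open Classical in
/-- The number of the `n` in `(a, c]` with `W n`. -/
noncomputable def blk (W : ℕ → Prop) (a c : ℕ) : ℕ := ((Finset.Ioc a c).filter W).card

theorem blk_add (W : ℕ → Prop) {a b c : ℕ} (h1 : a ≤ b) (h2 : b ≤ c) :
    blk W a b + blk W b c = blk W a c := by
  classical
  unfold blk
  simp only [Finset.card_filter]
  exact Finset.sum_Ioc_consecutive _ h1 h2

theorem cnt_eq_blk (b : Bool) (x : ℕ) : cnt b x = blk (Win b) 0 x := by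
  classical
  unfold cnt blk
  congr 1

theorem tri_idx_le (n : ℕ) : tri (idx n) ≤ n := by
  unfold idx
  exact Nat.findGreatest_spec (P := fun k => tri k ≤ n) (m := 0) (Nat.zero_le _) (by simp [tri])

theorem lt_tri_idx (n : ℕ) : n < tri (idx n) + idx n + 1 := by
  by_contra h
  push Not at h
  have h1 : tri (idx n + 1) ≤ n := by rw [tri_succ]; omega
  have h2 : idx n + 1 ≤ n := (le_tri _).trans h1
  have h3 : idx n + 1 ≤ idx n := by
    conv_rhs => unfold idx
    exact Nat.le_findGreatest h2 h1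
  omega

theorem tau_le (n : ℕ) : tau n ≤ n := tri_idx_le n

theorem le_tau_add (n : ℕ) : n ≤ tau n + idx n := by
  have := lt_tri_idx n
  unfold tau
  omega

theorem idx_mono {m n : ℕ} (h : m ≤ n) : idx m ≤ idx n := by
  have h1 := (tri_idx_le m).trans h
  have h2 := (le_tri (idx m)).trans h1
  conv_rhs => unfold idx
  exact Nat.le_findGreatest h2 h1

theorem tau_mono {m n : ℕ} (h : m ≤ n) : tau m ≤ tau n := tri_mono (idx_mono h)

theorem idx_le_sqrt (n : ℕ) : idx n ≤ Nat.sqrt (2 * n) := by
  rw [Nat.le_sqrt]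
  have h1 := two_mul_tri (idx n)
  have h2 := tri_idx_le n
  nlinarith

theorem blk_mono_pred {W W' : ℕ → Prop} {a c : ℕ} (h : ∀ n, a < n → n ≤ c → W n → W' n) :
    blk W a c ≤ blk W' a c := by
  classical
  unfold blk
  refine Finset.card_le_card fun n hn => ?_
  rw [Finset.mem_filter, Finset.mem_Ioc] at hn
  exact Finset.mem_filter.2 ⟨Finset.mem_Ioc.2 hn.1, h n hn.1.1 hn.1.2 hn.2⟩

/-- The up move doubles, up to a square root. -/
theorem blk_plus (W : ℕ → Prop) (y : ℕ) :
    blk (fun n => W (n + tau n)) (y / 2) y ≤ blk W y (2 * y) + (Nat.sqrt (2 * y) / 2 + 1) := by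
  classical
  unfold blk
  set F := (Finset.Ioc (y / 2) y).filter fun n => W (n + tau n) with hF
  have h0 := Finset.card_filter_add_card_filter_not (s := F) (fun n => n + tau n ≤ y)
  have h1 : (F.filter fun n => n + tau n ≤ y).card ≤ Nat.sqrt (2 * y) / 2 + 1 := by
    have hsub : (F.filter fun n => n + tau n ≤ y) ⊆
        Finset.Ioc (y / 2) ((y + Nat.sqrt (2 * y)) / 2) := by
      intro n hn
      rw [Finset.mem_filter, hF, Finset.mem_filter, Finset.mem_Ioc] at hn
      obtain ⟨⟨⟨ha, hb⟩, -⟩, hc⟩ := hn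
      rw [Finset.mem_Ioc]
      refine ⟨ha, ?_⟩
      have e1 := le_tau_add n
      have e2 := idx_le_sqrt n
      have e3 : Nat.sqrt (2 * n) ≤ Nat.sqrt (2 * y) := Nat.sqrt_le_sqrt (by omega)
      omega
    refine (Finset.card_le_card hsub).trans ?_
    rw [Nat.card_Ioc]
    omega
  have h2 : (F.filter fun n => ¬ (n + tau n ≤ y)).card ≤
      ((Finset.Ioc y (2 * y)).filter W).card := by
    refine Finset.card_le_card_of_injOn (fun n => n + tau n) (fun n hn => ?_) ?_
    · rw [Finset.mem_coe, Finset.mem_filter, hF, Finset.mem_filter, Finset.mem_Ioc] at hn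
      obtain ⟨⟨⟨ha, hb⟩, hw⟩, hc⟩ := hn
      have e1 := tau_le n
      rw [Finset.mem_coe, Finset.mem_filter, Finset.mem_Ioc]
      exact ⟨⟨by show y < n + tau n; omega, by show n + tau n ≤ 2 * y; omega⟩, hw⟩
    · intro n _ n' _ e
      have e' : n + tau n = n' + tau n' := e
      rcases lt_trichotomy n n' with h | h | h
      · have := tau_mono h.le; omega
      · exact h
      · have := tau_mono h.le; omega
  omega

/-- `P`-positions go up to `N`-positions. -/
theorem blk_P (y : ℕ) : blk (Win false) (y / 2) y ≤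
    blk (Win true) y (2 * y) + (Nat.sqrt (2 * y) / 2 + 1) := by
  refine le_trans (blk_mono_pred fun n h1 _ hw => ?_) (blk_plus (Win true) y)
  cases hw with
  | zero => omega
  | both _ _ h₂ => exact h₂

theorem blk_disj (a c : ℕ) : blk (Win false) a c + blk (Win true) a c ≤ c - a := by
  classical
  unfold blk
  rw [← Finset.card_union_of_disjoint]
  · refine le_trans (Finset.card_le_card (t := Finset.Ioc a c) ?_) (by rw [Nat.card_Ioc])
    intro n hn
    rcases Finset.mem_union.1 hn with h | h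
    · exact (Finset.mem_filter.1 h).1
    · exact (Finset.mem_filter.1 h).1
  · rw [Finset.disjoint_left]
    intro n hn hn'
    exact win_excl (Finset.mem_filter.1 hn).2 (Finset.mem_filter.1 hn').2

theorem blk_le (W : ℕ → Prop) (a c : ℕ) : blk W a c ≤ c - a := by
  classical
  unfold blk
  refine (Finset.card_filter_le _ _).trans ?_
  rw [Nat.card_Ioc]

/-- The recursive inequality for `P`. -/
theorem cnt_false_rec (x : ℕ) :
    cnt false x ≤ cnt false (x / 2 / 2) + x / 2 + Nat.sqrt x / 2 + 2 := by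
  rw [cnt_eq_blk, cnt_eq_blk]
  have h1 := blk_P (x / 2)
  have h2 := blk_disj (x / 2) (2 * (x / 2))
  have h3 := blk_add (Win false) (Nat.zero_le (x / 2 / 2)) (show x / 2 / 2 ≤ x / 2 by omega)
  have h4 := blk_add (Win false) (Nat.zero_le (x / 2)) (show x / 2 ≤ 2 * (x / 2) by omega)
  have h5 := blk_add (Win false) (Nat.zero_le (2 * (x / 2))) (show 2 * (x / 2) ≤ x by omega)
  have h6 := blk_le (Win false) (2 * (x / 2)) x
  have h7 : Nat.sqrt (2 * (x / 2)) ≤ Nat.sqrt x := Nat.sqrt_le_sqrt (by omega)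
  omega

end Trib
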