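import Pool.Agent.Lib.MP_841d01_co.DensA

/-!
# MP_841d01_co : linear bounds for the outcome counts, the real inequalities
-/

namespace Trib

/-- `P(x) ≤ 2x/3 + 5 √x`. -/
theorem cnt_false_le (x : ℕ) : (cnt false x : ℝ) ≤ 2 / 3 * x + 5 * Real.sqrt x := by
  induction x using Nat.strong_induction_on with
  | _ x ih =>
    rcases Nat.eq_zero_or_pos x with rfl | hx
    · simp [cnt]
    · have h1 := cnt_false_rec x
      have h2 := ih (x / 2 / 2) (by omega)
      have hx1 : (1 : ℝ) ≤ x := by exact_mod_cast hx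
      have h3 : ((cnt false x : ℕ) : ℝ) ≤ cnt false (x / 2 / 2) + (x / 2 : ℕ) +
          (Nat.sqrt x / 2 : ℕ) + 2 := by exact_mod_cast h1
      have h4 : ((x / 2 : ℕ) : ℝ) ≤ x / 2 := by
        rw [le_div_iff₀ (by norm_num)]
        exact_mod_cast (by omega : x / 2 * 2 ≤ x)
      have h5 : ((Nat.sqrt x / 2 : ℕ) : ℝ) ≤ Real.sqrt x / 2 := by
        have e1 : ((Nat.sqrt x / 2 : ℕ) : ℝ) * 2 ≤ (Nat.sqrt x : ℕ) := by
          exact_mod_cast (by omega : Nat.sqrt x / 2 * 2 ≤ Nat.sqrt x)
        have e2 : ((Nat.sqrt x : ℕ) : ℝ) ≤ Real.sqrt x := Real.nat_sqrt_le_real_sqrt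
        linarith
      have h6 : ((x / 2 / 2 : ℕ) : ℝ) ≤ x / 4 := by
        rw [le_div_iff₀ (by norm_num)]
        exact_mod_cast (by omega : x / 2 / 2 * 4 ≤ x)
      have h7 : Real.sqrt ((x / 2 / 2 : ℕ) : ℝ) ≤ Real.sqrt x / 2 := by
        rw [Real.sqrt_le_left (by positivity)]
        rw [div_pow, Real.sq_sqrt (by positivity)]
        linarith
      have h8 : (1 : ℝ) ≤ Real.sqrt x := by
        rw [Real.one_le_sqrt]
        exact hx1
      linarith

/-- The positions with a `P`-position (or `0`) below. -/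
theorem blk_down (q h : ℕ) :
    blk (fun n => Win false (n - tau n)) q h ≤
      ∑ k ∈ Finset.Icc (idx q) (idx h), (1 + cnt false k) := by
  classical
  have hc : ∀ k : ℕ, ((Finset.range (k + 1)).filter fun r => Win false r).card =
      1 + cnt false k := by
    intro k
    unfold cnt
    rw [Finset.card_filter, Finset.card_filter, Finset.sum_range_succ']
    rw [if_pos Win.zero, add_comm]
    congr 1
    rw [Finset.range_eq_Ico, Finset.sum_Ico_add' (fun r => if Win false r then 1 else 0) 0 k 1]
    rfl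
  have h1 : ∑ k ∈ Finset.Icc (idx q) (idx h), (1 + cnt false k) =
      ((Finset.Icc (idx q) (idx h)).sigma fun k =>
        (Finset.range (k + 1)).filter fun r => Win false r).card := by
    rw [Finset.card_sigma]
    exact Finset.sum_congr rfl fun k _ => (hc k).symm
  rw [h1]
  unfold blk
  refine Finset.card_le_card_of_injOn (fun n => ⟨idx n, n - tau n⟩) (fun n hn => ?_) ?_
  · rw [Finset.mem_coe, Finset.mem_filter, Finset.mem_Ioc] at hn
    rw [Finset.mem_coe, Finset.mem_sigma, Finset.mem_Icc, Finset.mem_filter, Finset.mem_range]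
    refine ⟨⟨idx_mono hn.1.1.le, idx_mono hn.1.2⟩, ?_, hn.2⟩
    have := le_tau_add n
    show n - tau n < idx n + 1
    omega
  · intro n _ n' _ e
    have e1 : idx n = idx n' := congrArg Sigma.fst e
    have e2 : n - tau n = n' - tau n' := by
      have := congrArg Sigma.snd e
      simpa using this
    have e3 : tau n = tau n' := by unfold tau; rw [e1]
    have e4 := tau_le n
    have e5 := tau_le n'
    omega

theorem sum_Icc_tri {a b : ℕ} (h : a ≤ b) : (∑ k ∈ Finset.Icc a b, k) + tri a = tri b + a := by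
  induction b, h using Nat.le_induction with
  | base => simp; ring
  | succ b hb ih =>
    rw [Finset.sum_Icc_succ_top (by omega), tri_succ]
    omega

/-- `N`-positions in a block. -/
theorem blk_N (y : ℕ) : blk (Win true) (y / 2) y ≤
    blk (fun n => Win false (n - tau n)) (y / 2) y +
      (blk (Win false) y (2 * y) + (Nat.sqrt (2 * y) / 2 + 1)) := by
  classical
  have h1 : blk (Win true) (y / 2) y ≤ blk (fun n => Win false (n - tau n)) (y / 2) y +
      blk (fun n => Win false (n + tau n)) (y / 2) y := by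
    unfold blk
    refine (Finset.card_le_card (t := ((Finset.Ioc (y / 2) y).filter
      fun n => Win false (n - tau n)) ∪ ((Finset.Ioc (y / 2) y).filter
      fun n => Win false (n + tau n))) fun n hn => ?_).trans (Finset.card_union_le _ _)
    rw [Finset.mem_filter] at hn
    rw [Finset.mem_union, Finset.mem_filter, Finset.mem_filter]
    obtain ⟨ha, hw⟩ := hn
    cases hw with
    | down _ hw => exact Or.inl ⟨ha, hw⟩
    | up _ hw => exact Or.inr ⟨ha, hw⟩
  exact h1.trans (Nat.add_le_add_left (blk_plus (Win false) y) _)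

/-- The recursive inequality for `N`. -/
theorem cnt_true_rec (x : ℕ) :
    cnt true x ≤ cnt true (x / 2 / 2) + blk (fun n => Win false (n - tau n)) (x / 2 / 2) (x / 2) +
      x / 2 + Nat.sqrt x / 2 + 2 := by
  rw [cnt_eq_blk, cnt_eq_blk]
  have h1 := blk_N (x / 2)
  have h2 := blk_disj (x / 2) (2 * (x / 2))
  have h3 := blk_add (Win true) (Nat.zero_le (x / 2 / 2)) (show x / 2 / 2 ≤ x / 2 by omega)
  have h4 := blk_add (Win true) (Nat.zero_le (x / 2)) (show x / 2 ≤ 2 * (x / 2) by omega)
  have h5 := blk_add (Win true) (Nat.zero_le (2 * (x / 2))) (show 2 * (x / 2) ≤ x by omega)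
  have h6 := blk_le (Win true) (2 * (x / 2)) x
  have h7 : Nat.sqrt (2 * (x / 2)) ≤ Nat.sqrt x := Nat.sqrt_le_sqrt (by omega)
  omega

end Trib
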