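import Pool.Agent.Lib.MP_841d01_co.DensB

/-!
# MP_841d01_co : linear bounds for the outcome counts, `N`
-/

namespace Trib

theorem blk_down_le (y : ℕ) : (blk (fun n => Win false (n - tau n)) (y / 2) y : ℝ) ≤
    2 / 3 * ((y : ℝ) - (y / 2 : ℕ)) + 4 / 3 * Real.sqrt (2 * y) +
      (Real.sqrt (2 * y) + 1) * (1 + 5 * Real.sqrt (Real.sqrt (2 * y))) := by
  have h1 := blk_down (y / 2) y
  have h2 : (blk (fun n => Win false (n - tau n)) (y / 2) y : ℝ) ≤
      ∑ k ∈ Finset.Icc (idx (y / 2)) (idx y), (1 + (cnt false k : ℝ)) := by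
    have := (Nat.cast_le (α := ℝ)).2 h1
    push_cast at this
    exact this
  have hid : idx (y / 2) ≤ idx y := idx_mono (by omega)
  have hsq : ((idx y : ℕ) : ℝ) ≤ Real.sqrt (2 * y) := by
    have e1 : ((idx y : ℕ) : ℝ) ≤ (Nat.sqrt (2 * y) : ℕ) := by exact_mod_cast idx_le_sqrt y
    refine e1.trans ?_
    have := Real.nat_sqrt_le_real_sqrt (a := 2 * y)
    push_cast at this
    exact this
  have h3 : ∑ k ∈ Finset.Icc (idx (y / 2)) (idx y), (1 + (cnt false k : ℝ)) ≤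
      ∑ k ∈ Finset.Icc (idx (y / 2)) (idx y),
        (2 / 3 * (k : ℝ) + (1 + 5 * Real.sqrt (Real.sqrt (2 * y)))) := by
    refine Finset.sum_le_sum fun k hk => ?_
    have e1 := cnt_false_le k
    have e2 : Real.sqrt k ≤ Real.sqrt (Real.sqrt (2 * y)) := by
      apply Real.sqrt_le_sqrt
      refine le_trans ?_ hsq
      exact_mod_cast (Finset.mem_Icc.1 hk).2
    linarith
  have h3' := h2.trans h3
  rw [Finset.sum_add_distrib, ← Finset.mul_sum, Finset.sum_const, nsmul_eq_mul] at h3'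
  have h4 : ((∑ k ∈ Finset.Icc (idx (y / 2)) (idx y), (k : ℝ))) ≤
      (y : ℝ) - (y / 2 : ℕ) + 2 * Real.sqrt (2 * y) := by
    have e1 := sum_Icc_tri hid
    have e2 := tri_idx_le y
    have e3 := lt_tri_idx (y / 2)
    have e4 : (∑ k ∈ Finset.Icc (idx (y / 2)) (idx y), k) + y / 2 ≤ y + 2 * idx (y / 2) := by
      omega
    have e5 : ((∑ k ∈ Finset.Icc (idx (y / 2)) (idx y), k : ℕ) : ℝ) + (y / 2 : ℕ) ≤
        y + 2 * (idx (y / 2) : ℕ) := by exact_mod_cast e4
    have e6 : ((idx (y / 2) : ℕ) : ℝ) ≤ (idx y : ℕ) := by exact_mod_cast hid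
    rw [Nat.cast_sum] at e5
    linarith
  have h5 : ((Finset.Icc (idx (y / 2)) (idx y)).card : ℝ) ≤ Real.sqrt (2 * y) + 1 := by
    rw [Nat.card_Icc]
    have e1 : ((idx y + 1 - idx (y / 2) : ℕ) : ℝ) ≤ ((idx y + 1 : ℕ) : ℝ) := by
      exact_mod_cast Nat.sub_le _ _
    push_cast at e1 ⊢
    linarith
  have h6 : ((Finset.Icc (idx (y / 2)) (idx y)).card : ℝ) *
      (1 + 5 * Real.sqrt (Real.sqrt (2 * y))) ≤
      (Real.sqrt (2 * y) + 1) * (1 + 5 * Real.sqrt (Real.sqrt (2 * y))) :=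
    mul_le_mul_of_nonneg_right h5 (by positivity)
  linarith

/-- `N(x) ≤ 8x/9 + 26 x^(3/4)`. -/
theorem cnt_true_le (x : ℕ) :
    (cnt true x : ℝ) ≤ 8 / 9 * x + 26 * (Real.sqrt x * Real.sqrt (Real.sqrt x)) := by
  induction x using Nat.strong_induction_on with
  | _ x ih =>
    rcases Nat.eq_zero_or_pos x with rfl | hx
    · simp [cnt]
    · have h1 := cnt_true_rec x
      have h2 := ih (x / 2 / 2) (by omega)
      have hx1 : (1 : ℝ) ≤ x := by exact_mod_cast hx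
      have h3 : ((cnt true x : ℕ) : ℝ) ≤ cnt true (x / 2 / 2) +
          (blk (fun n => Win false (n - tau n)) (x / 2 / 2) (x / 2) : ℕ) + (x / 2 : ℕ) +
          (Nat.sqrt x / 2 : ℕ) + 2 := by exact_mod_cast h1
      have h4 : ((x / 2 : ℕ) : ℝ) ≤ x / 2 := by
        rw [le_div_iff₀ (by norm_num)]
        exact_mod_cast (by omega : x / 2 * 2 ≤ x)
      have h5 : ((Nat.sqrt x / 2 : ℕ) : ℝ) ≤ Real.sqrt x / 2 := by
        have e1 : ((Nat.sqrt x / 2 : ℕ) : ℝ) * 2 ≤ (Nat.sqrt x : ℕ) := by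
          exact_mod_cast (by omega : Nat.sqrt x / 2 * 2 ≤ Nat.sqrt x)
        have e2 : ((Nat.sqrt x : ℕ) : ℝ) ≤ Real.sqrt x := Real.nat_sqrt_le_real_sqrt
        linarith
      have h6 : ((x / 2 / 2 : ℕ) : ℝ) ≤ x / 4 := by
        rw [le_div_iff₀ (by norm_num)]
        exact_mod_cast (by omega : x / 2 / 2 * 4 ≤ x)
      set s : ℝ := Real.sqrt x with hs
      have hs1 : (1 : ℝ) ≤ s := by
        rw [hs, Real.one_le_sqrt]
        exact hx1
      set u : ℝ := Real.sqrt s with hu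
      have hu1 : (1 : ℝ) ≤ u := by
        rw [hu, Real.one_le_sqrt]
        exact hs1
      have hss : s * s = x := Real.mul_self_sqrt (by positivity)
      have huu : u * u = s := Real.mul_self_sqrt (by positivity)
      have h7 : Real.sqrt ((x / 2 / 2 : ℕ) : ℝ) ≤ s / 2 := by
        rw [Real.sqrt_le_left (by positivity)]
        nlinarith
      have h8 : Real.sqrt (Real.sqrt ((x / 2 / 2 : ℕ) : ℝ)) ≤ 3 / 4 * u := by
        rw [Real.sqrt_le_left (by positivity)]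
        nlinarith
      have h9 : Real.sqrt ((x / 2 / 2 : ℕ) : ℝ) * Real.sqrt (Real.sqrt ((x / 2 / 2 : ℕ) : ℝ)) ≤
          s / 2 * (3 / 4 * u) :=
        mul_le_mul h7 h8 (Real.sqrt_nonneg _) (by positivity)
      have h10 : Real.sqrt (2 * (x / 2 : ℕ)) ≤ s := by
        apply Real.sqrt_le_sqrt
        linarith
      have h11 : Real.sqrt (Real.sqrt (2 * (x / 2 : ℕ))) ≤ u := Real.sqrt_le_sqrt h10
      have h12 := blk_down_le (x / 2)
      have h13 : (Real.sqrt (2 * (x / 2 : ℕ)) + 1) *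
          (1 + 5 * Real.sqrt (Real.sqrt (2 * (x / 2 : ℕ)))) ≤ (s + 1) * (1 + 5 * u) := by
        apply mul_le_mul (by linarith) (by linarith) (by positivity) (by positivity)
      have h14 : ((x / 2 : ℕ) : ℝ) - (x / 2 / 2 : ℕ) ≤ x / 4 + 1 / 2 := by
        have e1 : 2 * ((x / 2 : ℕ) : ℝ) ≤ 4 * ((x / 2 / 2 : ℕ) : ℝ) + 2 := by
          exact_mod_cast (by omega : 2 * (x / 2) ≤ 4 * (x / 2 / 2) + 2)
        linarith
      have h15 : s ≤ s * u := by nlinarith
      have h16 : u ≤ s * u := by nlinarith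
      have h17 : (1 : ℝ) ≤ s * u := by nlinarith
      nlinarith

end Trib
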