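import Pool.Agent.Lib.MP_841d01_co.DensC

/-!
# MP_841d01_co : the ratio of the outcome counts is bounded
-/

namespace Trib

theorem cnt_total (x : ℕ) : cnt false x + cnt true x + cntO x = x := by
  classical
  have h : ∀ n ∈ Finset.Icc 1 x, ((if Win false n then 1 else 0) + (if Win true n then 1 else 0) +
      (if Draw n then 1 else 0) : ℕ) = 1 := by
    intro n _
    by_cases h1 : Win false n
    · have h2 : ¬ Win true n := win_excl h1
      have h3 : ¬ Draw n := fun h => h.1 h1
      simp [h1, h2, h3]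
    · by_cases h2 : Win true n
      · have h3 : ¬ Draw n := fun h => h.2 h2
        simp [h1, h2, h3]
      · have h3 : Draw n := ⟨h1, h2⟩
        simp [h1, h2, h3]
  have h4 := Finset.sum_congr rfl h
  rw [Finset.sum_add_distrib, Finset.sum_add_distrib] at h4
  unfold cnt cntO
  rw [Finset.card_filter, Finset.card_filter, Finset.card_filter, h4]
  simp

theorem rpow_three_quarters (x : ℕ) :
    (x : ℝ) ^ (3 / 4 : ℝ) = Real.sqrt x * Real.sqrt (Real.sqrt x) := by
  have hx : (0 : ℝ) ≤ x := Nat.cast_nonneg x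
  rw [Real.sqrt_eq_rpow (Real.sqrt x), Real.sqrt_eq_rpow, ← Real.rpow_mul hx,
    ← Real.rpow_add_of_nonneg hx (by norm_num) (by norm_num)]
  norm_num

theorem P_le (x : ℕ) : (cnt false x : ℝ) ≤ 2 * (cnt true x + cntO x) + 15 * Real.sqrt x := by
  have h1 := cnt_false_le x
  have h2 : (cnt false x : ℝ) + cnt true x + cntO x = x := by exact_mod_cast cnt_total x
  linarith

theorem N_le (x : ℕ) : (cnt true x : ℝ) ≤
    8 * (cnt false x + cntO x) + 234 * (x : ℝ) ^ (3 / 4 : ℝ) := by
  have h1 := cnt_true_le x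
  rw [← rpow_three_quarters] at h1
  have h2 : (cnt false x : ℝ) + cnt true x + cntO x = x := by exact_mod_cast cnt_total x
  linarith

theorem ratio (h : ∀ n, ¬ Draw n) (ε : ℝ) (hε : 0 < ε) : ∃ X : ℕ, ∀ x : ℕ, X ≤ x →
    1 / 2 - ε ≤ (cnt true x : ℝ) / cnt false x ∧ (cnt true x : ℝ) / cnt false x ≤ 8 + ε := by
  set M : ℝ := 2340 * (1 + 1 / ε) with hM
  have hi : 0 < 1 / ε := by positivity
  have hM1 : 2340 ≤ M := by rw [hM]; nlinarith
  have hM2 : 2340 ≤ M * ε := by
    rw [hM]
    have : 2340 * (1 + 1 / ε) * ε = 2340 * ε + 2340 := by field_simp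
    rw [this]
    nlinarith
  refine ⟨⌈M ^ 4⌉₊, fun x hx => ?_⟩
  have hx1 : M ^ 4 ≤ (x : ℝ) := (Nat.le_ceil _).trans (by exact_mod_cast hx)
  set s : ℝ := Real.sqrt x with hs
  set u : ℝ := Real.sqrt s with hu
  have hs1 : M ^ 2 ≤ s := by
    rw [hs]
    apply Real.le_sqrt_of_sq_le
    calc (M ^ 2) ^ 2 = M ^ 4 := by ring
      _ ≤ (x : ℝ) := hx1
  have hu1 : M ≤ u := by
    rw [hu]
    exact Real.le_sqrt_of_sq_le hs1
  have hss : s * s = x := Real.mul_self_sqrt (by positivity)
  have huu : u * u = s := Real.mul_self_sqrt (by positivity)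
  have hu0 : 0 < u := by linarith
  have hu2 : 2340 ≤ u * ε := hM2.trans (mul_le_mul_of_nonneg_right hu1 hε.le)
  have hO : cntO x = 0 := by
    classical
    unfold cntO
    rw [Finset.card_eq_zero, Finset.filter_eq_empty_iff]
    exact fun n _ => h n
  have h1 := P_le x
  have h2 := N_le x
  have h3 : (cnt false x : ℝ) + cnt true x + cntO x = x := by exact_mod_cast cnt_total x
  rw [rpow_three_quarters] at h2
  rw [hO] at h1 h2 h3
  push_cast at h1 h2 h3
  rw [← hs] at h1 h2
  rw [← hu] at h2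
  have hx2 : (x : ℝ) = u * u * (u * u) := by rw [huu, hss]
  have hsu : s = u * u := huu.symm
  have h4 : (x : ℝ) / 10 ≤ cnt false x := by
    have e1 : 9 * (cnt false x : ℝ) ≥ x - 234 * (s * u) := by linarith
    have e2 : 234 * (s * u) ≤ x / 10 := by
      rw [hx2, hsu]
      have : 0 < u * u * u := by positivity
      nlinarith
    linarith
  have hx3 : (0 : ℝ) < x := by rw [hx2]; positivity
  have hP : (0 : ℝ) < cnt false x := by linarith [div_pos hx3 (by norm_num : (0 : ℝ) < 10)]
  constructor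
  · rw [le_div_iff₀ hP]
    have e1 : 15 / 2 * s ≤ ε * (cnt false x : ℝ) := by
      calc 15 / 2 * s ≤ ε * (x / 10) := by
            rw [hx2, hsu]
            have : 0 < u * u := by positivity
            nlinarith [mul_pos hu0 hu0, mul_le_mul_of_nonneg_left hu2 hu0.le]
        _ ≤ ε * (cnt false x : ℝ) := mul_le_mul_of_nonneg_left h4 hε.le
    linarith
  · rw [div_le_iff₀ hP]
    have e1 : 234 * (s * u) ≤ ε * (cnt false x : ℝ) := by
      calc 234 * (s * u) ≤ ε * (x / 10) := by
            rw [hx2, hsu]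
            have : 0 < u * u * u := by positivity
            nlinarith [mul_le_mul_of_nonneg_left hu2 this.le]
        _ ≤ ε * (cnt false x : ℝ) := mul_le_mul_of_nonneg_left h4 hε.le
    linarith

end Trib
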