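import Pool.Agent.Lib.MP_841d01_co.DensD

/-!
# MP_841d01_co : upper densities of the `P`- and `N`-positions
-/

namespace Trib

open Filter Topology

theorem up_le (W : ℕ → Prop) (y : ℕ) :
    blk (fun n => W (n + tau n)) 0 y ≤ blk W 0 (2 * y) := by
  classical
  unfold blk
  refine Finset.card_le_card_of_injOn (fun n => n + tau n) (fun n hn => ?_) ?_
  · rw [Finset.mem_coe, Finset.mem_filter, Finset.mem_Ioc] at hn
    have e1 := tau_le n
    rw [Finset.mem_coe, Finset.mem_filter, Finset.mem_Ioc]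
    exact ⟨⟨by show 0 < n + tau n; omega, by show n + tau n ≤ 2 * y; omega⟩, hn.2⟩
  · intro n _ n' _ e
    have e' : n + tau n = n' + tau n' := e
    rcases lt_trichotomy n n' with h | h | h
    · have := tau_mono h.le; omega
    · exact h
    · have := tau_mono h.le; omega

theorem P_le_N (y : ℕ) : cnt false y ≤ cnt true (2 * y) := by
  rw [cnt_eq_blk, cnt_eq_blk]
  refine le_trans (blk_mono_pred fun n h1 _ hw => ?_) (up_le (Win true) y)
  cases hw with
  | zero => omega
  | both _ _ h₂ => exact h₂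

theorem N_le_S (x : ℕ) : cnt true x ≤ (∑ k ∈ Finset.Icc 0 (idx x), (1 + cnt false k)) +
    cnt false (2 * x) := by
  classical
  have h1 : blk (Win true) 0 x ≤ blk (fun n => Win false (n - tau n)) 0 x +
      blk (fun n => Win false (n + tau n)) 0 x := by
    unfold blk
    refine (Finset.card_le_card (t := ((Finset.Ioc 0 x).filter
      fun n => Win false (n - tau n)) ∪ ((Finset.Ioc 0 x).filter
      fun n => Win false (n + tau n))) fun n hn => ?_).trans (Finset.card_union_le _ _)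
    rw [Finset.mem_filter] at hn
    rw [Finset.mem_union, Finset.mem_filter, Finset.mem_filter]
    obtain ⟨ha, hw⟩ := hn
    cases hw with
    | down _ hw => exact Or.inl ⟨ha, hw⟩
    | up _ hw => exact Or.inr ⟨ha, hw⟩
  have h2 := blk_down 0 x
  have h3 := up_le (Win false) x
  have h4 : idx 0 = 0 := by
    have := (le_tri (idx 0)).trans (tri_idx_le 0)
    omega
  rw [h4] at h2
  rw [cnt_eq_blk, cnt_eq_blk]
  omega

theorem cnt_le_self (b : Bool) (x : ℕ) : cnt b x ≤ x := by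
  rw [cnt_eq_blk]
  have := blk_le (Win b) 0 x
  omega

/-- If `P(x) ≤ a x` for all large `x`, then `N(x) ≤ (3 a + ε) x` for all large `x`. -/
theorem N_of_P {a : ℝ} (ha0 : 0 ≤ a) (ha : ∀ᶠ x : ℕ in atTop, (cnt false x : ℝ) ≤ a * x) (ε : ℝ)
    (hε : 0 < ε) : ∀ᶠ x : ℕ in atTop, (cnt true x : ℝ) ≤ (3 * a + ε) * x := by
  obtain ⟨X, hX⟩ := eventually_atTop.1 ha
  have hk : ∀ k : ℕ, (cnt false k : ℝ) ≤ a * k + X := by
    intro k
    rcases le_total X k with h | h
    · have := hX k h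
      have hX0 : (0 : ℝ) ≤ X := Nat.cast_nonneg X
      linarith
    · have h1 : (cnt false k : ℝ) ≤ k := by exact_mod_cast cnt_le_self false k
      have h2 : (k : ℝ) ≤ X := by exact_mod_cast h
      have h3 : 0 ≤ a * (k : ℝ) := by positivity
      linarith
  set C : ℝ := 1 + X with hC
  have hC1 : 1 ≤ C := by
    have hX0 : (0 : ℝ) ≤ X := Nat.cast_nonneg X
    linarith
  refine eventually_atTop.2 ⟨max X (max 1 ⌈(8 * C / ε) ^ 2⌉₊), fun x hx => ?_⟩
  have hxX : X ≤ x := (le_max_left _ _).trans hx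
  have hx1 : 1 ≤ x := ((le_max_left _ _).trans (le_max_right _ _)).trans hx
  have hxc : ⌈(8 * C / ε) ^ 2⌉₊ ≤ x := ((le_max_right _ _).trans (le_max_right _ _)).trans hx
  have hx1' : (1 : ℝ) ≤ x := by exact_mod_cast hx1
  have h1 := N_le_S x
  have h2 : (cnt true x : ℝ) ≤ (∑ k ∈ Finset.Icc 0 (idx x), (1 + (cnt false k : ℝ))) +
      cnt false (2 * x) := by exact_mod_cast h1
  have h3 : (∑ k ∈ Finset.Icc 0 (idx x), (1 + (cnt false k : ℝ))) ≤
      ∑ k ∈ Finset.Icc 0 (idx x), (a * (k : ℝ) + C) := by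
    refine Finset.sum_le_sum fun k _ => ?_
    have := hk k
    rw [hC]
    linarith
  have h3r : ∑ k ∈ Finset.Icc 0 (idx x), (a * (k : ℝ) + C) =
      a * (∑ k ∈ Finset.Icc 0 (idx x), (k : ℝ)) + ((Finset.Icc 0 (idx x)).card : ℝ) * C := by
    rw [Finset.sum_add_distrib, ← Finset.mul_sum, Finset.sum_const, nsmul_eq_mul]
  have h4 : (∑ k ∈ Finset.Icc 0 (idx x), (k : ℝ)) ≤ x := by
    have e1 := sum_Icc_tri (Nat.zero_le (idx x))
    have e2 := tri_idx_le x
    have e3 : (∑ k ∈ Finset.Icc 0 (idx x), k) ≤ x := by omega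
    have e4 : ((∑ k ∈ Finset.Icc 0 (idx x), k : ℕ) : ℝ) ≤ x := Nat.cast_le.2 e3
    rw [Nat.cast_sum] at e4
    exact e4
  have h5 : ((Finset.Icc 0 (idx x)).card : ℝ) ≤ Real.sqrt (2 * x) + 1 := by
    rw [Nat.card_Icc]
    have e1 : ((idx x : ℕ) : ℝ) ≤ (Nat.sqrt (2 * x) : ℕ) := by exact_mod_cast idx_le_sqrt x
    have e2 := Real.nat_sqrt_le_real_sqrt (a := 2 * x)
    push_cast at e2
    have e3 : ((idx x + 1 - 0 : ℕ) : ℝ) = (idx x : ℝ) + 1 := by push_cast [Nat.sub_zero]; ring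
    rw [e3]
    linarith
  have h6 : (cnt false (2 * x) : ℝ) ≤ a * (2 * x) := by
    have := hX (2 * x) (by omega)
    push_cast at this
    exact this
  have h7 : Real.sqrt (2 * x) ≤ 2 * Real.sqrt x := by
    rw [Real.sqrt_le_left (by positivity), mul_pow, Real.sq_sqrt (by positivity)]
    linarith
  have h8 : 8 * C / ε ≤ Real.sqrt x := by
    apply Real.le_sqrt_of_sq_le
    exact (Nat.le_ceil _).trans (by exact_mod_cast hxc)
  have h9 : (1 : ℝ) ≤ Real.sqrt x := by
    rw [Real.one_le_sqrt]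
    exact hx1'
  have h10 : ((Finset.Icc 0 (idx x)).card : ℝ) * C ≤ 3 * Real.sqrt x * C := by
    apply mul_le_mul_of_nonneg_right _ (by linarith)
    linarith
  have h11 : 3 * Real.sqrt x * C ≤ ε * x := by
    have e1 : 8 * C ≤ ε * Real.sqrt x := by
      rw [div_le_iff₀ hε] at h8
      linarith
    have e2 : Real.sqrt x * Real.sqrt x = x := Real.mul_self_sqrt (by positivity)
    have e3 : 8 * C * Real.sqrt x ≤ ε * Real.sqrt x * Real.sqrt x :=
      mul_le_mul_of_nonneg_right e1 (by positivity)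
    have e4 : 0 ≤ C * Real.sqrt x := by positivity
    nlinarith
  have h12 : a * (∑ k ∈ Finset.Icc 0 (idx x), (k : ℝ)) ≤ a * x :=
    mul_le_mul_of_nonneg_left h4 ha0
  linarith

/-- If `N(x) ≤ a x` for all large `x`, then `P(x) ≤ 2 a x` for all large `x`. -/
theorem P_of_N {a : ℝ} (ha : ∀ᶠ x : ℕ in atTop, (cnt true x : ℝ) ≤ a * x) :
    ∀ᶠ x : ℕ in atTop, (cnt false x : ℝ) ≤ 2 * a * x := by
  obtain ⟨X, hX⟩ := eventually_atTop.1 ha
  refine eventually_atTop.2 ⟨X, fun x hx => ?_⟩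
  have h1 := hX (2 * x) (by omega)
  have h2 : (cnt false x : ℝ) ≤ cnt true (2 * x) := by exact_mod_cast P_le_N x
  push_cast at h1
  linarith

end Trib
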