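import Pool.Agent.Lib.MP_841d01_co.DensE

/-!
# MP_841d01_co : upper densities of the `P`- and `N`-positions, limsup form
-/

namespace Trib

open Filter Topology

/-- The proportion of a counting function. -/
theorem ratio_le_one (f : ℕ → ℕ) (hf : ∀ x, f x ≤ x) (x : ℕ) : (f x : ℝ) / x ≤ 1 := by
  rcases Nat.eq_zero_or_pos x with rfl | hx
  · simp
  · rw [div_le_one (by exact_mod_cast hx)]
    exact_mod_cast hf x

theorem ratio_nonneg (f : ℕ → ℕ) (x : ℕ) : (0 : ℝ) ≤ (f x : ℝ) / x := by positivity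

theorem bdd_above (f : ℕ → ℕ) (hf : ∀ x, f x ≤ x) :
    IsBoundedUnder (· ≤ ·) atTop (fun x : ℕ => (f x : ℝ) / x) :=
  isBoundedUnder_of ⟨1, ratio_le_one f hf⟩

theorem bdd_below (f : ℕ → ℕ) : IsBoundedUnder (· ≥ ·) atTop (fun x : ℕ => (f x : ℝ) / x) :=
  isBoundedUnder_of ⟨0, ratio_nonneg f⟩

theorem ev_le_of_limsup (f : ℕ → ℕ) (hf : ∀ x, f x ≤ x) {a : ℝ}
    (h : limsup (fun x : ℕ => (f x : ℝ) / x) atTop < a) : ∀ᶠ x : ℕ in atTop, (f x : ℝ) ≤ a * x := by
  have h1 := eventually_lt_of_limsup_lt h (bdd_above f hf)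
  filter_upwards [h1, eventually_ge_atTop 1] with x hx hx1
  have hx0 : (0 : ℝ) < x := by exact_mod_cast hx1
  have := (div_lt_iff₀ hx0).1 hx
  exact this.le

theorem limsup_le_of_ev (f : ℕ → ℕ) {a : ℝ}
    (h : ∀ᶠ x : ℕ in atTop, (f x : ℝ) ≤ a * x) :
    limsup (fun x : ℕ => (f x : ℝ) / x) atTop ≤ a := by
  refine limsup_le_of_le ((bdd_below f).isCoboundedUnder_le) ?_
  filter_upwards [h, eventually_ge_atTop 1] with x hx hx1
  have hx0 : (0 : ℝ) < x := by exact_mod_cast hx1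
  rw [div_le_iff₀ hx0]
  exact hx

theorem limsup_nonneg (f : ℕ → ℕ) (hf : ∀ x, f x ≤ x) :
    0 ≤ limsup (fun x : ℕ => (f x : ℝ) / x) atTop :=
  le_limsup_of_le (bdd_above f hf) fun _ h => by
    obtain ⟨x, hx⟩ := h.exists
    exact (ratio_nonneg f x).trans hx

theorem N_limsup : limsup (fun x : ℕ => (cnt true x : ℝ) / x) atTop ≤
    3 * limsup (fun x : ℕ => (cnt false x : ℝ) / x) atTop := by
  apply le_of_forall_pos_le_add
  intro ε hε
  set p := limsup (fun x : ℕ => (cnt false x : ℝ) / x) atTop with hp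
  have hp0 : 0 ≤ p := limsup_nonneg (cnt false) (cnt_le_self false)
  have h1 : ∀ᶠ x : ℕ in atTop, (cnt false x : ℝ) ≤ (p + ε / 6) * x :=
    ev_le_of_limsup (cnt false) (cnt_le_self false) (by rw [← hp]; linarith)
  have h2 := N_of_P (by positivity) h1 (ε / 2) (by positivity)
  have h3 := limsup_le_of_ev (cnt true) h2
  linarith

theorem P_limsup : limsup (fun x : ℕ => (cnt false x : ℝ) / x) atTop ≤
    2 * limsup (fun x : ℕ => (cnt true x : ℝ) / x) atTop := by
  apply le_of_forall_pos_le_add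
  intro ε hε
  set p := limsup (fun x : ℕ => (cnt true x : ℝ) / x) atTop with hp
  have h1 : ∀ᶠ x : ℕ in atTop, (cnt true x : ℝ) ≤ (p + ε / 2) * x :=
    ev_le_of_limsup (cnt true) (cnt_le_self true) (by rw [← hp]; linarith)
  have h2 := P_of_N h1
  have h3 := limsup_le_of_ev (cnt false) h2
  linarith

/-- `1 - liminf O(x)/x ≤ limsup P(x)/x + limsup N(x)/x`. -/
theorem total_limsup : 1 - liminf (fun x : ℕ => (cntO x : ℝ) / x) atTop ≤
    limsup (fun x : ℕ => (cnt false x : ℝ) / x) atTop +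
      limsup (fun x : ℕ => (cnt true x : ℝ) / x) atTop := by
  apply le_of_forall_pos_le_add
  intro ε hε
  set p := limsup (fun x : ℕ => (cnt false x : ℝ) / x) atTop with hp
  set q := limsup (fun x : ℕ => (cnt true x : ℝ) / x) atTop with hq
  have h1 : ∀ᶠ x : ℕ in atTop, (cnt false x : ℝ) ≤ (p + ε / 2) * x :=
    ev_le_of_limsup (cnt false) (cnt_le_self false) (by rw [← hp]; linarith)
  have h2 : ∀ᶠ x : ℕ in atTop, (cnt true x : ℝ) ≤ (q + ε / 2) * x :=
    ev_le_of_limsup (cnt true) (cnt_le_self true) (by rw [← hq]; linarith)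
  have h3 : ∀ᶠ x : ℕ in atTop, 1 - (p + q + ε) ≤ (cntO x : ℝ) / x := by
    filter_upwards [h1, h2, eventually_ge_atTop 1] with x ha hb hx1
    have hx0 : (0 : ℝ) < x := by exact_mod_cast hx1
    have h4 : (cnt false x : ℝ) + cnt true x + cntO x = x := by exact_mod_cast cnt_total x
    rw [le_div_iff₀ hx0]
    nlinarith
  have hO : ∀ x, cntO x ≤ x := fun x => by
    have := cnt_total x
    omega
  have h4 : 1 - (p + q + ε) ≤ liminf (fun x : ℕ => (cntO x : ℝ) / x) atTop :=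
    le_liminf_of_le ((bdd_above cntO hO).isCoboundedUnder_ge) h3
  linarith

end Trib
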