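import Pool.Agent.Lib.MP_841d01_co.DensF

/-!
# MP_841d01_co : the rows `T_k, ..., T_k + k`
-/

namespace Trib

open Filter Topology

/-- The number of the `r ≤ k` with `W r`. -/
theorem row_true (k : ℕ) (W : ℕ → Prop) [DecidablePred W] (hW : ∀ r, W r ↔ Win true r) :
    ((Finset.range (k + 1)).filter fun r => W r).card = cnt true k := by
  classical
  unfold cnt
  have h0 : ¬ W 0 := by
    rw [hW]
    exact win_excl Win.zero
  congr 1
  ext r
  rw [Finset.mem_filter, Finset.mem_filter, Finset.mem_range, Finset.mem_Icc, hW]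
  constructor
  · rintro ⟨h1, h2⟩
    refine ⟨⟨?_, by omega⟩, h2⟩
    rcases Nat.eq_zero_or_pos r with rfl | h
    · exact absurd ((hW 0).2 h2) h0
    · exact h
  · rintro ⟨h1, h2⟩
    exact ⟨by omega, h2⟩

/-- A `P`-position `T_k + t` has `t` in `N`. -/
theorem P_le_rows (x : ℕ) : cnt false x ≤ ∑ k ∈ Finset.Icc 0 (idx x), cnt true k := by
  classical
  have h1 : ∑ k ∈ Finset.Icc 0 (idx x), cnt true k =
      ((Finset.Icc 0 (idx x)).sigma fun k =>
        (Finset.range (k + 1)).filter fun r => Win true r).card := by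
    rw [Finset.card_sigma]
    exact Finset.sum_congr rfl fun k _ => (row_true k (fun r => Win true r) fun _ => Iff.rfl).symm
  rw [h1]
  unfold cnt
  refine Finset.card_le_card_of_injOn (fun n => ⟨idx n, n - tau n⟩) (fun n hn => ?_) ?_
  · rw [Finset.mem_coe, Finset.mem_filter, Finset.mem_Icc] at hn
    rw [Finset.mem_coe, Finset.mem_sigma, Finset.mem_Icc, Finset.mem_filter, Finset.mem_range]
    have h2 := le_tau_add n
    refine ⟨⟨Nat.zero_le _, idx_mono hn.1.2⟩, by show n - tau n < idx n + 1; omega, ?_⟩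
    obtain ⟨⟨ha, -⟩, hw⟩ := hn
    cases hw with
    | zero => omega
    | both _ h₁ _ => exact h₁
  · intro n _ n' _ e
    have e1 : idx n = idx n' := congrArg Sigma.fst e
    have e2 : n - tau n = n' - tau n' := by
      have := congrArg Sigma.snd e
      simpa using this
    have e3 : tau n = tau n' := by unfold tau; rw [e1]
    have e4 := tau_le n
    have e5 := tau_le n'
    omega

/-- The positions `T_k + t`, `t` in `P` or `0`, are in `N`. -/
theorem rows_le_N (x : ℕ) : ∑ k ∈ Finset.Ico 1 (idx x), cnt false k ≤ cnt true x := by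
  classical
  have h1 : ∑ k ∈ Finset.Ico 1 (idx x), cnt false k =
      ((Finset.Ico 1 (idx x)).sigma fun k =>
        (Finset.Icc 1 k).filter fun r => Win false r).card := by
    rw [Finset.card_sigma]
    rfl
  rw [h1]
  unfold cnt
  refine Finset.card_le_card_of_injOn (fun v => tri v.1 + v.2) (fun v hv => ?_) ?_
  · rw [Finset.mem_coe, Finset.mem_sigma, Finset.mem_Ico, Finset.mem_filter, Finset.mem_Icc] at hv
    rw [Finset.mem_coe, Finset.mem_filter, Finset.mem_Icc]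
    obtain ⟨⟨ha, hb⟩, ⟨hc, hd⟩, hw⟩ := hv
    refine ⟨⟨by show 1 ≤ tri v.1 + v.2; omega, ?_⟩, win_true_of_rem ha hd hw⟩
    have e1 : tri (v.1 + 1) ≤ tri (idx x) := tri_mono hb
    rw [tri_succ] at e1
    have e2 := tri_idx_le x
    show tri v.1 + v.2 ≤ x
    omega
  · rintro ⟨k, r⟩ hv ⟨k', r'⟩ hv' e
    rw [Finset.mem_coe, Finset.mem_sigma, Finset.mem_Ico, Finset.mem_filter, Finset.mem_Icc] at hv hv'
    obtain ⟨e1, e2⟩ := tri_add_inj hv.2.1.2 hv'.2.1.2 e
    subst e1; subst e2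
    rfl

/-- If `N(x) ≤ a x` for all large `x`, then `P(x) ≤ (a + ε) x` for all large `x`. -/
theorem P_of_N' {a : ℝ} (ha0 : 0 ≤ a) (ha : ∀ᶠ x : ℕ in atTop, (cnt true x : ℝ) ≤ a * x) (ε : ℝ)
    (hε : 0 < ε) : ∀ᶠ x : ℕ in atTop, (cnt false x : ℝ) ≤ (a + ε) * x := by
  obtain ⟨X, hX⟩ := eventually_atTop.1 ha
  have hk : ∀ k : ℕ, (cnt true k : ℝ) ≤ a * k + X := by
    intro k
    rcases le_total X k with h | h
    · have := hX k h
      have hX0 : (0 : ℝ) ≤ X := Nat.cast_nonneg X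
      linarith
    · have h1 : (cnt true k : ℝ) ≤ k := by exact_mod_cast cnt_le_self true k
      have h2 : (k : ℝ) ≤ X := by exact_mod_cast h
      have h3 : 0 ≤ a * (k : ℝ) := by positivity
      linarith
  set C : ℝ := (X : ℝ) with hC
  have hC0 : 0 ≤ C := Nat.cast_nonneg X
  refine eventually_atTop.2 ⟨max 1 ⌈(8 * C / ε) ^ 2⌉₊, fun x hx => ?_⟩
  have hx1 : 1 ≤ x := (le_max_left _ _).trans hx
  have hxc : ⌈(8 * C / ε) ^ 2⌉₊ ≤ x := (le_max_right _ _).trans hx
  have hx1' : (1 : ℝ) ≤ x := by exact_mod_cast hx1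
  have h1 := P_le_rows x
  have h2 : (cnt false x : ℝ) ≤ ∑ k ∈ Finset.Icc 0 (idx x), (cnt true k : ℝ) := by
    exact_mod_cast h1
  have h3 : (∑ k ∈ Finset.Icc 0 (idx x), (cnt true k : ℝ)) ≤
      ∑ k ∈ Finset.Icc 0 (idx x), (a * (k : ℝ) + C) :=
    Finset.sum_le_sum fun k _ => hk k
  have h3r : ∑ k ∈ Finset.Icc 0 (idx x), (a * (k : ℝ) + C) =
      a * (∑ k ∈ Finset.Icc 0 (idx x), (k : ℝ)) + ((Finset.Icc 0 (idx x)).card : ℝ) * C := by
    rw [Finset.sum_add_distrib, ← Finset.mul_sum, Finset.sum_const, nsmul_eq_mul]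
  have h4 : (∑ k ∈ Finset.Icc 0 (idx x), (k : ℝ)) ≤ x := by
    have e1 := sum_Icc_tri (Nat.zero_le (idx x))
    have e2 := tri_idx_le x
    have e3 : (∑ k ∈ Finset.Icc 0 (idx x), k) ≤ x := by omega
    have e4 : ((∑ k ∈ Finset.Icc 0 (idx x), k : ℕ) : ℝ) ≤ x := Nat.cast_le.2 e3
    rw [Nat.cast_sum] at e4
    exact e4
  have h5 : ((Finset.Icc 0 (idx x)).card : ℝ) ≤ Real.sqrt (2 * x) + 1 := by
    rw [Nat.card_Icc]
    have e1 : ((idx x : ℕ) : ℝ) ≤ (Nat.sqrt (2 * x) : ℕ) := by exact_mod_cast idx_le_sqrt x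
    have e2 := Real.nat_sqrt_le_real_sqrt (a := 2 * x)
    push_cast at e2
    have e3 : ((idx x + 1 - 0 : ℕ) : ℝ) = (idx x : ℝ) + 1 := by push_cast [Nat.sub_zero]; ring
    rw [e3]
    linarith
  have h7 : Real.sqrt (2 * x) ≤ 2 * Real.sqrt x := by
    rw [Real.sqrt_le_left (by positivity), mul_pow, Real.sq_sqrt (by positivity)]
    linarith
  have h8 : 8 * C / ε ≤ Real.sqrt x := by
    apply Real.le_sqrt_of_sq_le
    exact (Nat.le_ceil _).trans (by exact_mod_cast hxc)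
  have h9 : (1 : ℝ) ≤ Real.sqrt x := by
    rw [Real.one_le_sqrt]
    exact hx1'
  have h10 : ((Finset.Icc 0 (idx x)).card : ℝ) * C ≤ 3 * Real.sqrt x * C := by
    apply mul_le_mul_of_nonneg_right _ hC0
    linarith
  have h11 : 3 * Real.sqrt x * C ≤ ε * x := by
    have e1 : 8 * C ≤ ε * Real.sqrt x := by
      rw [div_le_iff₀ hε] at h8
      linarith
    have e2 : Real.sqrt x * Real.sqrt x = x := Real.mul_self_sqrt (by positivity)
    have e3 : 8 * C * Real.sqrt x ≤ ε * Real.sqrt x * Real.sqrt x :=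
      mul_le_mul_of_nonneg_right e1 (by positivity)
    have e4 : 0 ≤ C * Real.sqrt x := by positivity
    nlinarith
  have h12 : a * (∑ k ∈ Finset.Icc 0 (idx x), (k : ℝ)) ≤ a * x :=
    mul_le_mul_of_nonneg_left h4 ha0
  linarith

/-- If `P(x) ≥ b x` for all large `x`, then `N(x) ≥ (b - ε) x` for all large `x`. -/
theorem N_ge_of_P {b : ℝ} (hb0 : 0 ≤ b) (hb : ∀ᶠ x : ℕ in atTop, b * x ≤ (cnt false x : ℝ)) (ε : ℝ)
    (hε : 0 < ε) : ∀ᶠ x : ℕ in atTop, (b - ε) * x ≤ (cnt true x : ℝ) := by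
  obtain ⟨X, hX⟩ := eventually_atTop.1 hb
  have hb1 : b ≤ 1 := by
    have h1 := hX (X + 1) (by omega)
    have h2 : (cnt false (X + 1) : ℝ) ≤ (X + 1 : ℕ) := by exact_mod_cast cnt_le_self false (X + 1)
    have h3 : (0 : ℝ) < (X + 1 : ℕ) := by positivity
    by_contra hcon
    push Not at hcon
    nlinarith
  have hk : ∀ k : ℕ, b * k - X ≤ (cnt false k : ℝ) := by
    intro k
    rcases le_total X k with h | h
    · have := hX k h
      have hX0 : (0 : ℝ) ≤ X := Nat.cast_nonneg X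
      linarith
    · have h2 : (k : ℝ) ≤ X := by exact_mod_cast h
      have h3 : (0 : ℝ) ≤ cnt false k := Nat.cast_nonneg _
      have h4 : (0 : ℝ) ≤ k := Nat.cast_nonneg _
      nlinarith
  set C : ℝ := (X : ℝ) with hC
  have hC0 : 0 ≤ C := Nat.cast_nonneg X
  refine eventually_atTop.2 ⟨max 1 ⌈(8 * (C + 1) / ε) ^ 2⌉₊, fun x hx => ?_⟩
  have hx1 : 1 ≤ x := (le_max_left _ _).trans hx
  have hxc : ⌈(8 * (C + 1) / ε) ^ 2⌉₊ ≤ x := (le_max_right _ _).trans hx
  have hx1' : (1 : ℝ) ≤ x := by exact_mod_cast hx1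
  have h1 := rows_le_N x
  have h2 : ∑ k ∈ Finset.Ico 1 (idx x), (cnt false k : ℝ) ≤ (cnt true x : ℝ) := by
    exact_mod_cast h1
  have h3 : ∑ k ∈ Finset.Ico 1 (idx x), (b * (k : ℝ) - C) ≤
      ∑ k ∈ Finset.Ico 1 (idx x), (cnt false k : ℝ) :=
    Finset.sum_le_sum fun k _ => hk k
  have h3r : ∑ k ∈ Finset.Ico 1 (idx x), (b * (k : ℝ) - C) =
      b * (∑ k ∈ Finset.Ico 1 (idx x), (k : ℝ)) - ((Finset.Ico 1 (idx x)).card : ℝ) * C := by
    rw [Finset.sum_sub_distrib, ← Finset.mul_sum, Finset.sum_const, nsmul_eq_mul]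
  have hid1 : 1 ≤ idx x := by
    have := lt_tri_idx x
    by_contra hcon
    have h0 : idx x = 0 := by omega
    rw [h0] at this
    simp [tri] at this
    omega
  have h4 : (x : ℝ) - 2 * idx x ≤ ∑ k ∈ Finset.Ico 1 (idx x), (k : ℝ) := by
    have e0 : ∀ m : ℕ, 1 ≤ m → (∑ k ∈ Finset.Ico 1 m, k) + m = tri m := by
      intro m hm
      induction m, hm using Nat.le_induction with
      | base => simp [tri]
      | succ m hm ih =>
        rw [Finset.sum_Ico_succ_top hm, tri_succ, ← ih]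
    have e1 := e0 (idx x) hid1
    have e2 := lt_tri_idx x
    have e3 : x ≤ (∑ k ∈ Finset.Ico 1 (idx x), k) + 2 * idx x := by omega
    have e4 : (x : ℝ) ≤ ((∑ k ∈ Finset.Ico 1 (idx x), k : ℕ) : ℝ) + 2 * (idx x : ℕ) := by
      exact_mod_cast e3
    rw [Nat.cast_sum] at e4
    linarith
  have hid : ((idx x : ℕ) : ℝ) ≤ 2 * Real.sqrt x := by
    have e1 : ((idx x : ℕ) : ℝ) ≤ (Nat.sqrt (2 * x) : ℕ) := by exact_mod_cast idx_le_sqrt x
    have e2 := Real.nat_sqrt_le_real_sqrt (a := 2 * x)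
    push_cast at e2
    have e3 : Real.sqrt (2 * x) ≤ 2 * Real.sqrt x := by
      rw [Real.sqrt_le_left (by positivity), mul_pow, Real.sq_sqrt (by positivity)]
      linarith
    linarith
  have h5 : ((Finset.Ico 1 (idx x)).card : ℝ) ≤ 2 * Real.sqrt x := by
    rw [Nat.card_Ico]
    refine le_trans ?_ hid
    exact_mod_cast Nat.sub_le _ _
  have h8 : 8 * (C + 1) / ε ≤ Real.sqrt x := by
    apply Real.le_sqrt_of_sq_le
    exact (Nat.le_ceil _).trans (by exact_mod_cast hxc)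
  have h10 : ((Finset.Ico 1 (idx x)).card : ℝ) * C ≤ 2 * Real.sqrt x * C :=
    mul_le_mul_of_nonneg_right h5 hC0
  have h11 : 4 * Real.sqrt x * (C + 1) ≤ ε * x := by
    have e1 : 8 * (C + 1) ≤ ε * Real.sqrt x := by
      rw [div_le_iff₀ hε] at h8
      linarith
    have e2 : Real.sqrt x * Real.sqrt x = x := Real.mul_self_sqrt (by positivity)
    have e3 : 8 * (C + 1) * Real.sqrt x ≤ ε * Real.sqrt x * Real.sqrt x :=
      mul_le_mul_of_nonneg_right e1 (by positivity)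
    have e4 : 0 ≤ (C + 1) * Real.sqrt x := by positivity
    nlinarith
  have h12 : b * ((x : ℝ) - 2 * idx x) ≤ b * (∑ k ∈ Finset.Ico 1 (idx x), (k : ℝ)) :=
    mul_le_mul_of_nonneg_left h4 hb0
  have h13 : b * (idx x : ℝ) ≤ 2 * Real.sqrt x := by
    have : b * (idx x : ℝ) ≤ 1 * (idx x : ℝ) :=
      mul_le_mul_of_nonneg_right hb1 (Nat.cast_nonneg _)
    linarith
  have h14 : 0 ≤ Real.sqrt x * C := by positivity
  nlinarith

end Trib
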