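import Pool.Agent.Lib.MP_841d01_co.DensG

/-!
# MP_841d01_co : comparison of the densities of the `P`- and `N`-positions
-/

namespace Trib

open Filter Topology

/-- The upper density of a counting function `f`: the limsup of `f x / x`. -/
noncomputable def upD (f : ℕ → ℕ) : ℝ := limsup (fun x : ℕ => (f x : ℝ) / x) atTop

/-- The lower density of a counting function `f`: the liminf of `f x / x`. -/
noncomputable def lowD (f : ℕ → ℕ) : ℝ := liminf (fun x : ℕ => (f x : ℝ) / x) atTop

theorem upD_N_le : upD (cnt true) ≤ 3 * upD (cnt false) := N_limsup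

theorem upD_P_le : upD (cnt false) ≤ upD (cnt true) := by
  apply le_of_forall_pos_le_add
  intro ε hε
  have h0 : 0 ≤ upD (cnt true) := limsup_nonneg (cnt true) (cnt_le_self true)
  have h1 : ∀ᶠ x : ℕ in atTop, (cnt true x : ℝ) ≤ (upD (cnt true) + ε / 2) * x :=
    ev_le_of_limsup (cnt true) (cnt_le_self true) (by
      show upD (cnt true) < _
      linarith)
  have h2 := P_of_N' (by positivity) h1 (ε / 2) (by positivity)
  have h3 : upD (cnt false) ≤ upD (cnt true) + ε / 2 + ε / 2 := limsup_le_of_ev (cnt false) h2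
  linarith

theorem lowD_P_le : lowD (cnt false) ≤ lowD (cnt true) := by
  apply le_of_forall_pos_le_add
  intro ε hε
  rcases le_or_gt (lowD (cnt false)) (ε / 2) with h | h
  · have h0 : 0 ≤ lowD (cnt true) :=
      le_liminf_of_le ((bdd_above (cnt true) (cnt_le_self true)).isCoboundedUnder_ge)
        (Eventually.of_forall (ratio_nonneg (cnt true)))
    linarith
  · have h1 : ∀ᶠ x : ℕ in atTop, lowD (cnt false) - ε / 2 < (cnt false x : ℝ) / x :=
      eventually_lt_of_lt_liminf (by
        show lowD (cnt false) - ε / 2 < lowD (cnt false)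
        linarith) (bdd_below (cnt false))
    have h2 : ∀ᶠ x : ℕ in atTop, (lowD (cnt false) - ε / 2) * x ≤ (cnt false x : ℝ) := by
      filter_upwards [h1, eventually_ge_atTop 1] with x hx hx1
      have hx0 : (0 : ℝ) < x := by exact_mod_cast hx1
      exact ((lt_div_iff₀ hx0).1 hx).le
    have h3 := N_ge_of_P (by linarith) h2 (ε / 2) (by positivity)
    have h4 : lowD (cnt false) - ε / 2 - ε / 2 ≤ lowD (cnt true) := by
      refine le_liminf_of_le
        ((bdd_above (cnt true) (cnt_le_self true)).isCoboundedUnder_ge) ?_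
      filter_upwards [h3, eventually_ge_atTop 1] with x hx hx1
      have hx0 : (0 : ℝ) < x := by exact_mod_cast hx1
      rw [le_div_iff₀ hx0]
      exact hx
    linarith

theorem total_dens : 1 - lowD cntO ≤ upD (cnt false) + upD (cnt true) := total_limsup

/-- The possible limits of `N(x)/P(x)`. -/
theorem limit_range (h : ∀ n, ¬ Draw n) (L : ℝ)
    (hL : Tendsto (fun x : ℕ => (cnt true x : ℝ) / cnt false x) atTop (𝓝 L)) : 1 ≤ L ∧ L ≤ 3 := by
  have hO : ∀ x, cntO x = 0 := fun x => by
    classical
    unfold cntO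
    rw [Finset.card_eq_zero, Finset.filter_eq_empty_iff]
    exact fun n _ => h n
  have hL0 : 0 ≤ L := ge_of_tendsto' hL fun x => by positivity
  -- `P(x) > 0` for large `x`
  have hPpos : ∀ x : ℕ, 8100000000 ≤ x → (0 : ℝ) < cnt false x := by
    intro x hx
    by_contra hcon
    have h1 : (cnt false x : ℝ) = 0 := le_antisymm (not_lt.1 hcon) (Nat.cast_nonneg _)
    have h4 := N_le x
    have h5 : (cnt false x : ℝ) + cnt true x + cntO x = x := by exact_mod_cast cnt_total x
    rw [h1, hO x] at h5
    rw [h1, hO x, rpow_three_quarters] at h4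
    push_cast at h4 h5
    set s : ℝ := Real.sqrt x with hs
    set u : ℝ := Real.sqrt s with hu
    have hx' : (8100000000 : ℝ) ≤ x := by exact_mod_cast hx
    have hs1 : (90000 : ℝ) ≤ s := by
      rw [hs]
      apply Real.le_sqrt_of_sq_le
      linarith
    have hu1 : (300 : ℝ) ≤ u := by
      rw [hu]
      apply Real.le_sqrt_of_sq_le
      linarith
    have hss : s * s = x := Real.mul_self_sqrt (by positivity)
    have huu : u * u = s := Real.mul_self_sqrt (by positivity)
    have h6 : s * s ≤ 234 * (s * u) := by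
      rw [hss]
      linarith
    have h7 : s ≤ 234 * u := by
      have hs0 : 0 < s := by linarith
      nlinarith
    nlinarith
  have h2 : Tendsto (fun x : ℕ => (cnt false x : ℝ) / x) atTop (𝓝 (1 / (L + 1))) := by
    have h3 : Tendsto (fun x : ℕ => 1 / ((cnt true x : ℝ) / cnt false x + 1)) atTop
        (𝓝 (1 / (L + 1))) :=
      tendsto_const_nhds.div (hL.add_const 1) (by linarith)
    refine h3.congr' ?_
    filter_upwards [eventually_ge_atTop 8100000000] with x hx
    have h4 := hPpos x hx
    have h5 : (cnt false x : ℝ) + cnt true x + cntO x = x := by exact_mod_cast cnt_total x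
    rw [hO x] at h5
    push_cast at h5
    rw [← h5]
    field_simp
    ring
  have h3 : Tendsto (fun x : ℕ => (cnt true x : ℝ) / x) atTop (𝓝 (1 - 1 / (L + 1))) := by
    refine (h2.const_sub 1).congr' ?_
    filter_upwards [eventually_ge_atTop 1] with x hx
    have hx0 : (0 : ℝ) < x := by exact_mod_cast hx
    have h5 : (cnt false x : ℝ) + cnt true x + cntO x = x := by exact_mod_cast cnt_total x
    rw [hO x] at h5
    push_cast at h5
    rw [eq_div_iff hx0.ne', sub_mul, div_mul_cancel₀ _ hx0.ne']
    linarith
  have e1 : upD (cnt false) = 1 / (L + 1) := h2.limsup_eq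
  have e2 : upD (cnt true) = 1 - 1 / (L + 1) := h3.limsup_eq
  have f1 := upD_P_le
  have f2 := upD_N_le
  rw [e1, e2] at f1 f2
  have hL1 : 0 < L + 1 := by linarith
  have g1 : 1 / (L + 1) * (L + 1) = 1 := by field_simp
  constructor
  · have : 2 * (1 / (L + 1)) ≤ 1 := by linarith
    nlinarith
  · have : 1 ≤ 4 * (1 / (L + 1)) := by linarith
    nlinarith

end Trib
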