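import Pool.Agent.Lib.MP_841d01_co.Cheb
import Pool.Agent.Lib.MP_841d01_co.Dual
import Pool.Agent.Lib.MP_841d01_co.Kst

/-!
# MP_841d01_co : few bad partners of one number
-/

namespace Trib

open Filter Asymptotics Topology

private theorem db_ker {D' : ℤ} (hD' : D' ≠ 0) : ∃ D0 : ℤ, D0 ≠ 0 ∧
    ∀ D : ℤ, IsSquare (D * D') → ∃ e : ℕ, D = D0 * (e : ℤ) ^ 2 := by
  obtain ⟨a, b, hab, ha⟩ := Nat.sq_mul_squarefree D'.natAbs
  have hb : b ≠ 0 := by
    rintro rfl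
    apply hD'
    rw [← Int.natAbs_eq_zero, ← hab]
    simp
  have ha0 : a ≠ 0 := ha.ne_zero
  have hs0 : D'.sign ≠ 0 := by
    rw [Ne, Int.sign_eq_zero_iff_zero]
    exact hD'
  have hss : D'.sign * D'.sign = 1 := by
    rcases lt_or_gt_of_ne hD' with h | h
    · rw [Int.sign_eq_neg_one_of_neg h]; norm_num
    · rw [Int.sign_eq_one_of_pos h]; norm_num
  have haz : (a : ℤ) ≠ 0 := by exact_mod_cast ha0
  have hbz : (b : ℤ) ≠ 0 := by exact_mod_cast hb
  refine ⟨D'.sign * a, mul_ne_zero hs0 haz, fun D hD => ?_⟩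
  obtain ⟨x, hx⟩ := hD
  have hD'e : D' = D'.sign * ((b : ℤ) ^ 2 * a) := by
    conv_lhs => rw [← Int.sign_mul_natAbs D']
    rw [← hab]
    push_cast
    ring
  have hbx : (b : ℤ) ∣ x := by
    have h1 : (b : ℤ) ^ 2 ∣ x ^ 2 := by
      refine ⟨D * D'.sign * a, ?_⟩
      rw [sq x, ← hx]
      conv_lhs => rw [hD'e]
      ring
    exact (Int.pow_dvd_pow_iff two_ne_zero).1 h1
  obtain ⟨y, rfl⟩ := hbx
  have h2 : D * (D'.sign * a) = y ^ 2 := by
    have h3 : (b : ℤ) ^ 2 * (D * (D'.sign * a)) = (b : ℤ) ^ 2 * y ^ 2 := by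
      have h4 : D * (D'.sign * ((b : ℤ) ^ 2 * a)) = b * y * (b * y) := by
        rw [← hD'e]
        exact hx
      calc (b : ℤ) ^ 2 * (D * (D'.sign * a)) = D * (D'.sign * ((b : ℤ) ^ 2 * a)) := by ring
        _ = b * y * (b * y) := h4
        _ = _ := by ring
    exact mul_left_cancel₀ (pow_ne_zero 2 hbz) h3
  have hay : (a : ℤ) ∣ y := by
    have h5 : (a : ℤ) ∣ y ^ 2 := ⟨D * D'.sign, by rw [← h2]; ring⟩
    have hsq : Squarefree (a : ℤ) := Int.squarefree_natCast.2 ha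
    exact (hsq.dvd_pow_iff_dvd two_ne_zero).1 h5
  obtain ⟨z, rfl⟩ := hay
  refine ⟨z.natAbs, ?_⟩
  rw [Int.natAbs_sq]
  have h6 : (a : ℤ) * (D * D'.sign) = (a : ℤ) * (a * z ^ 2) := by
    calc (a : ℤ) * (D * D'.sign) = D * (D'.sign * a) := by ring
      _ = (a * z) ^ 2 := h2
      _ = _ := by ring
  have h7 := mul_left_cancel₀ haz h6
  calc D = D * (D'.sign * D'.sign) := by rw [hss, mul_one]
    _ = (D * D'.sign) * D'.sign := by ring
    _ = _ := by rw [h7]; ring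

private theorem db_log (k : ℝ) (n : ℕ) {δ : ℝ} (hδ : 0 < δ) :
    ∃ U₀ : ℕ, ∀ U : ℕ, U₀ ≤ U → k * Real.log U ^ n ≤ (U : ℝ) ^ δ := by
  have hk : 0 < 1 / (|k| + 1) := by positivity
  have h := (isLittleO_log_rpow_rpow_atTop (n : ℝ) hδ).bound hk
  have h2 := tendsto_natCast_atTop_atTop (R := ℝ) |>.eventually h
  obtain ⟨U₀, hU⟩ := eventually_atTop.1 h2
  refine ⟨U₀, fun U hU1 => ?_⟩
  have h3 := hU U hU1
  rw [Real.rpow_natCast, Real.norm_eq_abs, Real.norm_eq_abs,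
    abs_of_nonneg (Real.rpow_nonneg (Nat.cast_nonneg U) δ)] at h3
  have hpos : 0 < |k| + 1 := by positivity
  have h4 : (|k| + 1) * |Real.log U ^ n| ≤ (U : ℝ) ^ δ := by
    calc (|k| + 1) * |Real.log U ^ n| ≤ (|k| + 1) * (1 / (|k| + 1) * (U : ℝ) ^ δ) :=
          mul_le_mul_of_nonneg_left h3 hpos.le
      _ = (U : ℝ) ^ δ := by field_simp
  calc k * Real.log U ^ n ≤ |k * Real.log U ^ n| := le_abs_self _
    _ = |k| * |Real.log U ^ n| := abs_mul _ _
    _ ≤ (|k| + 1) * |Real.log U ^ n| :=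
        mul_le_mul_of_nonneg_right (by linarith) (abs_nonneg _)
    _ ≤ _ := h4

private theorem db_ne {p s : ℕ} : dd p s ≠ 0 := by
  have := dd_emod p s
  intro h
  rw [h] at this
  norm_num at this

theorem dd_abs {U p s : ℕ} (hU : 2 ≤ U) (hp : 16 * p ≤ U) (hs : 16 * s ≤ U ^ 2) :
    |dd p s| ≤ (U : ℤ) ^ 2 := by
  have h1 : (16 : ℤ) * p ≤ U := by exact_mod_cast hp
  have h2 : (16 : ℤ) * s ≤ (U : ℤ) ^ 2 := by exact_mod_cast hs
  have h3 : (2 : ℤ) ≤ U := by exact_mod_cast hU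
  have h4 : (0 : ℤ) ≤ p := Int.natCast_nonneg p
  have h5 : (0 : ℤ) ≤ s := Int.natCast_nonneg s
  unfold dd
  rw [abs_le]
  constructor <;> nlinarith

/-- few numbers `s` with `dd p s` in a given square class -/
private theorem sq_one {U p : ℕ} (hU : 2 ≤ U) (hp : 16 * p ≤ U) {S : Finset ℕ}
    (hS : ∀ s ∈ S, 16 * s ≤ U ^ 2) {D' : ℤ} (hD' : D' ≠ 0) :
    (S.filter fun s => IsSquare (dd p s * D')).card ≤ U + 1 := by
  classical
  obtain ⟨D0, hD0, h⟩ := db_ker hD'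
  have h1 : ∀ s, s ∈ S.filter (fun s => IsSquare (dd p s * D')) →
      ∃ e : ℕ, dd p s = D0 * (e : ℤ) ^ 2 := by
    intro s hs
    exact h _ (Finset.mem_filter.1 hs).2
  choose! e he using h1
  calc (S.filter fun s => IsSquare (dd p s * D')).card ≤ (Finset.range (U + 1)).card := by
        refine Finset.card_le_card_of_injOn e (fun s hs => ?_) ?_
        · have e1 := he s hs
          have e2 := dd_abs hU hp (hS s (Finset.mem_filter.1 hs).1)
          rw [e1, abs_mul] at e2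
          have e3 : 1 ≤ |D0| := Int.one_le_abs hD0
          have e4 : |(e s : ℤ) ^ 2| = (e s : ℤ) ^ 2 := abs_of_nonneg (sq_nonneg _)
          rw [e4] at e2
          have e5 : (e s : ℤ) ^ 2 ≤ (U : ℤ) ^ 2 := by
            have : (e s : ℤ) ^ 2 ≤ |D0| * (e s : ℤ) ^ 2 := by
              nlinarith [sq_nonneg (e s : ℤ)]
            linarith
          have e6 : (e s : ℤ) ≤ U := by
            exact le_of_sq_le_sq e5 (Int.natCast_nonneg U)
          rw [Finset.coe_range, Set.mem_Iio]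
          have e7 : e s ≤ U := by exact_mod_cast e6
          omega
        · intro s hs s' hs' hss
          have e1 := he s hs
          have e2 := he s' hs'
          rw [hss, ← e2] at e1
          unfold dd at e1
          omega
    _ = U + 1 := Finset.card_range _

/-- Every `p` has few bad partners `s`. -/
theorem bad_one : ∃ U₀ : ℕ, ∀ U : ℕ, U₀ ≤ U → ∀ p : ℕ, 16 * p ≤ U → ∀ B : Finset ℕ,
    (∀ s ∈ B, 16 * s ≤ U ^ 2) → (U : ℝ) ^ (3 / 2 : ℝ) ≤ (B.card : ℝ) →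
    2 * (B.filter fun s => 4 * ((QQ U).filter fun q => jacobiSym (dd p s) q = 1).card <
      (QQ U).card).card ≤ B.card := by
  obtain ⟨c, hc, U₁, hU₁, hcard⟩ := card_QQ
  set K : ℝ := 245760 * 3 ^ 10 / c ^ 5 with hK
  have hK0 : 0 < K := by positivity
  obtain ⟨V₁, hV₁⟩ := db_log (4 * K) 5 (δ := 1 / 2) (by norm_num)
  obtain ⟨V₃, hV₃⟩ := db_log (960 * 3 ^ 10 / c ^ 5) 5 (δ := 1) (by norm_num)
  obtain ⟨V₄, hV₄⟩ := db_log (6 / c) 1 (δ := 1) (by norm_num)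
  refine ⟨max (max U₁ V₁) (max V₃ V₄), fun U hU p hp B hB hBc => ?_⟩
  have u1 : U₁ ≤ U := (le_max_left _ _).trans ((le_max_left _ _).trans hU)
  have v1 := hV₁ U ((le_max_right _ _).trans ((le_max_left _ _).trans hU))
  have hU2 : max V₃ V₄ ≤ U := (le_max_right _ _).trans hU
  have v3 := hV₃ U ((le_max_left _ _).trans hU2)
  have v4 := hV₄ U ((le_max_right _ _).trans hU2)
  rw [Real.rpow_one] at v3 v4
  have hNc := hcard U u1
  have hUge2 : 2 ≤ U := hU₁.trans u1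
  have hUr : (2 : ℝ) ≤ U := by exact_mod_cast hUge2
  have hU0 : (0 : ℝ) < U := by linarith
  set L : ℝ := Real.log U with hL
  have hL0 : 0 < L := Real.log_pos (by linarith)
  set N : ℝ := ((QQ U).card : ℝ) with hN
  have hN1 : c * U ≤ N * L := by rwa [div_le_iff₀ hL0] at hNc
  have hN6 : (6 : ℝ) ≤ N := by
    have h1 : 6 * L ≤ c * U := by
      rw [pow_one, div_mul_eq_mul_div, div_le_iff₀ hc] at v4
      linarith
    have h2 : 6 * L ≤ N * L := h1.trans hN1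
    exact le_of_mul_le_mul_right h2 hL0
  have hN6' : 6 ≤ (QQ U).card := by
    have h1 : ((6 : ℕ) : ℝ) ≤ ((QQ U).card : ℝ) := by
      rw [← hN]; exact_mod_cast hN6
    exact Nat.cast_le.1 h1
  have hN0 : 0 < N := by linarith
  set S := B.filter fun s => 4 * ((QQ U).filter fun q => jacobiSym (dd p s) q = 1).card <
      (QQ U).card with hS
  have hSA : ∀ x ∈ S, x ∈ B ∧
      4 * ((QQ U).filter fun q => jacobiSym (dd p x) q = 1).card < (QQ U).card := by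
    intro x hx
    exact Finset.mem_filter.1 hx
  have hdual := dual S (fun x => dd p x) U hUge2 (fun x _ => dd_emod p x)
    (fun x hx => dd_abs hUge2 hp (hB _ (hSA x hx).1)) hN6'
    (fun x hx => (hSA x hx).2)
  set s : ℝ := (S.card : ℝ) with hs
  have hs0 : 0 ≤ s := Nat.cast_nonneg _
  set E : ℝ := (U : ℝ) + 1 with hE
  have hE0 : 0 ≤ E := by positivity
  have hR : (((S ×ˢ S).filter fun x : ℕ × ℕ =>
      IsSquare (dd p x.1 * dd p x.2)).card : ℝ) ≤ s * E := by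
    have h1 : ((S ×ˢ S).filter fun x : ℕ × ℕ =>
        IsSquare (dd p x.1 * dd p x.2)).card =
        ∑ y ∈ S, (S.filter fun x => IsSquare (dd p x * dd p y)).card := by
      rw [Finset.card_filter, Finset.sum_product_right]
      refine Finset.sum_congr rfl fun y _ => ?_
      rw [Finset.card_filter]
    rw [h1]
    push_cast
    have h2 : ∀ y ∈ S, (((S.filter fun x => IsSquare (dd p x * dd p y)).card : ℕ) : ℝ)
        ≤ E := by
      intro y _
      have h3 := sq_one (U := U) (p := p) hUge2 hp (S := S) (fun s hs => hB s (hSA s hs).1)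
        (D' := dd p y) db_ne
      rw [hE]
      exact_mod_cast h3
    calc ∑ y ∈ S, (((S.filter fun x => IsSquare (dd p x * dd p y)).card : ℕ) : ℝ)
        ≤ ∑ _y ∈ S, E := Finset.sum_le_sum h2
      _ = s * E := by rw [Finset.sum_const, nsmul_eq_mul]
  -- the main inequality
  have m1 : c ^ 5 * (U : ℝ) ^ 5 ≤ N ^ 5 * L ^ 5 := by
    rw [← mul_pow, ← mul_pow]
    exact pow_le_pow_left₀ (by positivity) hN1 5
  have m2 : 960 * 3 ^ 10 * (U : ℝ) ^ 4 ≤ N ^ 5 := by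
    have h1 : 960 * 3 ^ 10 * L ^ 5 ≤ c ^ 5 * U := by
      rw [div_mul_eq_mul_div, div_le_iff₀ (by positivity)] at v3
      linarith
    have h2 : 960 * 3 ^ 10 * (U : ℝ) ^ 4 * L ^ 5 ≤ N ^ 5 * L ^ 5 := by
      refine le_trans ?_ m1
      have := mul_le_mul_of_nonneg_left h1 (show (0:ℝ) ≤ (U : ℝ) ^ 4 by positivity)
      calc 960 * 3 ^ 10 * (U : ℝ) ^ 4 * L ^ 5 = (U : ℝ) ^ 4 * (960 * 3 ^ 10 * L ^ 5) := by ring
        _ ≤ (U : ℝ) ^ 4 * (c ^ 5 * U) := this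
        _ = c ^ 5 * (U : ℝ) ^ 5 := by ring
    exact le_of_mul_le_mul_right h2 (by positivity)
  have m3 : s ≤ K * L ^ 5 * E := by
    rcases hs0.eq_or_lt with h0 | h0
    · rw [← h0]; positivity
    have h1 : s ^ 2 * (N / 3) ^ 10 ≤ 120 * N ^ 5 * (s * E * (1024 * (U : ℝ) ^ 5) +
        s ^ 2 * (4 * (U : ℝ) ^ 4)) := by
      refine hdual.trans ?_
      gcongr
    have h2 : 120 * N ^ 5 * (s ^ 2 * (4 * (U : ℝ) ^ 4)) ≤ s ^ 2 * (N / 3) ^ 10 / 2 := by
      have e1 : s ^ 2 * (N / 3) ^ 10 / 2 = s ^ 2 * N ^ 5 * N ^ 5 / (2 * 3 ^ 10) := by ring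
      rw [e1, le_div_iff₀ (by positivity)]
      calc 120 * N ^ 5 * (s ^ 2 * (4 * (U : ℝ) ^ 4)) * (2 * 3 ^ 10) =
            s ^ 2 * N ^ 5 * (960 * 3 ^ 10 * (U : ℝ) ^ 4) := by ring
        _ ≤ s ^ 2 * N ^ 5 * N ^ 5 := mul_le_mul_of_nonneg_left m2 (by positivity)
    have h3 : s ^ 2 * (N / 3) ^ 10 / 2 ≤ 120 * N ^ 5 * (s * E * (1024 * (U : ℝ) ^ 5)) := by
      have e2 : 120 * N ^ 5 * (s * E * (1024 * (U : ℝ) ^ 5) + s ^ 2 * (4 * (U : ℝ) ^ 4)) =
        120 * N ^ 5 * (s * E * (1024 * (U : ℝ) ^ 5)) +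
          120 * N ^ 5 * (s ^ 2 * (4 * (U : ℝ) ^ 4)) := by ring
      rw [e2] at h1
      linarith
    have h4 : s * N ^ 5 ≤ 245760 * 3 ^ 10 * E * (U : ℝ) ^ 5 := by
      have e3 : s ^ 2 * (N / 3) ^ 10 / 2 = (s * N ^ 5) * (s * N ^ 5 / (2 * 3 ^ 10)) := by ring
      have e4 : 120 * N ^ 5 * (s * E * (1024 * (U : ℝ) ^ 5)) =
        (245760 * 3 ^ 10 * E * (U : ℝ) ^ 5) * (s * N ^ 5 / (2 * 3 ^ 10)) := by ring
      rw [e3, e4] at h3
      exact le_of_mul_le_mul_right h3 (by positivity)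
    have h5 : s * N ^ 5 * c ^ 5 ≤ 245760 * 3 ^ 10 * E * (N ^ 5 * L ^ 5) := by
      calc s * N ^ 5 * c ^ 5 ≤ 245760 * 3 ^ 10 * E * (U : ℝ) ^ 5 * c ^ 5 :=
            mul_le_mul_of_nonneg_right h4 (by positivity)
        _ = 245760 * 3 ^ 10 * E * (c ^ 5 * (U : ℝ) ^ 5) := by ring
        _ ≤ _ := mul_le_mul_of_nonneg_left m1 (by positivity)
    have h6 : s ≤ 245760 * 3 ^ 10 * E * L ^ 5 / c ^ 5 := by
      rw [le_div_iff₀ (by positivity)]
      have h7 : (s * c ^ 5) * N ^ 5 ≤ (245760 * 3 ^ 10 * E * L ^ 5) * N ^ 5 := by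
        calc (s * c ^ 5) * N ^ 5 = s * N ^ 5 * c ^ 5 := by ring
          _ ≤ _ := h5
          _ = _ := by ring
      exact le_of_mul_le_mul_right h7 (by positivity)
    refine h6.trans (le_of_eq ?_)
    rw [hK]; ring
  -- conclusion
  have n1 : 2 * s ≤ (B.card : ℝ) := by
    refine le_trans ?_ hBc
    have h1 : E ≤ 2 * U := by rw [hE]; linarith
    have h2 : 2 * s ≤ 4 * K * L ^ 5 * U := by
      calc 2 * s ≤ 2 * (K * L ^ 5 * E) := by linarith
        _ ≤ 2 * (K * L ^ 5 * (2 * U)) := by gcongr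
        _ = 4 * K * L ^ 5 * U := by ring
    refine h2.trans ?_
    calc 4 * K * L ^ 5 * U ≤ (U : ℝ) ^ (1 / 2 : ℝ) * U := by gcongr
      _ = (U : ℝ) ^ (3 / 2 : ℝ) := by
          nth_rewrite 2 [← Real.rpow_one (U : ℝ)]
          rw [← Real.rpow_add hU0]
          norm_num
  rw [hs] at n1
  exact_mod_cast n1

end Trib
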