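import Pool.Agent.Lib.MP_841d01_co.DrawPairs

/-!
# MP_841d01_co : draws from the constructed solutions
-/

namespace Trib

private theorem pell_norm (v : ℕ × ℕ) :
    ((pell v).1 : ℤ) ^ 2 - 2 * ((pell v).2 : ℤ) ^ 2 = (v.1 : ℤ) ^ 2 - 2 * (v.2 : ℤ) ^ 2 := by
  unfold pell
  push_cast
  ring

private theorem pell_norm_iter (v : ℕ × ℕ) (i : ℕ) :
    (((pell^[i] v).1 : ℕ) : ℤ) ^ 2 - 2 * (((pell^[i] v).2 : ℕ) : ℤ) ^ 2 =
      (v.1 : ℤ) ^ 2 - 2 * (v.2 : ℤ) ^ 2 := by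
  induction i with
  | zero => rfl
  | succ i ih =>
    rw [Function.iterate_succ_apply', pell_norm, ih]

private theorem exists_z' {q : ℕ} (hq : q.Prime) {a : ℤ} (h : jacobiSym a q = 1) :
    ∃ z : ℤ, (q : ℤ) ∣ z ^ 2 - a := by
  have : Fact q.Prime := ⟨hq⟩
  have : NeZero q := ⟨hq.ne_zero⟩
  rw [← jacobiSym.legendreSym.to_jacobiSym] at h
  have ha : (a : ZMod q) ≠ 0 := by
    intro h0
    rw [(legendreSym.eq_zero_iff q a).2 h0] at h
    exact absurd h (by norm_num)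
  obtain ⟨y, hy⟩ := (legendreSym.eq_one_iff q ha).1 h
  obtain ⟨z, rfl⟩ := ZMod.intCast_surjective y
  refine ⟨z, ?_⟩
  rw [← ZMod.intCast_zmod_eq_zero_iff_dvd]
  push_cast
  rw [hy]
  ring

/-- the equation satisfied by the data of `Rep` -/
private theorem rep_eq {i o s q j k m K : ℕ} (h6 : 2 * tri k + (tri j + o) = tri m + s)
    (h8 : pell^[i] (2 * j + 1 + 2 * q, K) = (2 * m + 1, 2 * k + 1)) :
    dd o s = (K : ℤ) ^ 2 - 2 * q * (2 * j + 1) - 2 * (q : ℤ) ^ 2 := by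
  have e1 := pell_norm_iter (2 * j + 1 + 2 * q, K) i
  rw [h8] at e1
  simp only at e1
  push_cast at e1
  have t1 : (2 * tri k : ℤ) = k * (k + 1) := by exact_mod_cast two_mul_tri k
  have t2 : (2 * tri m : ℤ) = m * (m + 1) := by exact_mod_cast two_mul_tri m
  have t3 : (2 * tri j : ℤ) = j * (j + 1) := by exact_mod_cast two_mul_tri j
  have h6' : (2 * tri k + (tri j + o) : ℤ) = tri m + s := by exact_mod_cast h6
  unfold dd
  nlinarith

/-- The size of the data of `Rep`. -/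
private theorem rep_size {U o s q j k K n : ℕ} (hU : 2 ≤ U) (hq : q ≤ 4 * U) (ho : 16 * o ≤ U)
    (hs : 16 * s ≤ U ^ 2)
    (h3 : tri j + o ≤ k) (h7 : n = tri k + (tri j + o)) (h9 : n ≤ 140000000 * U ^ 4)
    (hD : dd o s = (K : ℤ) ^ 2 - 2 * q * (2 * j + 1) - 2 * (q : ℤ) ^ 2) :
    k ≤ 16734 * U ^ 2 ∧ j ≤ 183 * U ∧ K < 56 * U := by
  have t1 := two_mul_tri k
  have t2 := two_mul_tri j
  have hk : k ≤ 16734 * U ^ 2 := by
    by_contra hcon
    push Not at hcon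
    have e1 : (16734 * U ^ 2) * (16734 * U ^ 2) < k * k := Nat.mul_lt_mul'' hcon hcon
    have e2 : (16734 * U ^ 2) * (16734 * U ^ 2) = 280026756 * U ^ 4 := by ring
    have e3 : k * k ≤ k * (k + 1) := Nat.mul_le_mul_left _ (by omega)
    omega
  have hj : j ≤ 183 * U := by
    by_contra hcon
    push Not at hcon
    have e1 : (183 * U) * (183 * U) < j * j := Nat.mul_lt_mul'' hcon hcon
    have e2 : (183 * U) * (183 * U) = 33489 * U ^ 2 := by ring
    have e3 : j * j ≤ j * (j + 1) := Nat.mul_le_mul_left _ (by omega)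
    omega
  refine ⟨hk, hj, ?_⟩
  by_contra hcon
  push Not at hcon
  have hd := (abs_le.1 (dd_abs hU ho hs)).2
  rw [hD] at hd
  have a1 : (56 * (U : ℤ)) ≤ K := by exact_mod_cast hcon
  have a2 : (q : ℤ) ≤ 4 * U := by exact_mod_cast hq
  have a3 : (j : ℤ) ≤ 183 * U := by exact_mod_cast hj
  have a4 : (0 : ℤ) ≤ q := Int.natCast_nonneg q
  have a5 : (0 : ℤ) ≤ j := Int.natCast_nonneg j
  have a6 : (2 : ℤ) ≤ U := by exact_mod_cast hU
  have b1 : (56 * (U : ℤ)) * (56 * (U : ℤ)) ≤ (K : ℤ) * K := by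
    apply mul_le_mul a1 a1 (by positivity) (by linarith)
  have b2 : (q : ℤ) * (2 * j + 1) ≤ (4 * U) * (367 * U) := by
    apply mul_le_mul a2 (by linarith) (by positivity) (by positivity)
  have b3 : (q : ℤ) * q ≤ (4 * U) * (4 * U) := by
    apply mul_le_mul a2 a2 a4 (by positivity)
  nlinarith

/-- The counting of the triples. -/
theorem case1 {U : ℕ} (hU : 20000 ≤ U) (A : Finset ℕ) (T : Finset (ℕ × ℕ × ℕ))
    (hT : ∀ t ∈ T, t.1 ∈ A ∧ Draw t.1 ∧ Win false t.2.1 ∧ t.2.2 ∈ QQ U ∧ 16 * t.1 ≤ U ∧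
      16 * t.2.1 ≤ U ^ 2 ∧ jacobiSym (dd t.1 t.2.1) t.2.2 = 1) :
    T.card ≤ 3 * (Nat.log 2 U + 1) * (PS (1000000 * U ^ 2)).card +
      (∑ o ∈ A, (S2 U o).card) * ((QQ U).card * (56 * U)) := by
  classical
  have hU2 : 2 ≤ U := by omega
  have hq4 : ∀ q ∈ QQ U, q ≤ 4 * U := by
    intro q hq
    unfold QQ at hq
    rw [Finset.mem_filter, Finset.mem_Ioc] at hq
    exact hq.1.2
  have h1 : ∀ t ∈ T, ∃ x : ℕ × ℕ × ℕ × ℕ × ℕ × ℕ,
      -- x = (i, n, j, k, m, K)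
      t.1 ≤ x.2.2.1 ∧ tri x.2.2.1 + t.1 ≤ x.2.2.2.1 ∧ t.2.1 ≤ x.2.2.2.2.1 ∧
      2 * tri x.2.2.2.1 + (tri x.2.2.1 + t.1) = tri x.2.2.2.2.1 + t.2.1 ∧
      x.2.1 = tri x.2.2.2.1 + (tri x.2.2.1 + t.1) ∧
      pell^[x.1] (2 * x.2.2.1 + 1 + 2 * t.2.2, x.2.2.2.2.2) =
        (2 * x.2.2.2.2.1 + 1, 2 * x.2.2.2.1 + 1) ∧
      x.2.1 ≤ 140000000 * U ^ 4 ∧ x.1 < 3 * (Nat.log 2 U + 1) ∧
      Rep U x.1 t.1 t.2.1 t.2.2 x.2.1 := by
    intro t ht
    obtain ⟨a0, a1, a2, a3, a4, a5, a6⟩ := hT t ht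
    have hq : t.2.2.Prime := by
      unfold QQ at a3
      exact (Finset.mem_filter.1 a3).2
    obtain ⟨i, n, h⟩ := construct hU a3 a4 a5 (exists_z' hq a6)
    obtain ⟨j, k, m, K, b1, b2, b3, b4, b5, b6, b7, b8, b9, b10⟩ := id h
    exact ⟨(i, n, j, k, m, K), b1, b3, b4, b6, b7, b8, b9, b10, h⟩
  choose! f hf using h1
  -- the size of the data
  have hsz : ∀ t ∈ T, (f t).2.2.2.1 ≤ 16734 * U ^ 2 ∧ (f t).2.2.1 ≤ 183 * U ∧
      (f t).2.2.2.2.2 < 56 * U ∧ dd t.1 t.2.1 = ((f t).2.2.2.2.2 : ℤ) ^ 2 -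
        2 * t.2.2 * (2 * (f t).2.2.1 + 1) - 2 * (t.2.2 : ℤ) ^ 2 := by
    intro t ht
    obtain ⟨a0, a1, a2, a3, a4, a5, a6⟩ := hT t ht
    obtain ⟨b1, b3, b4, b6, b7, b8, b9, b10, h⟩ := hf t ht
    have hD := rep_eq b6 b8
    obtain ⟨c1, c2, c3⟩ := rep_size hU2 (hq4 _ a3) a4 a5 b3 b7 b9 hD
    exact ⟨c1, c2, c3, hD⟩
  -- the splitting
  have hsplit : T.card = (T.filter fun t => Draw (tri (f t).2.2.1 + t.1)).card +
      (T.filter fun t => ¬ Draw (tri (f t).2.2.1 + t.1)).card :=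
    (Finset.card_filter_add_card_filter_not _).symm
  rw [hsplit]
  refine Nat.add_le_add ?_ ?_
  · -- the triples which give draws
    have h2 : (T.filter fun t => Draw (tri (f t).2.2.1 + t.1)).card ≤
        (Finset.range (3 * (Nat.log 2 U + 1)) ×ˢ PS (1000000 * U ^ 2)).card := by
      refine Finset.card_le_card_of_injOn
        (fun t => ((f t).1, (tri (f t).2.2.1 + t.1, (f t).2.2.2.1))) ?_ ?_
      · intro t ht
        rw [Finset.mem_coe, Finset.mem_filter] at ht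
        obtain ⟨ht, hdr⟩ := ht
        obtain ⟨a0, a1, a2, a3, a4, a5, a6⟩ := hT t ht
        obtain ⟨b1, b3, b4, b6, b7, b8, b9, b10, h⟩ := hf t ht
        obtain ⟨c1, c2, c3, c4⟩ := hsz t ht
        rw [Finset.mem_coe, Finset.mem_product, Finset.mem_range]
        refine ⟨b10, ?_⟩
        show (tri (f t).2.2.1 + t.1, (f t).2.2.2.1) ∈ PS (1000000 * U ^ 2)
        rw [mem_PS]
        refine ⟨hdr, by omega, b3, by omega, ?_⟩
        exact draw_propagate hdr b3 b4 (Or.inr a2) b6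
      · intro t ht t' ht' he
        rw [Finset.mem_coe, Finset.mem_filter] at ht ht'
        obtain ⟨b1, b3, b4, b6, b7, b8, b9, b10, h⟩ := hf t ht.1
        obtain ⟨b1', b3', b4', b6', b7', b8', b9', b10', h'⟩ := hf t' ht'.1
        simp only [Prod.mk.injEq] at he
        obtain ⟨e1, e2, e3⟩ := he
        have e4 : (f t).2.1 = (f t').2.1 := by
          rw [b7, b7', e2, e3]
        rw [e1, e4] at h
        obtain ⟨d1, d2, d3⟩ := rep_inj h h'
        exact Prod.ext d1 (Prod.ext d2 d3)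
    rw [Finset.card_product, Finset.card_range] at h2
    exact h2
  · -- the other triples
    have h2 : (T.filter fun t => ¬ Draw (tri (f t).2.2.1 + t.1)).card ≤
        ((A.sigma fun o => S2 U o) ×ˢ (QQ U ×ˢ Finset.range (56 * U))).card := by
      refine Finset.card_le_card_of_injOn
        (fun t => ((⟨t.1, (f t).2.2.1⟩ : Σ _ : ℕ, ℕ), (t.2.2, (f t).2.2.2.2.2))) ?_ ?_
      · intro t ht
        rw [Finset.mem_coe, Finset.mem_filter] at ht
        obtain ⟨ht, hdr⟩ := ht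
        obtain ⟨a0, a1, a2, a3, a4, a5, a6⟩ := hT t ht
        obtain ⟨b1, b3, b4, b6, b7, b8, b9, b10, h⟩ := hf t ht
        obtain ⟨c1, c2, c3, c4⟩ := hsz t ht
        rw [Finset.mem_coe, Finset.mem_product, Finset.mem_product, Finset.mem_sigma, mem_S2,
          Finset.mem_range]
        exact ⟨⟨a0, b1, c2, hdr⟩, a3, c3⟩
      · intro t ht t' ht' he
        rw [Finset.mem_coe, Finset.mem_filter] at ht ht'
        obtain ⟨c1, c2, c3, c4⟩ := hsz t ht.1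
        obtain ⟨c1', c2', c3', c4'⟩ := hsz t' ht'.1
        simp only [Prod.mk.injEq, Sigma.mk.injEq, heq_eq_eq] at he
        obtain ⟨⟨e1, e2⟩, e3, e4⟩ := he
        rw [e1, e2, e3, e4] at c4
        have e5 : dd t'.1 t.2.1 = dd t'.1 t'.2.1 := by rw [c4, c4']
        have e6 : t.2.1 = t'.2.1 := by
          unfold dd at e5
          omega
        exact Prod.ext e1 (Prod.ext e6 e3)
    rw [Finset.card_product, Finset.card_sigma, Finset.card_product, Finset.card_range] at h2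
    exact h2

end Trib
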