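import Pool.Agent.Lib.MP_841d01_co.DrawRec

/-!
# MP_841d01_co : the number of the draws
-/

namespace Trib

theorem PS_mono {U V : ℕ} (h : U ≤ V) : (PS U).card ≤ (PS V).card := by
  refine Finset.card_le_card ?_
  rintro ⟨o, k⟩ hx
  rw [mem_PS] at hx ⊢
  exact ⟨hx.1, by omega, hx.2.2.1, by omega, hx.2.2.2.2⟩

/-- If there is a draw then there is a pair. -/
theorem PS_pos {o : ℕ} (hd : Draw o) : ∃ U : ℕ, 1 ≤ (PS U).card := by
  classical
  have h := many_indices hd le_rfl
  have h1 : ((Finset.Icc o (72 * o ^ 2)).filter fun k => Draw (tri k + o)).Nonempty := by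
    rw [← Finset.card_pos]
    have := hd.pos
    omega
  obtain ⟨k, hk⟩ := h1
  rw [Finset.mem_filter, Finset.mem_Icc] at hk
  refine ⟨max (16 * o) k, ?_⟩
  rw [Nat.one_le_iff_ne_zero, Finset.card_ne_zero]
  exact ⟨(o, k), mem_PS.2 ⟨hd, le_max_left _ _, hk.1.1, le_max_right _ _, hk.2⟩⟩

theorem PS_le_cntO {U : ℕ} (hU : 2 ≤ U) : (PS U).card ≤ cntO (U ^ 2) := by
  classical
  unfold cntO
  refine Finset.card_le_card_of_injOn (fun x => tri x.2 + x.1) ?_ ?_
  · rintro ⟨o, h⟩ hx
    rw [Finset.mem_coe, mem_PS] at hx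
    obtain ⟨x1, x2, x3, x4, x5⟩ := hx
    have ho := x1.pos
    have t1 := two_mul_tri h
    have t2 : h * (h + 1) ≤ U * (U + 1) := Nat.mul_le_mul x4 (by omega)
    rw [Finset.mem_coe, Finset.mem_filter, Finset.mem_Icc]
    show (1 ≤ tri h + o ∧ tri h + o ≤ U ^ 2) ∧ Draw (tri h + o)
    refine ⟨⟨by omega, ?_⟩, x5⟩
    nlinarith
  · rintro ⟨o, h⟩ hx ⟨o', h'⟩ hx' e
    rw [Finset.mem_coe, mem_PS] at hx hx'
    obtain ⟨rfl, rfl⟩ := tri_add_inj hx.2.2.1 hx'.2.2.1 e
    rfl

/-- The growth of the number of the pairs. -/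
theorem PS_growth {o : ℕ} (hd : Draw o) : ∃ K : ℝ, 0 < K ∧ ∃ X : ℕ, ∀ x : ℕ, X ≤ x →
    (x : ℝ) * Real.exp (-K * Real.log x ^ Real.logb 2 Real.goldenRatio) ≤ (PS x).card := by
  obtain ⟨C, hC, hfin⟩ := final
  obtain ⟨U₀, hrec⟩ := draw_rec
  obtain ⟨W, hW⟩ := PS_pos hd
  set β : ℝ := Real.logb 2 Real.goldenRatio with hβ
  have hβ0 : 0 < β := beta_pos
  -- the thresholds
  set X₀ : ℕ := max (max U₀ W) 8 with hX₀
  set X₁ : ℕ := 1000000 * X₀ ^ 2 with hX₁
  have hX8 : 8 ≤ X₀ := le_max_right _ _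
  have hXU : U₀ ≤ X₀ := (le_max_left _ _).trans (le_max_left _ _)
  have hXW : W ≤ X₀ := (le_max_right _ _).trans (le_max_left _ _)
  set K : ℝ := max (4 * C + 52) (Real.log X₁) with hK
  have hK1 : 4 * C + 52 ≤ K := le_max_left _ _
  have hK2 : Real.log X₁ ≤ K := le_max_right _ _
  have hK0 : 0 < K := by linarith
  refine ⟨K, hK0, X₀, ?_⟩
  intro x
  induction x using Nat.strong_induction_on with
  | _ x ih =>
    intro hx
    have hxr : (8 : ℝ) ≤ x := by exact_mod_cast hX8.trans hx
    have hlx : 1 ≤ Real.log x := by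
      rw [Real.le_log_iff_exp_le (by linarith)]
      have := Real.exp_one_lt_d9
      linarith
    have hlxβ : 1 ≤ Real.log x ^ β := Real.one_le_rpow hlx hβ0.le
    rcases Nat.lt_or_ge x X₁ with hlt | hge
    · -- small `x`
      have h1 : 1 ≤ (PS x).card := hW.trans (PS_mono (hXW.trans hx))
      have h2 : (1 : ℝ) ≤ (PS x).card := by exact_mod_cast h1
      refine le_trans ?_ h2
      have h3 : (x : ℝ) ≤ Real.exp K := by
        rw [← Real.exp_log (show (0 : ℝ) < x by linarith)]
        apply Real.exp_le_exp.2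
        refine le_trans ?_ hK2
        apply Real.log_le_log (by linarith)
        exact_mod_cast hlt.le
      have h4 : Real.exp (-K * Real.log x ^ β) ≤ Real.exp (-K) := by
        apply Real.exp_le_exp.2
        nlinarith
      calc (x : ℝ) * Real.exp (-K * Real.log x ^ β) ≤ Real.exp K * Real.exp (-K) :=
            mul_le_mul h3 h4 (Real.exp_pos _).le (Real.exp_pos _).le
        _ = 1 := by rw [← Real.exp_add, add_neg_cancel, Real.exp_zero]
    · -- large `x`
      set U : ℕ := Nat.findGreatest (fun v => 1000000 * v ^ 2 ≤ x) x with hU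
      have hUle : 1000000 * U ^ 2 ≤ x :=
        Nat.findGreatest_spec (P := fun v => 1000000 * v ^ 2 ≤ x) (m := 0) (Nat.zero_le _)
          (by simp)
      have hUX : X₀ ≤ U := by
        apply Nat.le_findGreatest
        · have : X₀ ≤ X₀ ^ 2 := Nat.le_self_pow (by norm_num) _
          omega
        · exact hge
      have hUlt : x < 1000000 * (U + 1) ^ 2 := by
        by_contra hcon
        push Not at hcon
        have h1 : U + 1 ≤ U := by
          apply Nat.le_findGreatest
          · have : U + 1 ≤ (U + 1) ^ 2 := Nat.le_self_pow (by norm_num) _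
            omega
          · exact hcon
        omega
      have hUx : U < x := by
        have : U ≤ U ^ 2 := Nat.le_self_pow (by norm_num) U
        omega
      have hU8 : 8 ≤ U := hX8.trans hUX
      have hUr : (8 : ℝ) ≤ U := by exact_mod_cast hU8
      have hU0 : (0 : ℝ) < U := by linarith
      set L : ℝ := Real.log U with hL
      have hL1 : 1 ≤ L := by
        rw [hL, Real.le_log_iff_exp_le (by linarith)]
        have := Real.exp_one_lt_d9
        linarith
      have hL0 : 0 < L := by linarith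
      have hLβ : 1 ≤ L ^ β := Real.one_le_rpow hL1 hβ0.le
      have ihU := ih U hUx hUX
      -- the golden ratio
      set φ : ℝ := Real.goldenRatio with hφ
      have h2β : (2 : ℝ) ^ β = φ := Real.rpow_logb (by norm_num) (by norm_num) Real.goldenRatio_pos
      have h2L : (2 * L) ^ β = φ * L ^ β := by
        rw [Real.mul_rpow (by norm_num) hL0.le, h2β]
      have hφ2 : φ < 2 := Real.goldenRatio_lt_two
      have hφ1 : 3 / 2 ≤ φ := by
        rw [hφ, Real.goldenRatio]
        have : (2 : ℝ) ≤ Real.sqrt 5 := by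
          rw [show (2 : ℝ) = Real.sqrt 4 by
            rw [show (4 : ℝ) = 2 ^ 2 by norm_num, Real.sqrt_sq (by norm_num)]]
          exact Real.sqrt_le_sqrt (by norm_num)
        linarith
      -- the number of the P-positions
      have hy : U ^ 2 ≤ 32 * (U ^ 2 / 16) := by
        have : 64 ≤ U ^ 2 := by nlinarith
        omega
      have hy2 : 2 ≤ U ^ 2 / 16 := by
        have : 64 ≤ U ^ 2 := by nlinarith
        omega
      have hB := (hfin (U ^ 2 / 16) hy2).1
      have hyr : (U : ℝ) ^ 2 / 32 ≤ ((U ^ 2 / 16 : ℕ) : ℝ) := by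
        have : ((U ^ 2 : ℕ) : ℝ) ≤ ((32 * (U ^ 2 / 16) : ℕ) : ℝ) := by exact_mod_cast hy
        push_cast at this
        linarith
      have hyl : Real.log ((U ^ 2 / 16 : ℕ) : ℝ) ≤ 2 * L := by
        have e1 : ((U ^ 2 / 16 : ℕ) : ℝ) ≤ (U : ℝ) ^ 2 := by
          have : U ^ 2 / 16 ≤ U ^ 2 := Nat.div_le_self _ _
          exact_mod_cast this
        have e2 : (0 : ℝ) < ((U ^ 2 / 16 : ℕ) : ℝ) := by
          have : 0 < U ^ 2 / 16 := by omega
          exact_mod_cast this
        have e3 := Real.log_le_log e2 e1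
        rw [Real.log_pow] at e3
        exact_mod_cast e3
      have hyl0 : 0 ≤ Real.log ((U ^ 2 / 16 : ℕ) : ℝ) := Real.log_natCast_nonneg _
      have hpow : Real.log ((U ^ 2 / 16 : ℕ) : ℝ) ^ β ≤ φ * L ^ β := by
        rw [← h2L]
        exact Real.rpow_le_rpow hyl0 hyl hβ0.le
      have hB2 : (U : ℝ) ^ 2 / 32 * Real.exp (-C * (φ * L ^ β)) ≤
          (cnt false (U ^ 2 / 16) : ℝ) := by
        refine le_trans ?_ hB
        refine mul_le_mul hyr ?_ (Real.exp_pos _).le (Nat.cast_nonneg _)
        apply Real.exp_le_exp.2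
        have := mul_le_mul_of_nonneg_left hpow hC.le
        linarith
      -- the recursive inequality
      have hr : (cnt false (U ^ 2 / 16) : ℝ) * (PS U).card ≤ 1001 * U * (PS x).card := by
        have e1 := hrec U (hXU.trans hUX)
        have e2 : 1001 * U * (PS (1000000 * U ^ 2)).card ≤ 1001 * U * (PS x).card :=
          Nat.mul_le_mul_left _ (PS_mono hUle)
        exact_mod_cast e1.trans e2
      have hr2 : ((U : ℝ) ^ 2 / 32 * Real.exp (-C * (φ * L ^ β))) *
          (U * Real.exp (-K * L ^ β)) ≤ 1001 * U * (PS x).card :=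
        le_trans (mul_le_mul hB2 ihU (by positivity) (Nat.cast_nonneg _)) hr
      -- the size of `x`
      have hxU : (x : ℝ) ≤ 4000000 * (U : ℝ) ^ 2 := by
        have e1 : (x : ℝ) ≤ 1000000 * ((U : ℝ) + 1) ^ 2 := by exact_mod_cast hUlt.le
        have e2 : ((U : ℝ) + 1) ^ 2 ≤ (2 * U) ^ 2 :=
          pow_le_pow_left₀ (by linarith) (by linarith) 2
        calc (x : ℝ) ≤ 1000000 * ((U : ℝ) + 1) ^ 2 := e1
          _ ≤ 1000000 * (2 * U) ^ 2 := by linarith
          _ = 4000000 * (U : ℝ) ^ 2 := by ring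
      have hlog : 2 * L ≤ Real.log x := by
        have e1 : Real.log ((U : ℝ) ^ 2) ≤ Real.log x := by
          apply Real.log_le_log (by positivity)
          have : U ^ 2 ≤ x := by omega
          exact_mod_cast this
        rw [Real.log_pow] at e1
        exact_mod_cast e1
      have hlogβ : φ * L ^ β ≤ Real.log x ^ β := by
        rw [← h2L]
        exact Real.rpow_le_rpow (by positivity) hlog hβ0.le
      have h26 : (4000000 * 32032 : ℝ) ≤ Real.exp 26 := by
        have e1 : Real.exp 26 = Real.exp 1 ^ 26 := by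
          rw [← Real.exp_nat_mul]; norm_num
        rw [e1]
        have e2 : (2.7 : ℝ) ≤ Real.exp 1 := by
          have := Real.exp_one_gt_d9
          linarith
        calc (4000000 * 32032 : ℝ) ≤ 2.7 ^ 26 := by norm_num
          _ ≤ Real.exp 1 ^ 26 := pow_le_pow_left₀ (by norm_num) e2 26
      -- conclusion
      have hkey : 26 - K * (φ * L ^ β) ≤ -C * (φ * L ^ β) + -K * L ^ β := by
        have f1 : C * φ ≤ C * 2 := mul_le_mul_of_nonneg_left hφ2.le hC.le
        have f2 : K * (1 / 2) ≤ K * (φ - 1) := mul_le_mul_of_nonneg_left (by linarith) hK0.le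
        have f3 : 26 ≤ K * (φ - 1) - C * φ := by linarith
        have f4 : 26 * 1 ≤ (K * (φ - 1) - C * φ) * L ^ β :=
          mul_le_mul f3 hLβ (by norm_num) (by linarith)
        have f5 : (K * (φ - 1) - C * φ) * L ^ β =
            K * (φ * L ^ β) - K * L ^ β - C * (φ * L ^ β) := by ring
        rw [f5] at f4
        linarith
      clear_value U L φ K
      have h5 : (x : ℝ) * Real.exp (-K * Real.log x ^ β) * (32032 * U) ≤
          ((PS x).card : ℝ) * (32032 * U) := by
        calc (x : ℝ) * Real.exp (-K * Real.log x ^ β) * (32032 * U)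
            ≤ (4000000 * (U : ℝ) ^ 2) * Real.exp (-K * (φ * L ^ β)) * (32032 * U) := by
              have : Real.exp (-K * Real.log x ^ β) ≤ Real.exp (-K * (φ * L ^ β)) := by
                apply Real.exp_le_exp.2
                have := mul_le_mul_of_nonneg_left hlogβ hK0.le
                linarith
              gcongr
          _ = (U : ℝ) ^ 3 * ((4000000 * 32032) * Real.exp (-K * (φ * L ^ β))) := by ring
          _ ≤ (U : ℝ) ^ 3 * (Real.exp 26 * Real.exp (-K * (φ * L ^ β))) := by gcongr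
          _ = (U : ℝ) ^ 3 * Real.exp (26 - K * (φ * L ^ β)) := by
              rw [← Real.exp_add]
              congr 2
              ring
          _ ≤ (U : ℝ) ^ 3 * Real.exp (-C * (φ * L ^ β) + -K * L ^ β) := by gcongr
          _ = 32 * (((U : ℝ) ^ 2 / 32 * Real.exp (-C * (φ * L ^ β))) *
              (U * Real.exp (-K * L ^ β))) := by
              rw [Real.exp_add]; ring
          _ ≤ 32 * (1001 * U * (PS x).card) := by gcongr
          _ = ((PS x).card : ℝ) * (32032 * U) := by ring
      exact le_of_mul_le_mul_right h5 (by positivity)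

/-- If there is a draw then up to `x` there are at least `√x exp (-K (log x) ^ β)`. -/
theorem draws_sqrt {o : ℕ} (hd : Draw o) : ∃ K : ℝ, 0 < K ∧ ∃ X : ℕ, ∀ x : ℕ, X ≤ x →
    Real.sqrt x * Real.exp (-K * Real.log x ^ Real.logb 2 Real.goldenRatio) ≤ cntO x := by
  obtain ⟨K, hK, X, h⟩ := PS_growth hd
  refine ⟨K + 1, by linarith, (max X 2) ^ 2 + 8, fun x hx => ?_⟩
  set β : ℝ := Real.logb 2 Real.goldenRatio with hβ
  have hβ0 : 0 < β := beta_pos
  set U : ℕ := Nat.sqrt x with hU
  have hUX : max X 2 ≤ U := by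
    rw [hU, Nat.le_sqrt']
    omega
  have hU1 : X ≤ U := (le_max_left _ _).trans hUX
  have hU2 : 2 ≤ U := (le_max_right _ _).trans hUX
  have hUx : U ^ 2 ≤ x := Nat.sqrt_le' x
  have hxU : x < (U + 1) ^ 2 := Nat.lt_succ_sqrt' x
  have hUr : (2 : ℝ) ≤ U := by exact_mod_cast hU2
  have hxr : (8 : ℝ) ≤ x := by
    have : 8 ≤ x := by omega
    exact_mod_cast this
  have hlx : 1 ≤ Real.log x := by
    rw [Real.le_log_iff_exp_le (by linarith)]
    have := Real.exp_one_lt_d9
    linarith
  have hlxβ : 1 ≤ Real.log x ^ β := Real.one_le_rpow hlx hβ0.le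
  have h1 := h U hU1
  have h2 : ((PS U).card : ℝ) ≤ cntO x := by
    exact_mod_cast (PS_le_cntO hU2).trans (cntO_mono hUx)
  refine le_trans ?_ (h1.trans h2)
  have h3 : Real.sqrt x ≤ 2 * U := by
    rw [Real.sqrt_le_left (by positivity)]
    have e1 : (x : ℝ) ≤ ((U : ℝ) + 1) ^ 2 := by exact_mod_cast hxU.le
    nlinarith
  have h4 : Real.log U ≤ Real.log x := by
    apply Real.log_le_log (by linarith)
    have : U ≤ x := (Nat.le_self_pow (by norm_num) U).trans hUx
    exact_mod_cast this
  have h5 : Real.log U ^ β ≤ Real.log x ^ β :=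
    Real.rpow_le_rpow (Real.log_natCast_nonneg U) h4 hβ0.le
  have h6 : Real.exp (-(K + 1) * Real.log x ^ β) ≤
      Real.exp (-1) * Real.exp (-K * Real.log U ^ β) := by
    rw [← Real.exp_add]
    apply Real.exp_le_exp.2
    nlinarith
  have h7 : Real.exp (-1) ≤ 1 / 2 := by
    rw [Real.exp_neg, one_div]
    apply inv_anti₀ (by norm_num)
    have := Real.exp_one_gt_d9
    linarith
  calc Real.sqrt x * Real.exp (-(K + 1) * Real.log x ^ β)
      ≤ (2 * U) * (Real.exp (-1) * Real.exp (-K * Real.log U ^ β)) :=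
        mul_le_mul h3 h6 (Real.exp_pos _).le (by positivity)
    _ ≤ (2 * U) * (1 / 2 * Real.exp (-K * Real.log U ^ β)) := by gcongr
    _ = U * Real.exp (-K * Real.log U ^ β) := by ring

end Trib
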