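import Pool.Agent.Lib.MP_841d01_co.Draws
import Pool.Agent.Lib.MP_841d01_co.DrawBad
import Pool.Agent.Lib.MP_841d01_co.Count

/-!
# MP_841d01_co : pairs of draws
-/

namespace Trib

open Classical in
/-- the pairs `(o, h)` with `o` and `T_h + o` in `O`, `o ≤ h ≤ U` and `16 o ≤ U` -/
noncomputable def PS (U : ℕ) : Finset (ℕ × ℕ) :=
  (Finset.range (U + 1) ×ˢ Finset.range (U + 1)).filter fun x =>
    Draw x.1 ∧ 16 * x.1 ≤ U ∧ x.1 ≤ x.2 ∧ Draw (tri x.2 + x.1)

theorem mem_PS {U o h : ℕ} : (o, h) ∈ PS U ↔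
    Draw o ∧ 16 * o ≤ U ∧ o ≤ h ∧ h ≤ U ∧ Draw (tri h + o) := by
  classical
  unfold PS
  rw [Finset.mem_filter, Finset.mem_product, Finset.mem_range, Finset.mem_range]
  simp only
  constructor
  · rintro ⟨⟨h1, h2⟩, h3, h4, h5, h6⟩
    exact ⟨h3, h4, h5, by omega, h6⟩
  · rintro ⟨h3, h4, h5, h7, h6⟩
    exact ⟨⟨by omega, by omega⟩, h3, h4, h5, h6⟩

open Classical in
/-- the `O`-positions `o` with `16 o ≤ U` -/
noncomputable def OA (U : ℕ) : Finset ℕ := (Finset.range (U + 1)).filter fun o => Draw o ∧ 16 * o ≤ U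

open Classical in
noncomputable def S1 (U o : ℕ) : Finset ℕ := (Finset.Icc o U).filter fun h => Draw (tri h + o)

open Classical in
noncomputable def S2 (U o : ℕ) : Finset ℕ :=
  (Finset.Icc o (183 * U)).filter fun j => ¬ Draw (tri j + o)

theorem mem_OA {U o : ℕ} : o ∈ OA U ↔ Draw o ∧ 16 * o ≤ U := by
  classical
  unfold OA
  rw [Finset.mem_filter, Finset.mem_range]
  constructor
  · rintro ⟨_, h⟩; exact h
  · rintro ⟨h1, h2⟩; exact ⟨by omega, h1, h2⟩

theorem mem_S1 {U o h : ℕ} : h ∈ S1 U o ↔ o ≤ h ∧ h ≤ U ∧ Draw (tri h + o) := by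
  classical
  unfold S1
  rw [Finset.mem_filter, Finset.mem_Icc]
  tauto

theorem mem_S2 {U o j : ℕ} : j ∈ S2 U o ↔ o ≤ j ∧ j ≤ 183 * U ∧ ¬ Draw (tri j + o) := by
  classical
  unfold S2
  rw [Finset.mem_filter, Finset.mem_Icc]
  tauto

theorem card_PS (U : ℕ) : (PS U).card = ∑ o ∈ OA U, (S1 U o).card := by
  classical
  rw [← Finset.card_sigma]
  refine Finset.card_bij' (fun x _ => ⟨x.1, x.2⟩) (fun x _ => (x.1, x.2)) ?_ ?_ ?_ ?_
  · rintro ⟨o, h⟩ hx
    rw [mem_PS] at hx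
    rw [Finset.mem_sigma, mem_OA, mem_S1]
    exact ⟨⟨hx.1, hx.2.1⟩, hx.2.2.1, hx.2.2.2.1, hx.2.2.2.2⟩
  · rintro ⟨o, h⟩ hx
    rw [Finset.mem_sigma, mem_OA, mem_S1] at hx
    rw [mem_PS]
    exact ⟨hx.1.1, hx.1.2, hx.2.1, hx.2.2.1, hx.2.2.2⟩
  · rintro ⟨o, h⟩ _
    rfl
  · rintro ⟨o, h⟩ _
    rfl

theorem card_S1_le (U : ℕ) {o : ℕ} (ho : 1 ≤ o) : (S1 U o).card ≤ U := by
  classical
  unfold S1
  refine (Finset.card_filter_le _ _).trans ?_
  rw [Nat.card_Icc]
  omega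

/-- The family of solutions of `2 T_k + T_h = T_m + 2 T_j`. -/
theorem pell_family2 {a b : ℕ} (e : a * (a + 1) = 2 * b ^ 2) (j h : ℕ) :
    2 * tri (a * (2 * j + 1) + j + b * (2 * h + 1)) + tri h =
      tri (2 * b * (2 * j + 1) + a * (2 * h + 1) + h) + 2 * tri j := by
  have h1 := two_mul_tri (a * (2 * j + 1) + j + b * (2 * h + 1))
  have h2 := two_mul_tri (2 * b * (2 * j + 1) + a * (2 * h + 1) + h)
  have h3 := two_mul_tri j
  have h5 := two_mul_tri h
  have h4 : 2 * ((a * (2 * j + 1) + j + b * (2 * h + 1)) *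
      (a * (2 * j + 1) + j + b * (2 * h + 1) + 1)) + h * (h + 1) =
      (2 * b * (2 * j + 1) + a * (2 * h + 1) + h) *
        (2 * b * (2 * j + 1) + a * (2 * h + 1) + h + 1) + 2 * (j * (j + 1)) := by
    zify
    have h' : (a : ℤ) * (a + 1) = 2 * b ^ 2 := by exact_mod_cast e
    linear_combination (2 * (2 * (j : ℤ) + 1) ^ 2 - (2 * (h : ℤ) + 1) ^ 2) * h'
  omega

/-- The mixed case. -/
theorem case2 {U : ℕ} (hU : 1 ≤ U) :
    ∑ o ∈ OA U, (S1 U o).card * (S2 U o).card ≤ (PS (1000000 * U ^ 2)).card := by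
  classical
  obtain ⟨a, b, e, h1, h2, h3, h4⟩ := exists_pell (92 * U - 1)
  have hb1 : 92 * U ≤ b := by omega
  have hb2 : b ≤ 552 * U := by omega
  have h5 : 2 * a ≤ 3 * b := by nlinarith
  have ha : a ≤ 828 * U := by omega
  have hc : ∑ o ∈ OA U, (S1 U o).card * (S2 U o).card =
      ((OA U).sigma fun o => S1 U o ×ˢ S2 U o).card := by
    rw [Finset.card_sigma]
    exact Finset.sum_congr rfl fun o _ => (Finset.card_product _ _).symm
  rw [hc]
  refine Finset.card_le_card_of_injOn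
    (fun x => (tri x.2.1 + x.1, a * (2 * x.2.2 + 1) + x.2.2 + b * (2 * x.2.1 + 1))) ?_ ?_
  · rintro ⟨o, h, j⟩ hx
    rw [Finset.mem_coe, Finset.mem_sigma, Finset.mem_product, mem_OA, mem_S1, mem_S2] at hx
    simp only at hx
    obtain ⟨⟨x1, x2⟩, ⟨x3, x4, x5⟩, x6, x7, x8⟩ := hx
    rw [Finset.mem_coe]
    show (tri h + o, a * (2 * j + 1) + j + b * (2 * h + 1)) ∈ PS (1000000 * U ^ 2)
    rw [mem_PS]
    have y1 := two_mul_tri h
    have y2 := two_mul_tri j
    have y3 : h * (h + 1) ≤ U * (U + 1) := Nat.mul_le_mul x4 (by omega)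
    have y4 : U ≤ U ^ 2 := Nat.le_self_pow (by norm_num) U
    have y5 : U * (U + 1) = U ^ 2 + U := by ring
    have hle : tri h + o ≤ a * (2 * j + 1) + j + b * (2 * h + 1) := by
      have z1 : h * (2 * h + 1) ≤ b * (2 * h + 1) := Nat.mul_le_mul_right _ (by omega)
      nlinarith
    have hk : a * (2 * j + 1) + j + b * (2 * h + 1) ≤ 1000000 * U ^ 2 := by
      have z1 : a * (2 * j + 1) ≤ (828 * U) * (367 * U) := Nat.mul_le_mul ha (by omega)
      have z2 : b * (2 * h + 1) ≤ (552 * U) * (3 * U) := Nat.mul_le_mul hb2 (by omega)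
      have z3 : (828 * U) * (367 * U) = 303876 * U ^ 2 := by ring
      have z4 : (552 * U) * (3 * U) = 1656 * U ^ 2 := by ring
      omega
    have hP : Win false (2 * tri j + o) := by
      rcases draw_or x6 x1 with z | z
      · exact absurd z x8
      · exact z
    refine ⟨x5, by omega, hle, hk, ?_⟩
    refine draw_propagate (m := 2 * b * (2 * j + 1) + a * (2 * h + 1) + h)
      (t := 2 * tri j + o) x5 hle ?_ (Or.inr hP) ?_
    · have z1 : j * (2 * j + 1) ≤ 2 * b * (2 * j + 1) := Nat.mul_le_mul_right _ (by omega)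
      have z2 : 2 * tri j + o ≤ j * (2 * j + 1) + j := by nlinarith
      rcases Nat.eq_zero_or_pos j with z3 | z3
      · have := x1.pos
        omega
      · have z4 : 184 * U ≤ 2 * b := by omega
        have z5 : 2 * tri j + o ≤ j * j + 2 * j := by nlinarith
        have z6 : 184 * U * (2 * j + 1) ≤ 2 * b * (2 * j + 1) := Nat.mul_le_mul_right _ z4
        nlinarith
    · have := pell_family2 e j h
      omega
  · rintro ⟨o, h, j⟩ hx ⟨o', h', j'⟩ hx' hh
    rw [Finset.mem_coe, Finset.mem_sigma, Finset.mem_product, mem_OA, mem_S1, mem_S2] at hx hx'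
    simp only [Prod.mk.injEq] at hx hx' hh
    obtain ⟨e1, e2⟩ := hh
    obtain ⟨rfl, rfl⟩ := tri_add_inj hx.2.1.1 hx'.2.1.1 e1
    have : j = j' := by
      by_contra hne
      rcases Nat.lt_or_gt_of_ne hne with hlt | hlt
      · have : a * (2 * j + 1) ≤ a * (2 * j' + 1) := Nat.mul_le_mul_left _ (by omega)
        omega
      · have : a * (2 * j' + 1) ≤ a * (2 * j + 1) := Nat.mul_le_mul_left _ (by omega)
        omega
    subst this
    rfl

end Trib
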