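import Pool.Agent.Lib.MP_841d01_co.Defs2

namespace Trib

private lemma gr_beta_pos : 0 < Real.logb 2 Real.goldenRatio :=
  Real.logb_pos (by norm_num) Real.one_lt_goldenRatio

private lemma gr_key (L : ℝ) (hL : 0 ≤ L) :
    L ^ Real.logb 2 Real.goldenRatio + (2 * L) ^ Real.logb 2 Real.goldenRatio =
      (4 * L) ^ Real.logb 2 Real.goldenRatio := by
  have h2 : (2 : ℝ) ^ Real.logb 2 Real.goldenRatio = Real.goldenRatio :=
    Real.rpow_logb (by norm_num) (by norm_num) Real.goldenRatio_pos
  have h4 : (4 : ℝ) ^ Real.logb 2 Real.goldenRatio = Real.goldenRatio + 1 := by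
    rw [← Real.goldenRatio_sq, show (4 : ℝ) = 2 * 2 by norm_num,
      Real.mul_rpow (by norm_num) (by norm_num), h2]
    ring
  rw [Real.mul_rpow (by norm_num) hL, Real.mul_rpow (by norm_num) hL, h2, h4]
  ring

private lemma gr_exists_A {b M : ℝ} (hb : 0 < b) (hM : 0 < M) :
    ∃ A : ℝ, 0 ≤ A ∧ M * Real.exp (-A * b) ≤ 1 := by
  refine ⟨|Real.log M| / b, by positivity, ?_⟩
  have h1 : -(|Real.log M| / b) * b = -|Real.log M| := by field_simp
  rw [h1]
  have h2 : M = Real.exp (Real.log M) := (Real.exp_log hM).symm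
  nth_rw 1 [h2]
  rw [← Real.exp_add, Real.exp_le_one_iff]
  have := le_abs_self (Real.log M)
  linarith

/-- T11 -/
theorem growth (f : ℕ → ℝ) (hf : Monotone f) (h1 : ∀ x : ℕ, 2 ≤ x → 1 ≤ f x) (c : ℝ)
    (hc : 0 < c) (U₀ : ℕ)
    (hrec : ∀ U : ℕ, U₀ ≤ U → c * U / (Real.log U) ^ 2 * f (U / 16) * f (U ^ 2 / 16) ≤
      f (140000000 * U ^ 4)) :
    ∃ C : ℝ, 0 < C ∧ ∀ x : ℕ, 2 ≤ x →
      (x : ℝ) * Real.exp (-C * Real.log x ^ Real.logb 2 Real.goldenRatio) ≤ f x := by
  have hb0 := gr_beta_pos
  have hkey := gr_key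
  set b : ℝ := Real.logb 2 Real.goldenRatio with hb
  have hlog2 : 0 < Real.log 2 := Real.log_pos (by norm_num)
  have hlb : 0 < Real.log 2 ^ b := Real.rpow_pos_of_pos hlog2 _
  set K : ℝ := 57800 * 140000000 / c with hK
  have hK0 : 0 < K := by positivity
  set U1 : ℕ := max U₀ 280000000 with hU1
  have hU1a : U₀ ≤ U1 := le_max_left _ _
  have hU1b : 280000000 ≤ U1 := le_max_right _ _
  set X1 : ℕ := 140000000 * U1 ^ 4 with hX1
  have hX1a : U1 ≤ X1 := by
    have : U1 ≤ U1 ^ 4 := Nat.le_self_pow (by norm_num) _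
    omega
  have hX1r : (2 : ℝ) ≤ X1 := by
    have : (2 : ℕ) ≤ X1 := by omega
    exact_mod_cast this
  have hX1log : 0 < Real.log X1 := Real.log_pos (by linarith)
  obtain ⟨A, hA0, hA⟩ := gr_exists_A hlb
    (show 0 < K * X1 * Real.log X1 ^ 2 by positivity)
  -- the main induction
  have main : ∀ x : ℕ, 2 ≤ x →
      K * x * Real.exp (-A * Real.log x ^ b) * Real.log x ^ 2 ≤ f x := by
    intro x
    induction x using Nat.strong_induction_on with
    | _ x ih =>
      intro hx
      have hxr : (2 : ℝ) ≤ x := by exact_mod_cast hx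
      have hlx : Real.log 2 ≤ Real.log x := Real.log_le_log (by norm_num) hxr
      by_cases hxX : x < X1
      · -- small arguments
        have hxX' : (x : ℝ) ≤ X1 := by exact_mod_cast hxX.le
        have hl1 : Real.log x ≤ Real.log X1 := Real.log_le_log (by linarith) hxX'
        have hl2 : Real.log 2 ^ b ≤ Real.log x ^ b :=
          Real.rpow_le_rpow hlog2.le hlx hb0.le
        have hl3 : Real.exp (-A * Real.log x ^ b) ≤ Real.exp (-A * Real.log 2 ^ b) := by
          apply Real.exp_le_exp.2
          nlinarith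
        calc K * x * Real.exp (-A * Real.log x ^ b) * Real.log x ^ 2
            ≤ K * X1 * Real.exp (-A * Real.log 2 ^ b) * Real.log X1 ^ 2 := by
              gcongr
          _ = K * X1 * Real.log X1 ^ 2 * Real.exp (-A * Real.log 2 ^ b) := by ring
          _ ≤ 1 := hA
          _ ≤ f x := h1 x hx
      · push Not at hxX
        -- the scale
        set U : ℕ := Nat.findGreatest (fun U => 140000000 * U ^ 4 ≤ x) x with hU
        have hUU1 : U1 ≤ U := Nat.le_findGreatest (hX1a.trans hxX) hxX
        have hUx : 140000000 * U ^ 4 ≤ x :=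
          Nat.findGreatest_spec (P := fun U => 140000000 * U ^ 4 ≤ x) (m := 0) (Nat.zero_le _)
            (by simp)
        have hUbig : 280000000 ≤ U := hU1b.trans hUU1
        have hUle : U ≤ U ^ 4 := Nat.le_self_pow (by norm_num) _
        have hUx2 : x < 140000000 * (U + 1) ^ 4 := by
          by_contra hno
          push Not at hno
          have h3 : U + 1 ≤ x := by omega
          have := Nat.le_findGreatest (P := fun U => 140000000 * U ^ 4 ≤ x) h3 hno
          omega
        have hUr : (280000000 : ℝ) ≤ U := by exact_mod_cast hUbig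
        have hU0 : (0 : ℝ) < U := by linarith
        set L : ℝ := Real.log U with hL
        -- numerical facts on `L`
        have hL20 : Real.log 280000000 ≤ L := Real.log_le_log (by norm_num) hUr
        have hL1 : 0 < L := Real.log_pos (by linarith)
        have hUx' : 140000000 * (U : ℝ) ^ 4 ≤ x := by exact_mod_cast hUx
        have hUx2' : (x : ℝ) ≤ 280000000 * (U : ℝ) ^ 4 := by
          have h3 : (x : ℝ) ≤ 140000000 * ((U : ℝ) + 1) ^ 4 := by exact_mod_cast hUx2.le
          have h4 : ((U : ℝ) + 1) ≤ 7 / 6 * U := by linarith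
          have h5 : ((U : ℝ) + 1) ^ 4 ≤ (7 / 6 * U) ^ 4 := pow_le_pow_left₀ (by linarith) h4 4
          have h6 : (7 / 6 * (U : ℝ)) ^ 4 ≤ 2 * (U : ℝ) ^ 4 := by
            rw [mul_pow]
            have : (0 : ℝ) ≤ (U : ℝ) ^ 4 := by positivity
            nlinarith
          linarith
        have hlx1 : 4 * L ≤ Real.log x := by
          have h3 : (U : ℝ) ^ 4 ≤ x := by
            have : (0 : ℝ) ≤ (U : ℝ) ^ 4 := by positivity
            linarith
          have h4 := Real.log_le_log (by positivity) h3
          rw [Real.log_pow] at h4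
          exact_mod_cast h4
        have hlx2 : Real.log x ≤ 5 * L := by
          have h3 := Real.log_le_log (by linarith) hUx2'
          rw [Real.log_mul (by norm_num) (by positivity), Real.log_pow] at h3
          push_cast at h3
          linarith
        -- the two smaller arguments
        have hu1 : 2 ≤ U / 16 := by omega
        have hu1x : U / 16 < x := by omega
        have hU2 : U ^ 2 ≤ U ^ 4 := Nat.pow_le_pow_right (by omega) (by norm_num)
        have hUU : U ≤ U ^ 2 := Nat.le_self_pow (by norm_num) _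
        have hu2 : 2 ≤ U ^ 2 / 16 := by omega
        have hu2x : U ^ 2 / 16 < x := by omega
        have e1 := ih (U / 16) hu1x hu1
        have e2 := ih (U ^ 2 / 16) hu2x hu2
        have hv1 : (U : ℝ) / 17 ≤ ((U / 16 : ℕ) : ℝ) := by
          have h3 : U ≤ 17 * (U / 16) := by omega
          have h4 : (U : ℝ) ≤ 17 * ((U / 16 : ℕ) : ℝ) := by exact_mod_cast h3
          linarith
        have hv1' : ((U / 16 : ℕ) : ℝ) ≤ U := by exact_mod_cast Nat.div_le_self _ _
        have hv2 : (U : ℝ) ^ 2 / 17 ≤ ((U ^ 2 / 16 : ℕ) : ℝ) := by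
          have h3 : U ^ 2 ≤ 17 * (U ^ 2 / 16) := by omega
          have h4 : ((U ^ 2 : ℕ) : ℝ) ≤ 17 * ((U ^ 2 / 16 : ℕ) : ℝ) := by exact_mod_cast h3
          push_cast at h4 ⊢
          linarith
        have hv2' : ((U ^ 2 / 16 : ℕ) : ℝ) ≤ (U : ℝ) ^ 2 := by
          exact_mod_cast Nat.div_le_self _ _
        have hw1 : (0 : ℝ) < ((U / 16 : ℕ) : ℝ) := lt_of_lt_of_le (by positivity) hv1
        have hw2 : (0 : ℝ) < ((U ^ 2 / 16 : ℕ) : ℝ) := lt_of_lt_of_le (by positivity) hv2
        have hlog17 : Real.log 17 ≤ L / 2 := by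
          have h3 : Real.log 17 + Real.log 17 ≤ Real.log 280000000 := by
            rw [← Real.log_mul (by norm_num) (by norm_num)]
            exact Real.log_le_log (by norm_num) (by norm_num)
          linarith
        have hl17 : 0 ≤ Real.log 17 := Real.log_nonneg (by norm_num)
        have a1 : L / 2 ≤ Real.log ((U / 16 : ℕ) : ℝ) := by
          have h3 := Real.log_le_log (by positivity) hv1
          rw [Real.log_div (by positivity) (by norm_num)] at h3
          linarith
        have a1' : Real.log ((U / 16 : ℕ) : ℝ) ≤ L := Real.log_le_log hw1 hv1'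
        have a2 : L ≤ Real.log ((U ^ 2 / 16 : ℕ) : ℝ) := by
          have h3 := Real.log_le_log (by positivity) hv2
          rw [Real.log_div (by positivity) (by norm_num), Real.log_pow] at h3
          push_cast at h3
          push_cast
          linarith
        have a2' : Real.log ((U ^ 2 / 16 : ℕ) : ℝ) ≤ 2 * L := by
          have h3 := Real.log_le_log hw2 hv2'
          rw [Real.log_pow] at h3
          push_cast at h3
          exact_mod_cast h3
        have hE : ∀ y z : ℝ, 0 ≤ y → y ≤ z → Real.exp (-A * z ^ b) ≤ Real.exp (-A * y ^ b) := by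
          intro y z hy hyz
          apply Real.exp_le_exp.2
          have := Real.rpow_le_rpow hy hyz hb0.le
          nlinarith
        have g1 : K * (U / 17) * Real.exp (-A * L ^ b) * (L / 2) ^ 2 ≤ f (U / 16) := by
          refine le_trans ?_ e1
          have h3 := hE _ _ (by linarith) a1'
          gcongr
        have g2 : K * ((U : ℝ) ^ 2 / 17) * Real.exp (-A * (2 * L) ^ b) * L ^ 2 ≤
            f (U ^ 2 / 16) := by
          refine le_trans ?_ e2
          have h3 := hE _ _ (by linarith) a2'
          gcongr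
        have hf1 : 0 ≤ f (U / 16) := le_trans (by positivity) g1
        have hr := hrec U (hU1a.trans hUU1)
        have hmono : f (140000000 * U ^ 4) ≤ f x := hf hUx
        refine le_trans ?_ (hr.trans hmono)
        have g3 : c * U / L ^ 2 * (K * (U / 17) * Real.exp (-A * L ^ b) * (L / 2) ^ 2) *
            (K * ((U : ℝ) ^ 2 / 17) * Real.exp (-A * (2 * L) ^ b) * L ^ 2) ≤
            c * U / L ^ 2 * f (U / 16) * f (U ^ 2 / 16) := by
          gcongr
        refine le_trans ?_ g3
        have g4 : Real.exp (-A * L ^ b) * Real.exp (-A * (2 * L) ^ b) =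
            Real.exp (-A * (4 * L) ^ b) := by
          rw [← Real.exp_add, ← hkey L hL1.le]
          congr 1
          ring
        have g5 : c * U / L ^ 2 * (K * (U / 17) * Real.exp (-A * L ^ b) * (L / 2) ^ 2) *
            (K * ((U : ℝ) ^ 2 / 17) * Real.exp (-A * (2 * L) ^ b) * L ^ 2) =
            c * K ^ 2 / 1156 * (U : ℝ) ^ 4 * L ^ 2 * Real.exp (-A * (4 * L) ^ b) := by
          rw [← g4]
          field_simp
          ring
        have g6 : c * K ^ 2 / 1156 = K * 280000000 * 25 := by
          have h3 : c * K = 57800 * 140000000 := by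
            rw [hK]; field_simp
          calc c * K ^ 2 / 1156 = (c * K) * K / 1156 := by ring
            _ = K * 280000000 * 25 := by rw [h3]; ring
        rw [g5, g6]
        have h4 := hE _ _ (by linarith) hlx1
        have h5 : Real.log x ^ 2 ≤ (5 * L) ^ 2 :=
          pow_le_pow_left₀ (by linarith) hlx2 2
        calc K * x * Real.exp (-A * Real.log x ^ b) * Real.log x ^ 2
            ≤ K * (280000000 * (U : ℝ) ^ 4) * Real.exp (-A * (4 * L) ^ b) * (5 * L) ^ 2 := by
              gcongr
          _ = K * 280000000 * 25 * (U : ℝ) ^ 4 * L ^ 2 * Real.exp (-A * (4 * L) ^ b) := by ring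
  -- absorb the factor `K (log x)²`
  obtain ⟨B, hB0, hB⟩ := gr_exists_A hlb
    (show 0 < (K * Real.log 2 ^ 2)⁻¹ by positivity)
  refine ⟨A + B + 1, by linarith, fun x hx => le_trans ?_ (main x hx)⟩
  have hxr : (2 : ℝ) ≤ x := by exact_mod_cast hx
  have hlx : Real.log 2 ≤ Real.log x := Real.log_le_log (by norm_num) hxr
  have hl2 : Real.log 2 ^ b ≤ Real.log x ^ b := Real.rpow_le_rpow hlog2.le hlx hb0.le
  have hB' : Real.exp (-B * Real.log 2 ^ b) ≤ K * Real.log 2 ^ 2 := by
    rwa [inv_mul_le_iff₀ (by positivity), mul_one] at hB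
  have h3 : Real.exp (-(A + B + 1) * Real.log x ^ b) ≤
      Real.exp (-A * Real.log x ^ b) * Real.exp (-B * Real.log 2 ^ b) := by
    rw [← Real.exp_add]
    apply Real.exp_le_exp.2
    nlinarith
  have h5 : Real.log 2 ^ 2 ≤ Real.log x ^ 2 := pow_le_pow_left₀ hlog2.le hlx 2
  calc (x : ℝ) * Real.exp (-(A + B + 1) * Real.log x ^ b)
      ≤ x * (Real.exp (-A * Real.log x ^ b) * Real.exp (-B * Real.log 2 ^ b)) := by gcongr
    _ ≤ x * (Real.exp (-A * Real.log x ^ b) * (K * Real.log x ^ 2)) := by
        gcongr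
        exact hB'.trans (by gcongr)
    _ = K * x * Real.exp (-A * Real.log x ^ b) * Real.log x ^ 2 := by ring

end Trib
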