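import Pool.Agent.Lib.MP_841d01_co.Defs2

namespace Trib

namespace LowerN

open Classical in
lemma comb {x J : ℕ} (hJ : 2 ≤ J) (hx : J * J ≤ x) :
    (J - J / 2) * cnt false (J / 2) ≤ cnt true x := by
  have h1 : (J - J / 2) * cnt false (J / 2) =
      ((Finset.Ioc (J / 2) J) ×ˢ ((Finset.Icc 1 (J / 2)).filter fun n => Win false n)).card := by
    rw [Finset.card_product, Nat.card_Ioc]
    rfl
  rw [h1]
  unfold cnt
  apply Finset.card_le_card_of_injOn (fun v => tri v.1 + v.2)
  · rintro ⟨j, p⟩ hv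
    simp only [Finset.coe_product, Set.mem_prod, Finset.mem_coe, Finset.mem_Ioc,
      Finset.mem_filter, Finset.mem_Icc] at hv
    obtain ⟨⟨hj1, hj2⟩, ⟨hp1, hp2⟩, hw⟩ := hv
    simp only [Finset.mem_coe, Finset.mem_filter, Finset.mem_Icc]
    refine ⟨⟨by omega, ?_⟩, win_true_of_rem (by omega) (by omega) hw⟩
    have h2 := tri_mono hj2
    have h3 := two_mul_tri J
    have h4 : 2 * J ≤ J * J := Nat.mul_le_mul_right J hJ
    have h5 : J * (J + 1) = J * J + J := by ring
    omega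
  · rintro ⟨j, p⟩ hv ⟨j', p'⟩ hv' he
    simp only [Finset.coe_product, Set.mem_prod, Finset.mem_coe, Finset.mem_Ioc,
      Finset.mem_filter, Finset.mem_Icc] at hv hv'
    have he' : tri j + p = tri j' + p' := he
    have e1 : idx (tri j + p) = j := idx_tri_add (by omega)
    have e2 : idx (tri j' + p') = j' := idx_tri_add (by omega)
    have e3 : j = j' := by rw [← e1, ← e2, he']
    subst e3
    have e4 : p = p' := by omega
    rw [e4]

open Classical in
lemma cnt_true_pos {x : ℕ} (hx : 1 ≤ x) : 1 ≤ cnt true x := by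
  have hw : Win true 1 := by
    have h := win_true_of_rem (k := 1) (r := 0) le_rfl (Nat.zero_le _) Win.zero
    simpa [tri] using h
  have : 0 < cnt true x := by
    unfold cnt
    apply Finset.card_pos.2
    exact ⟨1, Finset.mem_filter.2 ⟨Finset.mem_Icc.2 ⟨le_rfl, hx⟩, hw⟩⟩
  exact this

end LowerN

open LowerN in
/-- T12 -/
theorem lowerN (h : ∃ C : ℝ, 0 < C ∧ ∀ x : ℕ, 2 ≤ x →
      (x : ℝ) * Real.exp (-C * Real.log x ^ Real.logb 2 Real.goldenRatio) ≤ cnt false x) :
    ∃ C : ℝ, 0 < C ∧ ∀ x : ℕ, 2 ≤ x →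
      (x : ℝ) * Real.exp (-C * Real.log x ^ Real.logb 2 Real.goldenRatio) ≤ cnt true x := by
  obtain ⟨C, hC, hP⟩ := h
  set β : ℝ := Real.logb 2 Real.goldenRatio with hβ
  have hβ0 : 0 < β := Real.logb_pos (by norm_num) Real.one_lt_goldenRatio
  have hl2 : 0 < Real.log 2 := Real.log_pos (by norm_num)
  have hl2β : 0 < Real.log 2 ^ β := Real.rpow_pos_of_pos hl2 _
  have hl16 : 0 < Real.log 16 := Real.log_pos (by norm_num)
  refine ⟨C + Real.log 16 / Real.log 2 ^ β, by positivity, fun x hx => ?_⟩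
  have hx2 : (2 : ℝ) ≤ (x : ℝ) := by exact_mod_cast hx
  have hx0 : (0 : ℝ) < (x : ℝ) := by linarith
  have hlx : Real.log 2 ^ β ≤ Real.log x ^ β :=
    Real.rpow_le_rpow hl2.le (Real.log_le_log (by norm_num) hx2) hβ0.le
  -- the factor `16`
  have key : (x : ℝ) * Real.exp (-(C + Real.log 16 / Real.log 2 ^ β) * Real.log x ^ β) ≤
      (x : ℝ) / 16 * Real.exp (-C * Real.log x ^ β) := by
    have e1 : -(C + Real.log 16 / Real.log 2 ^ β) * Real.log x ^ β =
        -C * Real.log x ^ β + -(Real.log 16 / Real.log 2 ^ β * Real.log x ^ β) := by ring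
    rw [e1, Real.exp_add]
    have e2 : Real.exp (-(Real.log 16 / Real.log 2 ^ β * Real.log x ^ β)) ≤ 1 / 16 := by
      have h3 : Real.log 16 ≤ Real.log 16 / Real.log 2 ^ β * Real.log x ^ β := by
        rw [div_mul_eq_mul_div, le_div_iff₀ hl2β]
        exact mul_le_mul_of_nonneg_left hlx hl16.le
      calc Real.exp (-(Real.log 16 / Real.log 2 ^ β * Real.log x ^ β))
          ≤ Real.exp (-Real.log 16) := Real.exp_le_exp.2 (by linarith)
        _ = 1 / 16 := by rw [Real.exp_neg, Real.exp_log (by norm_num), one_div]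
    have e3 : 0 < Real.exp (-C * Real.log x ^ β) := Real.exp_pos _
    have e4 : Real.exp (-C * Real.log x ^ β) *
        Real.exp (-(Real.log 16 / Real.log 2 ^ β * Real.log x ^ β)) ≤
        Real.exp (-C * Real.log x ^ β) * (1 / 16) := mul_le_mul_of_nonneg_left e2 e3.le
    have e5 := mul_le_mul_of_nonneg_left e4 hx0.le
    linarith
  refine key.trans ?_
  have hexp1 : Real.exp (-C * Real.log x ^ β) ≤ 1 := by
    rw [Real.exp_le_one_iff]
    have : 0 ≤ C * Real.log x ^ β := by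
      have := hl2β.le.trans hlx
      positivity
    linarith
  by_cases hsmall : x < 16
  · have h1 : (1 : ℝ) ≤ (cnt true x : ℝ) := by exact_mod_cast cnt_true_pos (by omega)
    have h2 : (x : ℝ) < 16 := by exact_mod_cast hsmall
    have h3 : (x : ℝ) / 16 * Real.exp (-C * Real.log x ^ β) ≤ 1 * 1 :=
      mul_le_mul (by linarith) hexp1 (Real.exp_pos _).le (by norm_num)
    linarith
  · push Not at hsmall
    set J : ℕ := Nat.sqrt x with hJ
    have hJ4 : 4 ≤ J := by
      rw [hJ, Nat.le_sqrt]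
      exact hsmall
    have hJx : J * J ≤ x := Nat.sqrt_le x
    have hxJ : x < (J + 1) * (J + 1) := Nat.lt_succ_sqrt x
    have h1 := comb (x := x) (J := J) (by omega) hJx
    have h2 := hP (J / 2) (by omega)
    have hH : (J : ℝ) * (3 / 8) ≤ ((J / 2 : ℕ) : ℝ) := by
      have : 3 * J ≤ 8 * (J / 2) := by omega
      have : (3 : ℝ) * J ≤ 8 * ((J / 2 : ℕ) : ℝ) := by exact_mod_cast this
      linarith
    have hD : (J : ℝ) / 2 ≤ ((J - J / 2 : ℕ) : ℝ) := by
      have : J ≤ 2 * (J - J / 2) := by omega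
      have : (J : ℝ) ≤ 2 * ((J - J / 2 : ℕ) : ℝ) := by exact_mod_cast this
      linarith
    have hHx : ((J / 2 : ℕ) : ℝ) ≤ (x : ℝ) := by
      have : J / 2 ≤ x := by
        have : J ≤ J * J := Nat.le_mul_self J
        omega
      exact_mod_cast this
    have hH2 : (2 : ℝ) ≤ ((J / 2 : ℕ) : ℝ) := by
      have : 2 ≤ J / 2 := by omega
      exact_mod_cast this
    have h3 : Real.exp (-C * Real.log x ^ β) ≤
        Real.exp (-C * Real.log ((J / 2 : ℕ) : ℝ) ^ β) := by
      apply Real.exp_le_exp.2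
      have h4 : Real.log ((J / 2 : ℕ) : ℝ) ^ β ≤ Real.log x ^ β :=
        Real.rpow_le_rpow (Real.log_nonneg (by linarith))
          (Real.log_le_log (by linarith) hHx) hβ0.le
      nlinarith
    have h5 : (J : ℝ) * (3 / 8) * Real.exp (-C * Real.log x ^ β) ≤ (cnt false (J / 2) : ℝ) :=
      (mul_le_mul hH h3 (Real.exp_pos _).le (by positivity)).trans h2
    have h6 : (J : ℝ) / 2 * ((J : ℝ) * (3 / 8) * Real.exp (-C * Real.log x ^ β)) ≤
        (cnt true x : ℝ) := by
      refine (mul_le_mul hD h5 (by positivity) (by positivity)).trans ?_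
      exact_mod_cast h1
    have h7 : (x : ℝ) / 16 ≤ (J : ℝ) / 2 * ((J : ℝ) * (3 / 8)) := by
      have h8 : (x : ℝ) ≤ ((J : ℝ) + 1) * ((J : ℝ) + 1) := by exact_mod_cast hxJ.le
      have h9 : (4 : ℝ) ≤ (J : ℝ) := by exact_mod_cast hJ4
      nlinarith
    calc (x : ℝ) / 16 * Real.exp (-C * Real.log x ^ β)
        ≤ (J : ℝ) / 2 * ((J : ℝ) * (3 / 8)) * Real.exp (-C * Real.log x ^ β) :=
          mul_le_mul_of_nonneg_right h7 (Real.exp_pos _).le
      _ = (J : ℝ) / 2 * ((J : ℝ) * (3 / 8) * Real.exp (-C * Real.log x ^ β)) := by ring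
      _ ≤ (cnt true x : ℝ) := h6

end Trib
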