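import Pool.Agent.Lib.MP_841d01_co.Rec
import Pool.Agent.Lib.MP_841d01_co.Growth
import Pool.Agent.Lib.MP_841d01_co.LowerN

namespace Trib

open Classical in
/-- T13 -/
theorem final : ∃ C : ℝ, 0 < C ∧ ∀ x : ℕ, 2 ≤ x →
    (x : ℝ) * Real.exp (-C * Real.log x ^ Real.logb 2 Real.goldenRatio) ≤ cnt false x ∧
    (x : ℝ) * Real.exp (-C * Real.log x ^ Real.logb 2 Real.goldenRatio) ≤ cnt true x := by
  obtain ⟨c, hc, U₀, hrec⟩ := recur
  have hmono : Monotone fun x => (cnt false x : ℝ) := by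
    intro x y hxy
    change (cnt false x : ℝ) ≤ (cnt false y : ℝ)
    unfold cnt
    exact_mod_cast Finset.card_le_card (Finset.filter_subset_filter _
      (Finset.Icc_subset_Icc le_rfl hxy))
  have hone : ∀ x : ℕ, 2 ≤ x → (1 : ℝ) ≤ cnt false x := by
    intro x hx
    have hw : Win false 2 := by
      have h := win_construct (p := 0) (s := 0) (j := 1) (k := 1) (m := 2) Win.zero Win.zero
        le_rfl (by norm_num) (by simp [tri]) (by norm_num) (by norm_num) (by simp [tri])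
      simpa [tri] using h
    have : 0 < cnt false x := by
      unfold cnt
      apply Finset.card_pos.2
      exact ⟨2, Finset.mem_filter.2 ⟨Finset.mem_Icc.2 ⟨by norm_num, hx⟩, hw⟩⟩
    exact_mod_cast this
  obtain ⟨C₁, hC₁, h₁⟩ := growth (fun x => (cnt false x : ℝ)) hmono hone c hc U₀ hrec
  obtain ⟨C₂, hC₂, h₂⟩ := lowerN ⟨C₁, hC₁, h₁⟩
  refine ⟨max C₁ C₂, lt_max_of_lt_left hC₁, fun x hx => ⟨?_, ?_⟩⟩
  · refine le_trans ?_ (h₁ x hx)
    have hlog : 0 ≤ Real.log x ^ Real.logb 2 Real.goldenRatio :=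
      Real.rpow_nonneg (Real.log_natCast_nonneg x) _
    gcongr
    nlinarith [le_max_left C₁ C₂]
  · refine le_trans ?_ (h₂ x hx)
    have hlog : 0 ≤ Real.log x ^ Real.logb 2 Real.goldenRatio :=
      Real.rpow_nonneg (Real.log_natCast_nonneg x) _
    gcongr
    nlinarith [le_max_right C₁ C₂]

end Trib
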