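import Pool.Agent.Lib.MP_841d01_co.DrawCase1
import Pool.Agent.Lib.MP_841d01_co.Final

/-!
# MP_841d01_co : the recursive inequality for the pairs of draws
-/

namespace Trib

open Filter Asymptotics Topology

/-- `β = log₂ φ < 1`. -/
theorem beta_lt_one : Real.logb 2 Real.goldenRatio < 1 := by
  rw [Real.logb_lt_iff_lt_rpow (by norm_num) Real.goldenRatio_pos, Real.rpow_one]
  exact Real.goldenRatio_lt_two

theorem beta_pos : 0 < Real.logb 2 Real.goldenRatio :=
  Real.logb_pos (by norm_num) Real.one_lt_goldenRatio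

/-- `P` is large. -/
theorem P_large : ∃ U₀ : ℕ, ∀ U : ℕ, U₀ ≤ U →
    (U : ℝ) ^ (3 / 2 : ℝ) ≤ (cnt false (U ^ 2 / 16) : ℝ) := by
  obtain ⟨C, hC, hfin⟩ := final
  set β : ℝ := Real.logb 2 Real.goldenRatio with hβ
  have hβ1 : β < 1 := beta_lt_one
  -- `C (2 L) ^ β + log 32 ≤ L / 2` for large `L`
  have h1 : ∀ᶠ L : ℝ in atTop, C * (2 * L) ^ β + Real.log 32 ≤ L / 2 := by
    have h2 : (fun L : ℝ => (2 * L) ^ β) =o[atTop] fun L : ℝ => L := by
      have h3 : (fun L : ℝ => L ^ β) =o[atTop] fun L : ℝ => L := by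
        rw [isLittleO_iff_tendsto' (by
          filter_upwards [eventually_gt_atTop (0 : ℝ)] with L hL h0
          exact absurd h0 hL.ne')]
        refine (tendsto_rpow_neg_atTop (show 0 < 1 - β by linarith)).congr' ?_
        filter_upwards [eventually_gt_atTop (0 : ℝ)] with L hL
        rw [← Real.rpow_sub_one hL.ne']
        congr 1
        ring
      have h4 : (fun L : ℝ => (2 : ℝ) ^ β * L ^ β) =o[atTop] fun L : ℝ => L :=
        h3.const_mul_left _
      refine h4.congr' ?_ (Eventually.of_forall fun _ => rfl)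
      filter_upwards [eventually_ge_atTop (0 : ℝ)] with L hL
      rw [Real.mul_rpow (by norm_num) hL]
    have h5 := h2.bound (show 0 < 1 / (4 * C) by positivity)
    filter_upwards [h5, eventually_ge_atTop (4 * Real.log 32), eventually_ge_atTop (0 : ℝ)]
      with L hL hL1 hL2
    rw [Real.norm_eq_abs, Real.norm_eq_abs, abs_of_nonneg hL2,
      abs_of_nonneg (Real.rpow_nonneg (by linarith) _)] at hL
    have h6 : C * (2 * L) ^ β ≤ L / 4 := by
      calc C * (2 * L) ^ β ≤ C * (1 / (4 * C) * L) := mul_le_mul_of_nonneg_left hL hC.le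
        _ = L / 4 := by field_simp
    linarith
  have h7 : Tendsto (fun U : ℕ => Real.log U) atTop atTop :=
    Real.tendsto_log_atTop.comp tendsto_natCast_atTop_atTop
  obtain ⟨U₀, h8⟩ := eventually_atTop.1 (h7.eventually h1)
  refine ⟨max U₀ 8, fun U hU => ?_⟩
  have h9 := h8 U ((le_max_left _ _).trans hU)
  have hU8 : 8 ≤ U := (le_max_right _ _).trans hU
  have hUr : (8 : ℝ) ≤ U := by exact_mod_cast hU8
  have hU0 : (0 : ℝ) < U := by linarith
  set L : ℝ := Real.log U with hL
  have hL0 : 0 ≤ L := Real.log_nonneg (by linarith)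
  have hy : U ^ 2 ≤ 32 * (U ^ 2 / 16) := by
    have : 64 ≤ U ^ 2 := by nlinarith
    omega
  have hy2 : 2 ≤ U ^ 2 / 16 := by
    have : 64 ≤ U ^ 2 := by nlinarith
    omega
  have hf := hfin (U ^ 2 / 16) hy2
  refine le_trans ?_ hf.1
  have hyr : (U : ℝ) ^ 2 / 32 ≤ ((U ^ 2 / 16 : ℕ) : ℝ) := by
    have : ((U ^ 2 : ℕ) : ℝ) ≤ ((32 * (U ^ 2 / 16) : ℕ) : ℝ) := by exact_mod_cast hy
    push_cast at this
    push_cast
    linarith
  have hyl : Real.log ((U ^ 2 / 16 : ℕ) : ℝ) ≤ 2 * L := by
    have e1 : ((U ^ 2 / 16 : ℕ) : ℝ) ≤ (U : ℝ) ^ 2 := by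
      have : U ^ 2 / 16 ≤ U ^ 2 := Nat.div_le_self _ _
      exact_mod_cast this
    have e2 : (0 : ℝ) < ((U ^ 2 / 16 : ℕ) : ℝ) := by
      have : 0 < U ^ 2 / 16 := by omega
      exact_mod_cast this
    have e3 := Real.log_le_log e2 e1
    rw [Real.log_pow] at e3
    exact_mod_cast e3
  have hyl0 : 0 ≤ Real.log ((U ^ 2 / 16 : ℕ) : ℝ) := Real.log_natCast_nonneg _
  have hpow : Real.log ((U ^ 2 / 16 : ℕ) : ℝ) ^ β ≤ (2 * L) ^ β :=
    Real.rpow_le_rpow hyl0 hyl beta_pos.le
  have hexp : Real.exp (-(L / 2) + Real.log 32) ≤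
      Real.exp (-C * Real.log ((U ^ 2 / 16 : ℕ) : ℝ) ^ β) := by
    apply Real.exp_le_exp.2
    have := mul_le_mul_of_nonneg_left hpow hC.le
    linarith
  have hlhs : (U : ℝ) ^ (3 / 2 : ℝ) = (U : ℝ) ^ 2 / 32 * Real.exp (-(L / 2) + Real.log 32) := by
    rw [Real.exp_add, Real.exp_log (by norm_num)]
    have e1 : (U : ℝ) ^ (3 / 2 : ℝ) = Real.exp (L * (3 / 2)) := by
      rw [Real.rpow_def_of_pos hU0]
    have e2 : (U : ℝ) ^ 2 = Real.exp (2 * L) := by
      rw [hL, two_mul, Real.exp_add, Real.exp_log hU0]; ring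
    rw [e1, e2]
    have e3 : Real.exp (2 * L) / 32 * (Real.exp (-(L / 2)) * 32) =
        Real.exp (2 * L) * Real.exp (-(L / 2)) := by ring
    rw [e3, ← Real.exp_add]
    congr 1
    ring
  rw [hlhs]
  exact mul_le_mul hyr hexp (Real.exp_pos _).le (Nat.cast_nonneg _)

/-- The number of the primes is larger than a multiple of the logarithm. -/
theorem QQ_large : ∃ U₀ : ℕ, ∀ U : ℕ, U₀ ≤ U → 44 * (Nat.log 2 U + 1) ≤ (QQ U).card := by
  obtain ⟨c, hc, U₁, hU₁, hcard⟩ := card_QQ
  have h1 : ∀ᶠ U : ℕ in atTop, Real.log U ^ 2 * (132 / c) ≤ U := by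
    have h := (isLittleO_log_rpow_rpow_atTop 2 (show (0:ℝ) < 1 by norm_num)).bound
      (show 0 < c / 132 by positivity)
    have h2 := (tendsto_natCast_atTop_atTop (R := ℝ)).eventually h
    filter_upwards [h2] with U hU
    rw [Real.norm_eq_abs, Real.norm_eq_abs, Real.rpow_one,
      abs_of_nonneg (show (0:ℝ) ≤ (U : ℝ) from Nat.cast_nonneg U)] at hU
    have h4 : |Real.log (U : ℝ) ^ (2 : ℝ)| = Real.log U ^ 2 := by
      rw [show (2 : ℝ) = ((2 : ℕ) : ℝ) by norm_num, Real.rpow_natCast]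
      exact abs_of_nonneg (sq_nonneg _)
    rw [h4] at hU
    calc Real.log U ^ 2 * (132 / c) ≤ (c / 132 * U) * (132 / c) := by gcongr
      _ = U := by field_simp
  obtain ⟨U₂, h2⟩ := eventually_atTop.1 h1
  refine ⟨max (max U₁ U₂) 20000, fun U hU => ?_⟩
  have hUU1 : U₁ ≤ U := by omega
  have hUU2 : U₂ ≤ U := by omega
  have hU3 : 20000 ≤ U := by omega
  have hUr : (20000 : ℝ) ≤ U := by exact_mod_cast hU3
  have hlog1 : 1 ≤ Real.log U := by
    rw [Real.le_log_iff_exp_le (by linarith)]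
    have := Real.exp_one_lt_d9
    linarith
  have hlog2 : (Nat.log 2 U : ℝ) ≤ Real.log U / Real.log 2 := by
    have := Real.natLog_le_logb U 2
    unfold Real.logb at this
    exact_mod_cast this
  have hl2 : 0.6931471803 < Real.log 2 := Real.log_two_gt_d9
  have hlog3 : (Nat.log 2 U : ℝ) + 1 ≤ 3 * Real.log U := by
    have h3 : Real.log U / Real.log 2 ≤ 2 * Real.log U := by
      rw [div_le_iff₀ (by linarith)]
      nlinarith
    linarith
  have h3 := hcard U hUU1
  have h4 := h2 U hUU2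
  have h5 : 132 * Real.log U ≤ c * U / Real.log U := by
    rw [le_div_iff₀ (by linarith)]
    have : Real.log U ^ 2 * (132 / c) * c ≤ U * c := mul_le_mul_of_nonneg_right h4 hc.le
    have e : Real.log U ^ 2 * (132 / c) * c = 132 * Real.log U * Real.log U := by
      field_simp
    linarith
  have h6 : ((44 * (Nat.log 2 U + 1) : ℕ) : ℝ) ≤ ((QQ U).card : ℝ) := by
    push_cast
    calc 44 * ((Nat.log 2 U : ℝ) + 1) ≤ 44 * (3 * Real.log U) := by gcongr
      _ = 132 * Real.log U := by ring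
      _ ≤ c * U / Real.log U := h5
      _ ≤ _ := h3
  exact_mod_cast h6

theorem draw_rec : ∃ U₀ : ℕ, ∀ U : ℕ, U₀ ≤ U →
    cnt false (U ^ 2 / 16) * (PS U).card ≤ 1001 * U * (PS (1000000 * U ^ 2)).card := by
  classical
  obtain ⟨U₁, hbad⟩ := bad_one
  obtain ⟨U₂, hP⟩ := P_large
  obtain ⟨U₃, hQ⟩ := QQ_large
  refine ⟨max (max U₁ U₂) (max U₃ 20000), fun U hU => ?_⟩
  have hU1 : U₁ ≤ U := by omega
  have hU2 : U₂ ≤ U := by omega
  have hU3 : U₃ ≤ U := by omega
  have hU4 : 20000 ≤ U := by omega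
  set B := (Finset.Icc 1 (U ^ 2 / 16)).filter fun n => Win false n with hB
  have hBc : cnt false (U ^ 2 / 16) = B.card := by
    unfold cnt
    rw [hB]
  have hBm : ∀ s ∈ B, Win false s ∧ 16 * s ≤ U ^ 2 := by
    intro s hs
    rw [hB, Finset.mem_filter, Finset.mem_Icc] at hs
    exact ⟨hs.2, by omega⟩
  have hBl := hP U hU2
  rw [hBc] at hBl ⊢
  set N := (QQ U).card with hN
  set F := (PS (1000000 * U ^ 2)).card with hF
  have hNl := hQ U hU3
  rw [← hN] at hNl
  set A := (OA U).filter fun o => (S2 U o).card * (1000 * U) < B.card with hA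
  set T := (A ×ˢ (B ×ˢ QQ U)).filter fun t => jacobiSym (dd t.1 t.2.1) t.2.2 = 1 with hT
  have hAm : ∀ o ∈ A, Draw o ∧ 16 * o ≤ U ∧ (S2 U o).card * (1000 * U) < B.card := by
    intro o ho
    rw [hA, Finset.mem_filter, mem_OA] at ho
    exact ⟨ho.1.1, ho.1.2, ho.2⟩
  -- lower bound for `T`
  have hlow : A.card * B.card * N ≤ 8 * T.card := by
    have e1 : T.card = ∑ o ∈ A, ∑ s ∈ B, ((QQ U).filter fun q => jacobiSym (dd o s) q = 1).card := by
      rw [hT, Finset.card_filter, Finset.sum_product]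
      refine Finset.sum_congr rfl fun o _ => ?_
      rw [Finset.sum_product]
      refine Finset.sum_congr rfl fun s _ => ?_
      rw [Finset.card_filter]
    have e2 : ∀ o ∈ A, B.card * N ≤
        8 * ∑ s ∈ B, ((QQ U).filter fun q => jacobiSym (dd o s) q = 1).card := by
      intro o ho
      obtain ⟨a1, a2, a3⟩ := hAm o ho
      have b1 := hbad U hU1 o a2 B (fun s hs => (hBm s hs).2) hBl
      set Bad := B.filter fun s => 4 * ((QQ U).filter fun q => jacobiSym (dd o s) q = 1).card <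
        (QQ U).card with hBad
      have b2 : Bad.card + (B.filter fun s => ¬ 4 * ((QQ U).filter fun q =>
          jacobiSym (dd o s) q = 1).card < (QQ U).card).card = B.card :=
        Finset.card_filter_add_card_filter_not _
      set Good := B.filter fun s => ¬ 4 * ((QQ U).filter fun q =>
          jacobiSym (dd o s) q = 1).card < (QQ U).card with hGood
      have b3 : Good.card * N ≤
          4 * ∑ s ∈ B, ((QQ U).filter fun q => jacobiSym (dd o s) q = 1).card := by
        have c1 : ∑ _s ∈ Good, N ≤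
            ∑ s ∈ Good, 4 * ((QQ U).filter fun q => jacobiSym (dd o s) q = 1).card := by
          refine Finset.sum_le_sum fun s hs => ?_
          rw [hGood, Finset.mem_filter] at hs
          omega
        rw [Finset.sum_const, smul_eq_mul, ← Finset.mul_sum] at c1
        refine c1.trans (Nat.mul_le_mul_left _ ?_)
        exact Finset.sum_le_sum_of_subset (Finset.filter_subset _ _)
      have b4 : B.card ≤ 2 * Good.card := by omega
      calc B.card * N ≤ 2 * Good.card * N := Nat.mul_le_mul_right _ b4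
        _ = 2 * (Good.card * N) := by ring
        _ ≤ 2 * (4 * ∑ s ∈ B, ((QQ U).filter fun q => jacobiSym (dd o s) q = 1).card) :=
            Nat.mul_le_mul_left _ b3
        _ = _ := by ring
    rw [e1, Finset.mul_sum]
    calc A.card * B.card * N = ∑ _o ∈ A, B.card * N := by
          rw [Finset.sum_const, smul_eq_mul, mul_assoc]
      _ ≤ _ := Finset.sum_le_sum e2
  -- upper bound for `T`
  have hup := case1 hU4 A T (by
    intro t ht
    rw [hT, Finset.mem_filter, Finset.mem_product, Finset.mem_product] at ht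
    obtain ⟨⟨t1, t2, t3⟩, t4⟩ := ht
    obtain ⟨a1, a2, a3⟩ := hAm _ t1
    obtain ⟨b1, b2⟩ := hBm _ t2
    exact ⟨t1, a1, b1, t3, a2, b2, t4⟩)
  rw [← hF, ← hN] at hup
  have hS2 : (∑ o ∈ A, (S2 U o).card) * (1000 * U) ≤ A.card * B.card := by
    rw [Finset.sum_mul]
    calc ∑ o ∈ A, (S2 U o).card * (1000 * U) ≤ ∑ _o ∈ A, B.card :=
          Finset.sum_le_sum fun o ho => (hAm o ho).2.2.le
      _ = A.card * B.card := by rw [Finset.sum_const, smul_eq_mul]
  -- `|A| |B| ≤ F`
  have hAB : A.card * B.card ≤ F := by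
    have e1 : 1000 * T.card ≤ 3000 * (Nat.log 2 U + 1) * F + 56 * (A.card * B.card * N) := by
      calc 1000 * T.card ≤ 1000 * (3 * (Nat.log 2 U + 1) * F +
            (∑ o ∈ A, (S2 U o).card) * (N * (56 * U))) := Nat.mul_le_mul_left _ hup
        _ = 3000 * (Nat.log 2 U + 1) * F +
            56 * (((∑ o ∈ A, (S2 U o).card) * (1000 * U)) * N) := by ring
        _ ≤ 3000 * (Nat.log 2 U + 1) * F + 56 * (A.card * B.card * N) := by
            gcongr
    have e2 : 69 * (A.card * B.card * N) ≤ 3000 * (Nat.log 2 U + 1) * F := by omega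
    have e3 : 69 * (A.card * B.card) * (44 * (Nat.log 2 U + 1)) ≤
        3000 * (Nat.log 2 U + 1) * F := by
      refine le_trans ?_ e2
      calc 69 * (A.card * B.card) * (44 * (Nat.log 2 U + 1)) ≤ 69 * (A.card * B.card) * N :=
            Nat.mul_le_mul_left _ hNl
        _ = _ := by ring
    have e4 : (3036 * (A.card * B.card)) * (Nat.log 2 U + 1) ≤
        (3036 * F) * (Nat.log 2 U + 1) := by
      calc (3036 * (A.card * B.card)) * (Nat.log 2 U + 1) =
            69 * (A.card * B.card) * (44 * (Nat.log 2 U + 1)) := by ring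
        _ ≤ 3000 * (Nat.log 2 U + 1) * F := e3
        _ ≤ 3036 * (Nat.log 2 U + 1) * F := by gcongr; norm_num
        _ = _ := by ring
    have e5 := Nat.le_of_mul_le_mul_right e4 (Nat.succ_pos _)
    omega
  -- the sum over `A`
  have hsum1 : B.card * ∑ o ∈ A, (S1 U o).card ≤ U * F := by
    have e1 : ∑ o ∈ A, (S1 U o).card ≤ A.card * U := by
      calc ∑ o ∈ A, (S1 U o).card ≤ ∑ _o ∈ A, U :=
            Finset.sum_le_sum fun o ho => card_S1_le U (hAm o ho).1.pos
        _ = A.card * U := by rw [Finset.sum_const, smul_eq_mul]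
    calc B.card * ∑ o ∈ A, (S1 U o).card ≤ B.card * (A.card * U) := Nat.mul_le_mul_left _ e1
      _ = A.card * B.card * U := by ring
      _ ≤ F * U := Nat.mul_le_mul_right _ hAB
      _ = U * F := by ring
  -- the sum over the other `o`
  have hsum2 : B.card * ∑ o ∈ (OA U).filter (fun o => ¬ (S2 U o).card * (1000 * U) < B.card),
      (S1 U o).card ≤ 1000 * U * F := by
    have e1 := case2 (U := U) (by omega)
    rw [← hF] at e1
    rw [Finset.mul_sum]
    calc ∑ o ∈ (OA U).filter (fun o => ¬ (S2 U o).card * (1000 * U) < B.card),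
          B.card * (S1 U o).card
        ≤ ∑ o ∈ (OA U).filter (fun o => ¬ (S2 U o).card * (1000 * U) < B.card),
          1000 * U * ((S1 U o).card * (S2 U o).card) := by
          refine Finset.sum_le_sum fun o ho => ?_
          rw [Finset.mem_filter] at ho
          have h2 := Nat.le_of_not_lt ho.2
          calc B.card * (S1 U o).card ≤ ((S2 U o).card * (1000 * U)) * (S1 U o).card :=
                Nat.mul_le_mul_right _ h2
            _ = _ := by ring
      _ ≤ ∑ o ∈ OA U, 1000 * U * ((S1 U o).card * (S2 U o).card) :=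
          Finset.sum_le_sum_of_subset (Finset.filter_subset _ _)
      _ = 1000 * U * ∑ o ∈ OA U, (S1 U o).card * (S2 U o).card := by rw [Finset.mul_sum]
      _ ≤ 1000 * U * F := Nat.mul_le_mul_left _ e1
  have htot : (PS U).card = ∑ o ∈ A, (S1 U o).card +
      ∑ o ∈ (OA U).filter (fun o => ¬ (S2 U o).card * (1000 * U) < B.card), (S1 U o).card := by
    rw [card_PS, hA, Finset.sum_filter_add_sum_filter_not]
  rw [htot, Nat.mul_add]
  calc _ ≤ U * F + 1000 * U * F := Nat.add_le_add hsum1 hsum2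
    _ = 1001 * U * F := by ring

end Trib
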