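import Pool.Agent.Lib.MP_841d01_co.Defs

/-!
# MP_841d01_co : draws are not rare
-/

namespace Trib

/-- `n` is an `O`-position: neither player can force a win. -/
def Draw (n : ℕ) : Prop := ¬ Win false n ∧ ¬ Win true n

/-- The two outcomes exclude each other. -/
theorem win_excl {b : Bool} {n : ℕ} (h : Win b n) : ¬ Win (!b) n := by
  induction h with
  | zero =>
    intro h
    cases h with
    | down h _ => omega
    | up h _ => omega
  | down h _ ih =>
    intro h'
    cases h' with
    | zero => omega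
    | both _ h₁ _ => exact ih h₁
  | up h _ ih =>
    intro h'
    cases h' with
    | zero => omega
    | both _ _ h₂ => exact ih h₂
  | both h _ _ ih₁ ih₂ =>
    intro h'
    cases h' with
    | down _ hw => exact ih₁ hw
    | up _ hw => exact ih₂ hw

theorem Draw.pos {n : ℕ} (h : Draw n) : 1 ≤ n := by
  rcases Nat.eq_zero_or_pos n with rfl | h'
  · exact absurd Win.zero h.1
  · exact h'

/-- A position with an option in `O` is not in `P`. -/
theorem not_P_of_rem {k r : ℕ} (hr : r ≤ k) (hd : Draw r) : ¬ Win false (tri k + r) := by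
  intro h
  have h1 : tri k + r - tau (tri k + r) = r := by
    rw [tau_tri_add hr]; omega
  have h0 := hd.pos
  generalize hn : tri k + r = n at h h1
  cases h with
  | zero => omega
  | both _ h₁ _ =>
    rw [h1] at h₁
    exact hd.2 h₁

/-- The dichotomy: `T_k + r`, `r ∈ O`, is in `O` unless `2 T_k + r ∈ P`. -/
theorem draw_or {k r : ℕ} (hr : r ≤ k) (hd : Draw r) :
    Draw (tri k + r) ∨ Win false (2 * tri k + r) := by
  by_cases hw : Win true (tri k + r)
  · right
    have h1 : tri k + r - tau (tri k + r) = r := by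
      rw [tau_tri_add hr]; omega
    have h2 : tri k + r + tau (tri k + r) = 2 * tri k + r := by
      rw [tau_tri_add hr]; omega
    generalize hn : tri k + r = n at hw h1 h2
    cases hw with
    | down _ h =>
      rw [h1] at h
      exact absurd h hd.1
    | up _ h =>
      rw [h2] at h
      exact h
  · exact Or.inl ⟨not_P_of_rem hr hd, hw⟩

/-- If `2 T_j + r ∈ P` and `T_k = (T_m + 2 T_j) / 2` then `T_k + r ∈ O`. -/
theorem draw_of_P {j k m r : ℕ} (hd : Draw r) (hr : r ≤ k) (hP : Win false (2 * tri j + r))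
    (ht : 2 * tri j + r ≤ m) (h : 2 * tri k = tri m + 2 * tri j) : Draw (tri k + r) := by
  have h0 := hd.pos
  rcases draw_or hr hd with h1 | h1
  · exact h1
  · exfalso
    have e : 2 * tri k + r = tri m + (2 * tri j + r) := by omega
    rw [e] at h1
    exact win_excl h1 (win_true_of_rem (by omega) ht hP)

/-- Propagation of draws. -/
theorem draw_propagate {o k m t : ℕ} (hd : Draw o) (hk : o ≤ k) (ht : t ≤ m)
    (h : Draw t ∨ Win false t) (e : 2 * tri k + o = tri m + t) : Draw (tri k + o) := by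
  have h0 := hd.pos
  have hm : 1 ≤ m := by
    rcases Nat.eq_zero_or_pos m with rfl | h'
    · have : t = 0 := by omega
      subst this
      simp [tri] at e
      omega
    · exact h'
  rcases draw_or hk hd with h1 | h1
  · exact h1
  · exfalso
    rw [e] at h1
    rcases h with h | h
    · exact not_P_of_rem ht h h1
    · exact win_excl h1 (win_true_of_rem hm ht h)

/-- Solutions of `a (a + 1) = 2 b ^ 2`. -/
theorem exists_pell (V : ℕ) : ∃ a b : ℕ, a * (a + 1) = 2 * b ^ 2 ∧ V + 1 ≤ b ∧ b ≤ 6 * (V + 1) ∧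
    1 ≤ a ∧ a ≤ 2 * b := by
  induction V with
  | zero => exact ⟨1, 1, by norm_num, by norm_num, by norm_num, by norm_num, by norm_num⟩
  | succ V ih =>
    obtain ⟨a, b, h, h1, h2, h3, h4⟩ := ih
    by_cases hb : V + 1 + 1 ≤ b
    · exact ⟨a, b, h, hb, by omega, h3, h4⟩
    · have hb' : b = V + 1 := by omega
      have h5 : 2 * a ≤ 3 * b := by nlinarith
      refine ⟨3 * a + 4 * b + 1, 2 * a + 3 * b + 1, by nlinarith, by omega, by omega, by omega, ?_⟩
      omega

/-- The Pell-type family of solutions of `2 T_k = T_m + 2 T_j`, for all `j` at once. -/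
theorem pell_family {a b : ℕ} (h : a * (a + 1) = 2 * b ^ 2) (j : ℕ) :
    2 * tri (b + a * (2 * j + 1) + j) = tri (a + 2 * b * (2 * j + 1)) + 2 * tri j := by
  have h1 := two_mul_tri (b + a * (2 * j + 1) + j)
  have h2 := two_mul_tri (a + 2 * b * (2 * j + 1))
  have h3 := two_mul_tri j
  have h4 : 2 * ((b + a * (2 * j + 1) + j) * (b + a * (2 * j + 1) + j + 1)) =
      (a + 2 * b * (2 * j + 1)) * (a + 2 * b * (2 * j + 1) + 1) + 2 * (j * (j + 1)) := by
    zify
    have h' : (a : ℤ) * (a + 1) = 2 * b ^ 2 := by exact_mod_cast h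
    linear_combination (2 * (2 * (j : ℤ) + 1) ^ 2 - 1) * h'
  omega

open Classical in
/-- For every `o ∈ O` and `V ≥ o` at least `V` of the indices `k` in `[V, 72 V ^ 2]` have
`T_k + o ∈ O`. -/
theorem many_indices {o V : ℕ} (hd : Draw o) (hV : o ≤ V) :
    V ≤ ((Finset.Icc V (72 * V ^ 2)).filter fun k => Draw (tri k + o)).card := by
  have ho := hd.pos
  obtain ⟨a, b, h, h1, h2, h3, h4⟩ := exists_pell (2 * V - 1)
  have hb1 : 2 * V ≤ b := by omega
  have hb2 : b ≤ 12 * V := by omega
  have h5 : 2 * a ≤ 3 * b := by nlinarith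
  set φ : ℕ → ℕ := fun i => if Draw (tri (V + i) + o) then V + i
    else b + a * (2 * (V + i) + 1) + (V + i) with hφ
  have hinj : Set.InjOn φ (Finset.range V : Set ℕ) := by
    intro i hi i' hi' e
    simp only [Finset.coe_range, Set.mem_Iio] at hi hi'
    simp only [hφ] at e
    split_ifs at e with c1 c2 c2
    · omega
    · exfalso
      have : 0 ≤ a * (2 * (V + i') + 1) := Nat.zero_le _
      omega
    · exfalso
      have : 0 ≤ a * (2 * (V + i) + 1) := Nat.zero_le _
      omega
    · by_contra hne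
      rcases Nat.lt_or_gt_of_ne hne with hlt | hlt
      · have : a * (2 * (V + i) + 1) ≤ a * (2 * (V + i') + 1) :=
          Nat.mul_le_mul_left _ (by omega)
        omega
      · have : a * (2 * (V + i') + 1) ≤ a * (2 * (V + i) + 1) :=
          Nat.mul_le_mul_left _ (by omega)
        omega
  calc V = (Finset.range V).card := (Finset.card_range V).symm
    _ ≤ _ := by
      refine Finset.card_le_card_of_injOn φ (fun i hi => ?_) hinj
      simp only [Finset.coe_range, Set.mem_Iio] at hi
      have hA : V + i ≤ 72 * V ^ 2 := by nlinarith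
      have hB : b + a * (2 * (V + i) + 1) + (V + i) ≤ 72 * V ^ 2 := by
        have e1 : a * (2 * (V + i) + 1) ≤ a * (4 * V - 1) := Nat.mul_le_mul_left _ (by omega)
        obtain ⟨W, rfl⟩ : ∃ W, V = W + 1 := ⟨V - 1, by omega⟩
        have e2 : 4 * (W + 1) - 1 = 4 * W + 3 := by omega
        rw [e2] at e1
        nlinarith
      rw [Finset.mem_coe, Finset.mem_filter, Finset.mem_Icc]
      simp only [hφ]
      split_ifs with c
      · exact ⟨⟨by omega, hA⟩, c⟩
      · refine ⟨⟨by omega, hB⟩, ?_⟩
        have hor := draw_or (k := V + i) (r := o) (by omega) hd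
        rcases hor with hor | hor
        · exact absurd hor c
        · refine draw_of_P (j := V + i) (m := a + 2 * b * (2 * (V + i) + 1)) hd ?_ hor ?_
            (pell_family h _)
          · omega
          · have e3 := two_mul_tri (V + i)
            have e4 : (V + i) * (V + i + 1) ≤ 2 * V * (V + i + 1) :=
              Nat.mul_le_mul_right _ (by omega)
            have e5 : 2 * V * (V + i + 1) ≤ b * (V + i + 1) := Nat.mul_le_mul_right _ hb1
            nlinarith

open Classical in
/-- The number of the `O`-positions in `{1, ..., x}`. -/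
noncomputable def cntO (x : ℕ) : ℕ := ((Finset.Icc 1 x).filter fun n => Draw n).card

theorem cntO_mono {x y : ℕ} (h : x ≤ y) : cntO x ≤ cntO y := by
  classical
  unfold cntO
  refine Finset.card_le_card fun n hn => ?_
  have h1 := Finset.mem_filter.1 hn
  exact Finset.mem_filter.2 ⟨Finset.Icc_subset_Icc_right h h1.1, h1.2⟩

theorem tri_add_inj {k k' r r' : ℕ} (hr : r ≤ k) (hr' : r' ≤ k') (h : tri k + r = tri k' + r') :
    k = k' ∧ r = r' := by
  have e : k = k' := by
    rw [← idx_tri_add hr, ← idx_tri_add hr', h]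
  subst e
  exact ⟨rfl, by omega⟩

/-- The recursive inequality. -/
theorem cntO_step (V : ℕ) : V * cntO V ≤ cntO (2700 * V ^ 4) := by
  classical
  rcases Nat.eq_zero_or_pos V with rfl | hV
  · simp
  set D := (Finset.Icc 1 V).filter fun n => Draw n with hD
  set S : ℕ → Finset ℕ := fun o => (Finset.Icc V (72 * V ^ 2)).filter fun k => Draw (tri k + o)
    with hS
  have h1 : V * cntO V ≤ (D.sigma fun o => S o).card := by
    rw [Finset.card_sigma]
    have : ∑ _o ∈ D, V ≤ ∑ o ∈ D, (S o).card := by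
      refine Finset.sum_le_sum fun o ho => ?_
      rw [hD, Finset.mem_filter, Finset.mem_Icc] at ho
      exact many_indices ho.2 ho.1.2
    rw [Finset.sum_const, smul_eq_mul, mul_comm] at this
    exact this
  refine h1.trans ?_
  unfold cntO
  refine Finset.card_le_card_of_injOn (fun x => tri x.2 + x.1) (fun x hx => ?_) ?_
  · rw [Finset.mem_coe, Finset.mem_sigma] at hx
    obtain ⟨hx1, hx2⟩ := hx
    simp only [hD, hS, Finset.mem_filter, Finset.mem_Icc] at hx1 hx2
    rw [Finset.mem_coe, Finset.mem_filter, Finset.mem_Icc]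
    show (1 ≤ tri x.2 + x.1 ∧ tri x.2 + x.1 ≤ 2700 * V ^ 4) ∧ Draw (tri x.2 + x.1)
    refine ⟨⟨by omega, ?_⟩, hx2.2⟩
    have e1 := two_mul_tri x.2
    have e2 : x.2 * (x.2 + 1) ≤ 72 * V ^ 2 * (72 * V ^ 2 + 1) :=
      Nat.mul_le_mul hx2.1.2 (by omega)
    have e3 : V ^ 2 ≤ V ^ 4 := Nat.pow_le_pow_right hV (by norm_num)
    have e4 : V ≤ V ^ 4 := Nat.le_self_pow (by norm_num) V
    have e5 : 72 * V ^ 2 * (72 * V ^ 2 + 1) = 5184 * V ^ 4 + 72 * V ^ 2 := by ring
    have e6 := hx1.1.2
    omega
  · rintro ⟨o, k⟩ hx ⟨o', k'⟩ hx' e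
    rw [Finset.mem_coe, Finset.mem_sigma] at hx hx'
    simp only [hD, hS, Finset.mem_filter, Finset.mem_Icc] at hx hx' e
    obtain ⟨e1, e2⟩ := tri_add_inj (by omega) (by omega) e
    subst e1; subst e2
    rfl

theorem one_le_cntO {o x : ℕ} (hd : Draw o) (hx : o ≤ x) : 1 ≤ cntO x := by
  classical
  unfold cntO
  rw [Nat.one_le_iff_ne_zero, Finset.card_ne_zero]
  exact ⟨o, Finset.mem_filter.2 ⟨Finset.mem_Icc.2 ⟨hd.pos, hx⟩, hd⟩⟩

/-- If there is an `O`-position then up to `x` there are at least `c x ^ (1/3) / (log x) ^ 3`. -/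
theorem draws_abound {o : ℕ} (hd : Draw o) : ∃ c : ℝ, 0 < c ∧ ∀ x : ℕ, max 2 o ≤ x →
    c * (x : ℝ) ^ (1 / 3 : ℝ) / Real.log x ^ 3 ≤ cntO x := by
  have ho := hd.pos
  -- the threshold
  set W : ℕ := max 2 o with hW
  have hW2 : 2 ≤ W := le_max_left _ _
  have hWo : o ≤ W := le_max_right _ _
  set X : ℕ := 2700 * (W + 1) ^ 4 with hX
  have hXW : W ≤ X := by
    have : W + 1 ≤ (W + 1) ^ 4 := Nat.le_self_pow (by norm_num) _
    omega
  have hX0 : (0 : ℝ) < (X : ℝ) := by
    have : 0 < X := by omega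
    exact_mod_cast this
  have hl2 : 0 < Real.log 2 := Real.log_pos (by norm_num)
  refine ⟨Real.log 2 ^ 3 / (X : ℝ) ^ (1 / 3 : ℝ), by positivity, ?_⟩
  set c : ℝ := Real.log 2 ^ 3 / (X : ℝ) ^ (1 / 3 : ℝ) with hc
  have hc0 : 0 < c := by positivity
  intro x
  induction x using Nat.strong_induction_on with
  | _ x ih =>
    intro hx
    have hx2 : 2 ≤ x := hW2.trans hx
    have hxr : (2 : ℝ) ≤ x := by exact_mod_cast hx2
    have hlx : 0 < Real.log x := Real.log_pos (by linarith)
    rw [div_le_iff₀ (by positivity)]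
    rcases Nat.lt_or_ge x X with hlt | hge
    · -- small x
      have h1 : 1 ≤ cntO x := one_le_cntO hd (hWo.trans hx)
      have h2 : (1 : ℝ) ≤ cntO x := by exact_mod_cast h1
      have h3 : (x : ℝ) ^ (1 / 3 : ℝ) ≤ (X : ℝ) ^ (1 / 3 : ℝ) :=
        Real.rpow_le_rpow (by positivity) (by exact_mod_cast hlt.le) (by norm_num)
      have h4 : Real.log 2 ^ 3 ≤ Real.log x ^ 3 :=
        pow_le_pow_left₀ hl2.le (Real.log_le_log (by norm_num) hxr) 3
      have h5 : c * (X : ℝ) ^ (1 / 3 : ℝ) = Real.log 2 ^ 3 := by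
        rw [hc]; field_simp
      calc c * (x : ℝ) ^ (1 / 3 : ℝ) ≤ c * (X : ℝ) ^ (1 / 3 : ℝ) :=
            mul_le_mul_of_nonneg_left h3 hc0.le
        _ = Real.log 2 ^ 3 := h5
        _ ≤ Real.log x ^ 3 := h4
        _ = 1 * Real.log x ^ 3 := (one_mul _).symm
        _ ≤ (cntO x : ℝ) * Real.log x ^ 3 := mul_le_mul_of_nonneg_right h2 (by positivity)
    · -- large x: V is the largest number with 2700 V ^ 4 ≤ x
      set V : ℕ := Nat.findGreatest (fun v => 2700 * v ^ 4 ≤ x) x with hV
      have hVle : 2700 * V ^ 4 ≤ x :=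
        Nat.findGreatest_spec (P := fun v => 2700 * v ^ 4 ≤ x) (m := 0) (Nat.zero_le _) (by simp)
      have hVW : W + 1 ≤ V := by
        apply Nat.le_findGreatest
        · have : W + 1 ≤ (W + 1) ^ 4 := Nat.le_self_pow (by norm_num) _
          omega
        · exact hge
      have hVlt : x < 2700 * (V + 1) ^ 4 := by
        by_contra hcon
        push Not at hcon
        have h1 : V + 1 ≤ V := by
          apply Nat.le_findGreatest
          · have : V + 1 ≤ (V + 1) ^ 4 := Nat.le_self_pow (by norm_num) _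
            omega
          · exact hcon
        omega
      have hVx : V < x := by
        have : V ≤ V ^ 4 := Nat.le_self_pow (by norm_num) _
        omega
      have hVr : (3 : ℝ) ≤ V := by
        have : 3 ≤ V := by omega
        exact_mod_cast this
      have hlV : 0 < Real.log V := Real.log_pos (by linarith)
      have ihV := ih V hVx (by omega)
      rw [div_le_iff₀ (by positivity)] at ihV
      have hstep : (V : ℝ) * cntO V ≤ cntO x := by
        have := (cntO_step V).trans (cntO_mono hVle)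
        exact_mod_cast this
      have hlog : 4 * Real.log V ≤ Real.log x := by
        have h1 : Real.log ((V : ℝ) ^ 4) ≤ Real.log x := by
          apply Real.log_le_log (by positivity)
          have : V ^ 4 ≤ x := by omega
          exact_mod_cast this
        rw [Real.log_pow] at h1
        exact_mod_cast h1
      have hlog3 : 64 * Real.log V ^ 3 ≤ Real.log x ^ 3 := by
        have := pow_le_pow_left₀ (by positivity) hlog 3
        calc 64 * Real.log V ^ 3 = (4 * Real.log V) ^ 3 := by ring
          _ ≤ _ := this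
      -- x ≤ 2700 (2 V) ^ 4 ... cube roots
      have hcube : (x : ℝ) ^ (1 / 3 : ℝ) ≤ 64 * (V * (V : ℝ) ^ (1 / 3 : ℝ)) := by
        have h1 : (x : ℝ) ≤ 64 ^ 3 * (V : ℝ) ^ 4 := by
          have h2 : (V : ℝ) + 1 ≤ 2 * V := by linarith
          have h3 : ((V : ℝ) + 1) ^ 4 ≤ (2 * V) ^ 4 := pow_le_pow_left₀ (by positivity) h2 4
          have h4 : (x : ℝ) ≤ 2700 * ((V : ℝ) + 1) ^ 4 := by exact_mod_cast hVlt.le
          have h9 : (0 : ℝ) ≤ (V : ℝ) ^ 4 := by positivity
          calc (x : ℝ) ≤ 2700 * ((V : ℝ) + 1) ^ 4 := h4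
            _ ≤ 2700 * (2 * V) ^ 4 := by linarith
            _ = 43200 * (V : ℝ) ^ 4 := by ring
            _ ≤ 64 ^ 3 * (V : ℝ) ^ 4 := mul_le_mul_of_nonneg_right (by norm_num) h9
        have h5 : (x : ℝ) ^ (1 / 3 : ℝ) ≤ (64 ^ 3 * (V : ℝ) ^ 4) ^ (1 / 3 : ℝ) :=
          Real.rpow_le_rpow (by positivity) h1 (by norm_num)
        refine h5.trans (le_of_eq ?_)
        rw [Real.mul_rpow (by positivity) (by positivity), ← Real.rpow_natCast,
          ← Real.rpow_mul (by norm_num)]
        have h6 : (V : ℝ) ^ 4 = (V : ℝ) ^ 3 * V := by ring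
        rw [h6, Real.mul_rpow (by positivity) (by positivity)]
        have h7 : ((V : ℝ) ^ 3) ^ (1 / 3 : ℝ) = V := by
          rw [← Real.rpow_natCast, ← Real.rpow_mul (by positivity)]
          norm_num
        have h8 : ((3 : ℕ) : ℝ) * (1 / 3 : ℝ) = 1 := by norm_num
        rw [h7, h8, Real.rpow_one]
      calc c * (x : ℝ) ^ (1 / 3 : ℝ) ≤ c * (64 * (V * (V : ℝ) ^ (1 / 3 : ℝ))) :=
            mul_le_mul_of_nonneg_left hcube hc0.le
        _ = 64 * V * (c * (V : ℝ) ^ (1 / 3 : ℝ)) := by ring
        _ ≤ 64 * V * (cntO V * Real.log V ^ 3) :=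
            mul_le_mul_of_nonneg_left ihV (by positivity)
        _ = (V * cntO V) * (64 * Real.log V ^ 3) := by ring
        _ ≤ cntO x * Real.log x ^ 3 :=
            mul_le_mul hstep hlog3 (by positivity) (by positivity)

end Trib
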