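import Pool.Agent.Lib.MP_841d01_co.Defs2

namespace Trib

namespace Jac_

/-- an odd number at which the symbol modulo a non-square is `-1` -/
private theorem exists_neg_one {d : ℕ} (hd : Odd d) (hs : ¬ IsSquare d) :
    ∃ a : ℕ, Odd a ∧ jacobiSym (a : ℤ) d = -1 := by
  have hd0 : d ≠ 0 := by
    rintro rfl
    exact hs ⟨0, rfl⟩
  obtain ⟨a, b, hab, hsq⟩ := Nat.sq_mul_squarefree d
  have ha1 : a ≠ 1 := by
    rintro rfl
    exact hs ⟨b, by rw [← hab]; ring⟩
  obtain ⟨p, hp, hpa⟩ := Nat.exists_prime_and_dvd ha1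
  have ha0 : a ≠ 0 := hsq.ne_zero
  have hb0 : b ≠ 0 := by
    rintro rfl
    simp at hab
    exact hd0 hab.symm
  have hpd : p ∣ d := hab ▸ Dvd.dvd.mul_left hpa _
  have hp2 : p ≠ 2 := by
    rintro rfl
    exact (Nat.not_even_iff_odd.2 hd) (even_iff_two_dvd.2 hpd)
  have he : Odd (d.factorization p) := by
    have h1 : a.factorization p = 1 := by
      refine le_antisymm ((Nat.squarefree_iff_factorization_le_one ha0).1 hsq p) ?_
      exact (hp.dvd_iff_one_le_factorization ha0).1 hpa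
    rw [← hab, Nat.factorization_mul (pow_ne_zero 2 hb0) ha0, Nat.factorization_pow]
    simp only [Finsupp.add_apply, Finsupp.smul_apply, smul_eq_mul, h1]
    exact ⟨_, rfl⟩
  have hfac : p ^ d.factorization p * (d / p ^ d.factorization p) = d :=
    Nat.ordProj_mul_ordCompl_eq_self d p
  set e := d.factorization p with hedef
  set r := d / p ^ e with hr
  have hcop : Nat.Coprime p r := Nat.coprime_ordCompl hp hd0
  have hr0 : r ≠ 0 := by
    rintro h
    rw [h, mul_zero] at hfac
    exact hd0 hfac.symm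
  have hcop2 : Nat.Coprime p (2 * r) :=
    Nat.Coprime.mul_right ((Nat.coprime_primes hp Nat.prime_two).2 hp2) hcop
  have : Fact p.Prime := ⟨hp⟩
  obtain ⟨u, hu⟩ := FiniteField.exists_nonsquare (F := ZMod p) (by
    rw [ZMod.ringChar_zmod_n]
    exact hp2)
  obtain ⟨x, hx1, hx2⟩ := Nat.chineseRemainder hcop2 u.val 1
  refine ⟨x, ?_, ?_⟩
  · have h2 : x ≡ 1 [MOD 2] := hx2.of_mul_right r
    exact Nat.odd_iff.2 h2
  · have hxp : jacobiSym (x : ℤ) p = -1 := by
      rw [← jacobiSym.legendreSym.to_jacobiSym, legendreSym.eq_neg_one_iff]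
      have h3 : ((x : ℤ) : ZMod p) = u := by
        have h4 : ((x : ℕ) : ZMod p) = ((u.val : ℕ) : ZMod p) :=
          (ZMod.natCast_eq_natCast_iff _ _ _).2 hx1
        rw [Int.cast_natCast, h4, ZMod.natCast_zmod_val]
      rw [h3]
      exact hu
    have hxr : jacobiSym (x : ℤ) r = 1 := by
      have h5 : x ≡ 1 [MOD r] := hx2.of_mul_left 2
      rw [jacobiSym.mod_left' (a₂ := 1) (by exact_mod_cast h5), jacobiSym.one_left]
    rw [← hfac, jacobiSym.mul_right' _ (pow_ne_zero _ hp.ne_zero) hr0, jacobiSym.pow_right, hxp,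
      hxr, mul_one]
    exact he.neg_one_pow

/-- the function on the odd numbers -/
private def g (d b : ℕ) : ℤ := if Odd b then jacobiSym (b : ℤ) d else 0

private theorem g_abs (d b : ℕ) : |g d b| ≤ 1 := by
  unfold g
  split_ifs
  · rcases jacobiSym.trichotomy (b : ℤ) d with h | h | h <;> rw [h] <;> norm_num
  · norm_num

private theorem g_mod (d b : ℕ) : g d (b % (2 * d)) = g d b := by
  unfold g
  have h1 : Odd (b % (2 * d)) ↔ Odd b := by
    rw [Nat.odd_iff, Nat.odd_iff, Nat.mod_mul_right_mod]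
  simp only [h1]
  split_ifs
  · refine jacobiSym.mod_left' ?_
    have h2 : b % (2 * d) % d = b % d := Nat.mod_mul_left_mod b 2 d
    exact_mod_cast h2
  · rfl

private theorem g_sum_period {d : ℕ} (hd : Odd d) (hs : ¬ IsSquare d) :
    ∑ b ∈ Finset.range (2 * d), g d b = 0 := by
  obtain ⟨a, ha, haJ⟩ := exists_neg_one hd hs
  have hd0 : d ≠ 0 := by
    rintro rfl
    exact hs ⟨0, rfl⟩
  have : NeZero d := ⟨hd0⟩
  have hcop : Nat.Coprime (2 * d) a := by
    refine Nat.Coprime.mul_left (Nat.coprime_two_left.2 ha) ?_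
    have h1 : jacobiSym (a : ℤ) d ≠ 0 := by rw [haJ]; norm_num
    have h2 : ((a : ℤ)).gcd d = 1 := by
      by_contra h3
      exact h1 (jacobiSym.eq_zero_iff_not_coprime.2 h3)
    rw [Int.gcd_natCast_natCast] at h2
    exact Nat.Coprime.symm h2
  have hpos : 0 < 2 * d := by positivity
  have hmaps : Set.MapsTo (fun b => a * b % (2 * d)) (Finset.range (2 * d) : Set ℕ)
      (Finset.range (2 * d)) := by
    intro b _
    simp only [Finset.coe_range, Set.mem_Iio]
    exact Nat.mod_lt _ hpos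
  have hinj : Set.InjOn (fun b => a * b % (2 * d)) (Finset.range (2 * d) : Set ℕ) := by
    intro b hb b' hb' h
    simp only [Finset.coe_range, Set.mem_Iio] at hb hb'
    have h1 : a * b ≡ a * b' [MOD 2 * d] := h
    exact (Nat.ModEq.cancel_left_of_coprime hcop h1).eq_of_lt_of_lt hb hb'
  have hsum : ∑ b ∈ Finset.range (2 * d), -g d b = ∑ b ∈ Finset.range (2 * d), g d b := by
    refine Finset.sum_nbij (fun b => a * b % (2 * d)) (fun b hb => hmaps hb) hinj
      (Finset.surjOn_of_injOn_of_card_le _ hmaps hinj le_rfl) fun b _ => ?_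
    rw [g_mod]
    unfold g
    have h1 : Odd (a * b) ↔ Odd b := by
      rw [Nat.odd_mul]
      exact ⟨fun h => h.2, fun h => ⟨ha, h⟩⟩
    simp only [h1]
    split_ifs
    · rw [Nat.cast_mul, jacobiSym.mul_left, haJ]
      ring
    · ring
  rw [Finset.sum_neg_distrib] at hsum
  linarith

private theorem g_sum {d : ℕ} (hd : Odd d) (hs : ¬ IsSquare d) (n : ℕ) :
    |∑ b ∈ Finset.range n, g d b| ≤ 2 * d := by
  induction n using Nat.strong_induction_on with
  | _ n ih =>
    have hd0 : d ≠ 0 := by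
      rintro rfl
      exact hs ⟨0, rfl⟩
    rcases le_or_gt n (2 * d) with h | h
    · calc |∑ b ∈ Finset.range n, g d b| ≤ ∑ b ∈ Finset.range n, |g d b| :=
            Finset.abs_sum_le_sum_abs _ _
        _ ≤ ∑ b ∈ Finset.range n, 1 := Finset.sum_le_sum fun b _ => g_abs d b
        _ = (n : ℤ) := by simp
        _ ≤ 2 * d := by exact_mod_cast h
    · obtain ⟨m, rfl⟩ := Nat.exists_eq_add_of_lt h
      have h1 : ∑ b ∈ Finset.range (2 * d + m + 1), g d b =
          ∑ b ∈ Finset.range (m + 1), g d b := by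
        rw [add_assoc, Finset.sum_range_add, g_sum_period hd hs, zero_add]
        refine Finset.sum_congr rfl fun b _ => ?_
        rw [← g_mod d (2 * d + b), Nat.add_mod_left, g_mod]
      rw [h1]
      exact ih _ (by omega)

/-- reciprocity -/
private theorem recip {Δ : ℤ} (h4 : Δ % 4 = 1) {b : ℕ} (hb : Odd b) :
    jacobiSym Δ b = jacobiSym (b : ℤ) Δ.natAbs := by
  rcases Int.natAbs_eq Δ with h | h
  · set d := Δ.natAbs with hd
    rw [h] at h4 ⊢
    have h5 : d % 4 = 1 := by omega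
    exact jacobiSym.quadratic_reciprocity_one_mod_four h5 hb
  · set d := Δ.natAbs with hd
    rw [h] at h4 ⊢
    have h5 : d % 4 = 3 := by omega
    rw [jacobiSym.neg _ hb]
    have hdo : Odd d := by
      rw [Nat.odd_iff]
      omega
    have hb2 : b % 4 = 1 ∨ b % 4 = 3 := by
      have := Nat.odd_iff.1 hb
      omega
    rcases hb2 with h6 | h6
    · rw [ZMod.χ₄_nat_one_mod_four h6, one_mul]
      exact jacobiSym.quadratic_reciprocity_one_mod_four' hdo h6
    · rw [ZMod.χ₄_nat_three_mod_four h6, jacobiSym.quadratic_reciprocity_three_mod_four h5 h6]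
      ring

end Jac_

open Jac_ in
/-- T5 -/
theorem jacobi_sum {Δ : ℤ} (h4 : Δ % 4 = 1) (hΔ : ¬ IsSquare Δ) (Z : ℕ) :
    |∑ b ∈ (Finset.range (Z + 1)).filter Odd, jacobiSym Δ b| ≤ 4 * |Δ| := by
  have hdo : Odd Δ.natAbs := by
    rw [Nat.odd_iff]
    omega
  have hds : ¬ IsSquare Δ.natAbs := by
    rintro ⟨m, hm⟩
    rcases Int.natAbs_eq Δ with h | h
    · exact hΔ ⟨m, by rw [h, hm]; push_cast; ring⟩
    · have hmo : m % 2 = 1 := by
        rcases Nat.mod_two_eq_zero_or_one m with h0 | h0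
        · exfalso
          have h1 := Nat.odd_iff.1 hdo
          rw [hm, Nat.mul_mod, h0] at h1
          simp at h1
        · exact h0
      have hm4 : (m * m) % 4 = 1 := by
        have h2 : m % 4 = 1 ∨ m % 4 = 3 := by omega
        rcases h2 with h2 | h2 <;> rw [Nat.mul_mod, h2]
      rw [hm] at h
      rw [h] at h4
      have h3 : (-((m * m : ℕ) : ℤ)) % 4 = 1 := h4
      omega
  have h1 : ∑ b ∈ (Finset.range (Z + 1)).filter Odd, jacobiSym Δ b =
      ∑ b ∈ Finset.range (Z + 1), g Δ.natAbs b := by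
    rw [Finset.sum_filter]
    refine Finset.sum_congr rfl fun b _ => ?_
    unfold g
    by_cases hb : Odd b
    · rw [if_pos hb, if_pos hb]
      exact recip h4 hb
    · rw [if_neg hb, if_neg hb]
  rw [h1]
  refine (g_sum hdo hds _).trans ?_
  rw [Int.abs_eq_natAbs]
  have : (0 : ℤ) ≤ (Δ.natAbs : ℤ) := Int.natCast_nonneg _
  linarith

end Trib
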