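import Pool.Agent.Lib.MP_841d01_co.Bad
import Pool.Agent.Lib.MP_841d01_co.Base

namespace Trib

open Classical in
/-- the `P`-positions in `[1, x]` -/
private noncomputable def rcP (x : ℕ) : Finset ℕ := (Finset.Icc 1 x).filter fun n => Win false n

private theorem rcP_card (x : ℕ) : (rcP x).card = cnt false x := rfl

private theorem rcP_win {x p : ℕ} (h : p ∈ rcP x) : Win false p := by
  classical
  unfold rcP at h
  exact (Finset.mem_filter.1 h).2

private theorem rcP_le {x p : ℕ} (h : p ∈ rcP x) : p ≤ x := by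
  classical
  unfold rcP at h
  exact (Finset.mem_Icc.1 (Finset.mem_filter.1 h).1).2

/-- the counting of the triples -/
private theorem rc_count (U : ℕ) (A B : Finset ℕ)
    (hA : ∀ p ∈ A, Win false p ∧ 16 * p ≤ U) (hB : ∀ s ∈ B, Win false s ∧ 16 * s ≤ U ^ 2)
    (hU : 20000 ≤ U) (hbad : 2 * (badP U A B).card ≤ A.card * B.card) :
    A.card * B.card * (QQ U).card ≤
      24 * (Nat.log 2 U + 1) * cnt false (140000000 * U ^ 4) := by
  classical
  let G : Finset (ℕ × ℕ) := (A ×ˢ B) \ badP U A B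
  let T0 : Finset ((_ : ℕ × ℕ) × ℕ) :=
    G.sigma fun x => (QQ U).filter fun q => jacobiSym (dd x.1 x.2) q = 1
  let T : Finset (ℕ × ℕ × ℕ) := T0.map ⟨fun t => (t.1.1, t.1.2, t.2), by
    rintro ⟨⟨a, b⟩, c⟩ ⟨⟨a', b'⟩, c'⟩ h
    simp only [Prod.mk.injEq] at h
    obtain ⟨h1, h2, h3⟩ := h
    subst h1; subst h2; subst h3
    rfl⟩
  have hT : ∀ t ∈ T, Win false t.1 ∧ Win false t.2.1 ∧ t.2.2 ∈ QQ U ∧ 16 * t.1 ≤ U ∧
      16 * t.2.1 ≤ U ^ 2 ∧ jacobiSym (dd t.1 t.2.1) t.2.2 = 1 := by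
    intro t ht
    obtain ⟨⟨⟨p, s⟩, q⟩, h1, rfl⟩ := Finset.mem_map.1 ht
    obtain ⟨h2, h3⟩ := Finset.mem_sigma.1 h1
    obtain ⟨h4, h5⟩ := Finset.mem_filter.1 h3
    have h6 := (Finset.mem_sdiff.1 h2).1
    obtain ⟨h7, h8⟩ := Finset.mem_product.1 h6
    exact ⟨(hA p h7).1, (hB s h8).1, h4, (hA p h7).2, (hB s h8).2, h5⟩
  have h1 := count_le hU T hT
  have h2 : T.card = ∑ x ∈ G, ((QQ U).filter fun q => jacobiSym (dd x.1 x.2) q = 1).card := by
    rw [Finset.card_map, Finset.card_sigma]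
  have h3 : G.card * (QQ U).card ≤ 4 * T.card := by
    rw [h2, Finset.mul_sum, ← smul_eq_mul, ← Finset.sum_const]
    refine Finset.sum_le_sum fun x hx => ?_
    obtain ⟨hx1, hx2⟩ := Finset.mem_sdiff.1 hx
    by_contra hcon
    push Not at hcon
    exact hx2 (Finset.mem_filter.2 ⟨hx1, hcon⟩)
  have h4 : A.card * B.card ≤ 2 * G.card := by
    have h5 : (A ×ˢ B).card - (badP U A B).card ≤ G.card := Finset.le_card_sdiff _ _
    rw [Finset.card_product] at h5
    omega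
  calc A.card * B.card * (QQ U).card ≤ 2 * G.card * (QQ U).card := Nat.mul_le_mul_right _ h4
    _ = 2 * (G.card * (QQ U).card) := by ring
    _ ≤ 2 * (4 * T.card) := Nat.mul_le_mul_left _ h3
    _ = 8 * T.card := by ring
    _ ≤ 8 * (3 * (Nat.log 2 U + 1) * cnt false (140000000 * U ^ 4)) := Nat.mul_le_mul_left _ h1
    _ = 24 * (Nat.log 2 U + 1) * cnt false (140000000 * U ^ 4) := by ring

private theorem rc_rpow {X : ℝ} {a b e : ℝ} (hX : 1 ≤ X) (he : a + e = b)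
    (h17 : (17 : ℝ) ^ b ≤ X ^ e) : X ^ a ≤ (X / 17) ^ b := by
  have hX0 : 0 < X := by linarith
  rw [Real.div_rpow hX0.le (by norm_num)]
  rw [le_div_iff₀ (Real.rpow_pos_of_pos (by norm_num) _), ← he, Real.rpow_add hX0]
  rw [← he] at h17
  exact mul_le_mul_of_nonneg_left h17 (Real.rpow_nonneg hX0.le _)

private theorem rc_div (n : ℕ) (h : 255 ≤ n) : (n : ℝ) / 17 ≤ ((n / 16 : ℕ) : ℝ) := by
  have h1 : n ≤ 17 * (n / 16) := by omega
  have h2 : (n : ℝ) ≤ 17 * ((n / 16 : ℕ) : ℝ) := by exact_mod_cast h1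
  linarith

/-- T10 -/
theorem recur : ∃ c : ℝ, 0 < c ∧ ∃ U₀ : ℕ, ∀ U : ℕ, U₀ ≤ U →
    c * U / (Real.log U) ^ 2 * (cnt false (U / 16) : ℝ) * (cnt false (U ^ 2 / 16) : ℝ) ≤
      (cnt false (140000000 * U ^ 4) : ℝ) := by
  obtain ⟨c, hc, U1, hU1, hQ⟩ := card_QQ
  obtain ⟨U2, hbad⟩ := bad_le
  obtain ⟨X0, hbase⟩ := base
  refine ⟨c / 72, by positivity, max (max U1 U2) (max (16 * X0) 30000000), fun U hU => ?_⟩
  have hUU1 : U1 ≤ U := by omega
  have hUU2 : U2 ≤ U := by omega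
  have hUX : 16 * X0 ≤ U := by omega
  have hUb : 30000000 ≤ U := by omega
  have hUr : (30000000 : ℝ) ≤ (U : ℝ) := by exact_mod_cast hUb
  have hU1r : (1 : ℝ) ≤ (U : ℝ) := by linarith
  have hsq : U ≤ U ^ 2 := by nlinarith
  have hA1 : X0 ≤ U / 16 := by omega
  have hB1 : X0 ≤ U ^ 2 / 16 := by omega
  have hA : (U : ℝ) ^ (1 / 5 : ℝ) ≤ (cnt false (U / 16) : ℝ) := by
    refine le_trans ?_ (hbase _ hA1)
    refine le_trans (rc_rpow (b := 3 / 10) (e := 1 / 10) hU1r (by norm_num) ?_)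
      (Real.rpow_le_rpow (by positivity) (rc_div U (by omega)) (by norm_num))
    have e1 : (17 : ℝ) ^ (3 / 10 : ℝ) = ((17 : ℝ) ^ (3 : ℕ)) ^ (1 / 10 : ℝ) := by
      rw [← Real.rpow_natCast, ← Real.rpow_mul (by norm_num)]
      norm_num
    rw [e1]
    exact Real.rpow_le_rpow (by norm_num) (by norm_num; linarith) (by norm_num)
  have hB : (U : ℝ) ^ (11 / 20 : ℝ) ≤ (cnt false (U ^ 2 / 16) : ℝ) := by
    refine le_trans ?_ (hbase _ hB1)
    have e0 : (U : ℝ) ^ (11 / 20 : ℝ) = ((U : ℝ) ^ (2 : ℕ)) ^ (11 / 40 : ℝ) := by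
      rw [← Real.rpow_natCast, ← Real.rpow_mul (by positivity)]
      norm_num
    rw [e0]
    refine le_trans (rc_rpow (b := 3 / 10) (e := 1 / 40) (one_le_pow₀ hU1r) (by norm_num)
      ?_) (Real.rpow_le_rpow (by positivity) ?_ (by norm_num))
    · have e1 : (17 : ℝ) ^ (3 / 10 : ℝ) = (((17 : ℝ) ^ (6 : ℕ)) ^ (2 : ℕ)) ^ (1 / 40 : ℝ) := by
        rw [← pow_mul, ← Real.rpow_natCast, ← Real.rpow_mul (by norm_num)]
        norm_num
      rw [e1]
      refine Real.rpow_le_rpow (by norm_num) ?_ (by norm_num)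
      exact pow_le_pow_left₀ (by norm_num) (by norm_num; linarith) 2
    · have h2 := rc_div (U ^ 2) (by omega)
      push_cast at h2
      exact h2
  have hb := hbad U hUU2 (rcP (U / 16)) (rcP (U ^ 2 / 16))
    (fun p hp => by have := rcP_le hp; omega) (fun s hs => by have := rcP_le hs; omega)
    (by rw [rcP_card]; exact hA) (by rw [rcP_card]; exact hB)
  have hcount := rc_count U (rcP (U / 16)) (rcP (U ^ 2 / 16))
    (fun p hp => ⟨rcP_win hp, by have := rcP_le hp; omega⟩)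
    (fun s hs => ⟨rcP_win hs, by have := rcP_le hs; omega⟩) (by omega) hb
  rw [rcP_card, rcP_card] at hcount
  have hcr : (cnt false (U / 16) : ℝ) * (cnt false (U ^ 2 / 16) : ℝ) * ((QQ U).card : ℝ) ≤
      24 * ((Nat.log 2 U : ℝ) + 1) * (cnt false (140000000 * U ^ 4) : ℝ) := by
    exact_mod_cast hcount
  have hq := hQ U hUU1
  -- logarithms
  have hlog1 : (1 : ℝ) ≤ Real.log U := by
    rw [Real.le_log_iff_exp_le (by linarith)]
    have := Real.exp_one_lt_d9
    linarith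
  have hlog2 : (Nat.log 2 U : ℝ) + 1 ≤ 3 * Real.log U := by
    have h1 : (2 : ℝ) ^ (Nat.log 2 U) ≤ (U : ℝ) := by
      exact_mod_cast Nat.pow_log_le_self 2 (by omega)
    have h2 := Real.log_le_log (by positivity) h1
    rw [Real.log_pow] at h2
    have h3 := Real.log_two_gt_d9
    have h4 : (0 : ℝ) ≤ (Nat.log 2 U : ℝ) := Nat.cast_nonneg _
    nlinarith
  have hL : 0 < Real.log U := by linarith
  set a : ℝ := (cnt false (U / 16) : ℝ) with ha
  set b : ℝ := (cnt false (U ^ 2 / 16) : ℝ) with hbd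
  set d : ℝ := (cnt false (140000000 * U ^ 4) : ℝ) with hd
  have ha0 : 0 ≤ a := Nat.cast_nonneg _
  have hb0 : 0 ≤ b := Nat.cast_nonneg _
  have hd0 : 0 ≤ d := Nat.cast_nonneg _
  have h5 : a * b * (c * U / Real.log U) ≤ 24 * (3 * Real.log U) * d :=
    (mul_le_mul_of_nonneg_left hq (by positivity)).trans
      (hcr.trans (mul_le_mul_of_nonneg_right (by linarith) hd0))
  have h6 : c / 72 * U / (Real.log U) ^ 2 * a * b =
      (a * b * (c * U / Real.log U)) / (72 * Real.log U) := by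
    field_simp
  rw [h6, div_le_iff₀ (by positivity)]
  calc a * b * (c * U / Real.log U) ≤ 24 * (3 * Real.log U) * d := h5
    _ = d * (72 * Real.log U) := by ring

end Trib
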